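import Pool.Agent.Lib.MP_aab329_nt.Q.OneVar

/-!
Moments of the divisor function over the values of a polynomial in a box.
-/

set_option autoImplicit false

namespace Pool.MP_aab329_nt.SerreQ

open Finset Real

/-- The integral points of height at most `N`. -/
noncomputable def boxn (n N : ℕ) : Finset (Fin n → ℤ) := Fintype.piFinset fun _ => Icc (-(N : ℤ)) N

/-- Polynomial growth. -/
theorem eval_le {n : ℕ} (H : MvPolynomial (Fin n) ℤ) : ∃ (E : ℕ) (C : ℝ), 1 ≤ C ∧
    ∀ N : ℕ, 1 ≤ N → ∀ x ∈ boxn n N, |((MvPolynomial.eval x H : ℤ) : ℝ)| ≤ C * (N : ℝ) ^ E := by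
  classical
  refine ⟨H.totalDegree, 1 + ∑ m ∈ H.support, |((H.coeff m : ℤ) : ℝ)|, ?_, ?_⟩
  · have : 0 ≤ ∑ m ∈ H.support, |((H.coeff m : ℤ) : ℝ)| := Finset.sum_nonneg fun _ _ => abs_nonneg _
    linarith
  intro N hN x hx
  have hN1 : (1 : ℝ) ≤ N := by exact_mod_cast hN
  have hxi : ∀ i, |((x i : ℤ) : ℝ)| ≤ N := by
    intro i
    have h1 := (Fintype.mem_piFinset.1 hx) i
    rw [Finset.mem_Icc] at h1
    have h2 : |x i| ≤ (N : ℤ) := abs_le.2 h1
    exact_mod_cast h2
  rw [MvPolynomial.eval_eq']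
  push_cast
  calc |∑ m ∈ H.support, ((H.coeff m : ℤ) : ℝ) * ∏ i, ((x i : ℤ) : ℝ) ^ m i|
      ≤ ∑ m ∈ H.support, |((H.coeff m : ℤ) : ℝ) * ∏ i, ((x i : ℤ) : ℝ) ^ m i| :=
        Finset.abs_sum_le_sum_abs _ _
    _ ≤ ∑ m ∈ H.support, |((H.coeff m : ℤ) : ℝ)| * (N : ℝ) ^ H.totalDegree := by
        refine Finset.sum_le_sum fun m hm => ?_
        rw [abs_mul, Finset.abs_prod]
        refine mul_le_mul_of_nonneg_left ?_ (abs_nonneg _)
        calc ∏ i, |((x i : ℤ) : ℝ) ^ m i| ≤ ∏ i, (N : ℝ) ^ m i := by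
              refine Finset.prod_le_prod (fun _ _ => abs_nonneg _) fun i _ => ?_
              rw [abs_pow]
              exact pow_le_pow_left₀ (abs_nonneg _) (hxi i) _
          _ = (N : ℝ) ^ (∑ i, m i) := by rw [Finset.prod_pow_eq_pow_sum]
          _ ≤ (N : ℝ) ^ H.totalDegree := by
              refine pow_le_pow_right₀ hN1 ?_
              have h1 := MvPolynomial.le_totalDegree hm
              rwa [Finsupp.sum_fintype _ _ (fun _ => rfl)] at h1
    _ = (∑ m ∈ H.support, |((H.coeff m : ℤ) : ℝ)|) * (N : ℝ) ^ H.totalDegree := by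
        rw [Finset.sum_mul]
    _ ≤ (1 + ∑ m ∈ H.support, |((H.coeff m : ℤ) : ℝ)|) * (N : ℝ) ^ H.totalDegree := by
        refine mul_le_mul_of_nonneg_right ?_ (by positivity)
        linarith

/-- Zeros of a nonzero polynomial in a box (Schwartz-Zippel; see `ZerosBox.lean` for `n = 3`). -/
theorem zeros_le {n : ℕ} (H : MvPolynomial (Fin (n + 1)) ℤ) (hH : H ≠ 0) : ∃ C : ℝ, 0 < C ∧
    ∀ N : ℕ, 1 ≤ N →
      (((boxn (n + 1) N).filter (fun x => MvPolynomial.eval x H = 0)).card : ℝ) ≤
        C * (N : ℝ) ^ n := by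
  classical
  refine ⟨((H.totalDegree : ℝ) + 1) * 3 ^ n, by positivity, ?_⟩
  intro N hN
  have h := MvPolynomial.schwartz_zippel_totalDegree hH (Icc (-(N : ℤ)) N)
  have hcard : (Icc (-(N : ℤ)) N).card = 2 * N + 1 := by
    rw [Int.card_Icc]
    omega
  rw [hcard] at h
  have hpos : (0 : ℚ≥0) < ((2 * N + 1 : ℕ) : ℚ≥0) := by positivity
  have h2 : ((#{f ∈ Fintype.piFinset fun _ ↦ Icc (-(N : ℤ)) N | MvPolynomial.eval f H = 0} : ℕ) : ℚ≥0)
      ≤ H.totalDegree * ((2 * N + 1 : ℕ) : ℚ≥0) ^ n := by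
    have h3 := (div_le_iff₀ (pow_pos hpos (n + 1))).1 h
    refine h3.trans (le_of_eq ?_)
    rw [pow_succ]
    field_simp
  have h3 : (#{f ∈ Fintype.piFinset fun _ : Fin (n + 1) ↦ Icc (-(N : ℤ)) N | MvPolynomial.eval f H = 0} : ℕ)
      ≤ H.totalDegree * (2 * N + 1) ^ n := by exact_mod_cast h2
  have h4 : (((boxn (n + 1) N).filter (fun x => MvPolynomial.eval x H = 0)).card : ℝ) ≤
      H.totalDegree * (2 * N + 1) ^ n := by
    exact_mod_cast h3
  have hN1 : (1 : ℝ) ≤ N := by exact_mod_cast hN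
  calc (((boxn (n + 1) N).filter (fun x => MvPolynomial.eval x H = 0)).card : ℝ)
      ≤ H.totalDegree * (2 * N + 1) ^ n := h4
    _ ≤ ((H.totalDegree : ℝ) + 1) * (3 * N) ^ n := by
        refine mul_le_mul (by linarith) (pow_le_pow_left₀ (by positivity) (by linarith) _)
          (by positivity) (by positivity)
    _ = _ := by rw [mul_pow]; ring

private lemma m_split (n N : ℕ) (F : (Fin (n + 1) → ℤ) → ℝ) :
    ∑ x ∈ boxn (n + 1) N, F x
      = ∑ x' ∈ boxn n N, ∑ x₀ ∈ Icc (-(N : ℤ)) N, F (Fin.cons x₀ x' : Fin (n + 1) → ℤ) := by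
  rw [← Finset.sum_product' (boxn n N) (Icc (-(N : ℤ)) N)
    (fun x' x₀ => F (Fin.cons x₀ x' : Fin (n + 1) → ℤ))]
  refine Finset.sum_nbij' (fun x => (Fin.tail x, x 0)) (fun p => Fin.cons p.2 p.1) ?_ ?_ ?_ ?_ ?_
  · intro x hx
    rw [boxn, Fintype.mem_piFinset] at hx
    rw [Finset.mem_product, boxn, Fintype.mem_piFinset]
    exact ⟨fun i => hx i.succ, hx 0⟩
  · intro p hp
    rw [Finset.mem_product, boxn, Fintype.mem_piFinset] at hp
    rw [boxn, Fintype.mem_piFinset]
    intro i
    refine Fin.cases ?_ (fun i => ?_) i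
    · simpa using hp.2
    · simpa using hp.1 i
  · intro x _
    simp
  · intro p _
    simp
  · intro x _
    simp

/-- Moments of the divisor function at polynomial values. Induction on `n`: for
`x = (x₀, x')`, `H(·, x')` is the polynomial with coefficients `c_j(x')`
(`MvPolynomial.finSuccEquiv`, `MvPolynomial.eval_eq_eval_mv_eval'`), `= g h₀` with `g` the content
and `h₀` primitive (if `H(·, x') ≠ 0`, which is the case if some `H(x₀, x') ≠ 0`);
`τ(H(x)) ≤ τ(g) τ(h₀(x₀))`; `g` divides some `c_j(x') ≠ 0`, so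
`τ(g)^A ≤ ∑_j [c_j(x') ≠ 0] τ(c_j(x'))^A`; `one_var` for `h₀` (`|h₀(x₀)| ≤ |H(x)|`), then the
induction hypothesis for each nonzero coefficient `c_j`. `n = 0`: a constant. -/
theorem multi_var (n : ℕ) (H : MvPolynomial (Fin n) ℤ) (hH : H ≠ 0) (A : ℕ) :
    ∃ (c : ℕ) (C : ℝ), 0 < C ∧ ∀ N : ℕ, 3 ≤ N →
    ∑ x ∈ (boxn n N).filter (fun x => MvPolynomial.eval x H ≠ 0),
      (tau (MvPolynomial.eval x H).natAbs : ℝ) ^ A ≤ C * (N : ℝ) ^ n * (log N) ^ c := by
  classical
  induction n with
  | zero =>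
    refine ⟨0, (tau (MvPolynomial.eval default H).natAbs : ℝ) ^ A + 1, by positivity, ?_⟩
    intro N _
    have h1 : ∀ x ∈ (boxn 0 N).filter (fun x => MvPolynomial.eval x H ≠ 0),
        (tau (MvPolynomial.eval x H).natAbs : ℝ) ^ A
          ≤ (tau (MvPolynomial.eval default H).natAbs : ℝ) ^ A + 1 := by
      intro x _
      rw [Subsingleton.elim x default]
      linarith
    have h2 := Finset.sum_le_sum h1
    rw [Finset.sum_const, nsmul_eq_mul] at h2
    have h3 : ((((boxn 0 N).filter (fun x => MvPolynomial.eval x H ≠ 0)).card : ℕ) : ℝ) ≤ 1 := by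
      exact_mod_cast Finset.card_le_one_of_subsingleton _
    rw [pow_zero, pow_zero, mul_one, mul_one]
    refine h2.trans ?_
    calc _ ≤ 1 * ((tau (MvPolynomial.eval default H).natAbs : ℝ) ^ A + 1) :=
          mul_le_mul_of_nonneg_right h3 (by positivity)
      _ = _ := one_mul _
  | succ n ih =>
    set f := MvPolynomial.finSuccEquiv ℤ n H with hf
    have hf0 : f ≠ 0 := by
      intro h
      apply hH
      have := (MvPolynomial.finSuccEquiv ℤ n).injective (a₁ := H) (a₂ := 0)
      exact this (by rw [map_zero]; exact h)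
    obtain ⟨E, C₁, hC₁, hE⟩ := eval_le H
    obtain ⟨c, C, hC, hone⟩ := one_var (f.natDegree + 1) A E C₁ (by omega)
    -- the coefficients
    have hcoef : ∀ j, ∃ (cj : ℕ) (Cj : ℝ), 0 < Cj ∧ ∀ N : ℕ, 3 ≤ N →
        ∑ x ∈ (boxn n N).filter (fun x => MvPolynomial.eval x (f.coeff j) ≠ 0),
        (tau (MvPolynomial.eval x (f.coeff j)).natAbs : ℝ) ^ A ≤ Cj * (N : ℝ) ^ n * (log N) ^ cj := by
      intro j
      by_cases hj : f.coeff j = 0
      · refine ⟨0, 1, one_pos, fun N _ => ?_⟩
        rw [hj]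
        simp
      · exact ih (f.coeff j) hj
    choose cj Cj hCj hcoefj using hcoef
    refine ⟨c + ∑ j ∈ range (f.natDegree + 1), cj j, C * ∑ j ∈ range (f.natDegree + 1), Cj j,
      mul_pos hC (Finset.sum_pos (fun j _ => hCj j) (by simp)), ?_⟩
    intro N hN
    have hN3 : (3 : ℝ) ≤ N := by exact_mod_cast hN
    have hN0 : (0 : ℝ) < N := by linarith
    have hlog : 1 ≤ log N := by
      rw [Real.le_log_iff_exp_le (by positivity)]
      exact (Real.exp_one_lt_d9.le.trans (by norm_num)).trans hN3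
    rw [Finset.sum_filter, m_split]
    have hin : ∀ x' ∈ boxn n N, ∑ x₀ ∈ Icc (-(N : ℤ)) N,
        (if MvPolynomial.eval (Fin.cons x₀ x' : Fin (n + 1) → ℤ) H ≠ 0 then
          (tau (MvPolynomial.eval (Fin.cons x₀ x' : Fin (n + 1) → ℤ) H).natAbs : ℝ) ^ A else 0)
        ≤ (C * N * (log N) ^ c) * ∑ j ∈ range (f.natDegree + 1),
          (if MvPolynomial.eval x' (f.coeff j) ≠ 0 then
            (tau (MvPolynomial.eval x' (f.coeff j)).natAbs : ℝ) ^ A else 0) := by
      intro x' hx'
      set h : Polynomial ℤ := f.map (MvPolynomial.eval x') with hh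
      have hev : ∀ x₀ : ℤ, MvPolynomial.eval (Fin.cons x₀ x' : Fin (n + 1) → ℤ) H = h.eval x₀ :=
        fun x₀ => MvPolynomial.eval_eq_eval_mv_eval' x' x₀ H
      simp only [hev]
      have hterm : ∀ j, 0 ≤ (if MvPolynomial.eval x' (f.coeff j) ≠ 0 then
            (tau (MvPolynomial.eval x' (f.coeff j)).natAbs : ℝ) ^ A else 0) := by
        intro j
        split_ifs
        · positivity
        · exact le_rfl
      by_cases h0 : h = 0
      · rw [h0]
        simp only [Polynomial.eval_zero, ne_eq, not_true_eq_false, if_false, Finset.sum_const_zero]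
        refine mul_nonneg (by positivity) (Finset.sum_nonneg fun j _ => hterm j)
      set g := h.content with hg
      set h₀ := h.primPart with hh₀
      have hfac : ∀ x₀ : ℤ, h.eval x₀ = g * h₀.eval x₀ := by
        intro x₀
        conv_lhs => rw [h.eq_C_content_mul_primPart]
        rw [Polynomial.eval_mul, Polynomial.eval_C]
      have hg0 : g ≠ 0 := by
        rw [hg, Ne, Polynomial.content_eq_zero_iff]
        exact h0
      have hdeg : h₀.natDegree ≤ f.natDegree + 1 := by
        rw [hh₀, Polynomial.natDegree_primPart]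
        exact (Polynomial.natDegree_map_le).trans (Nat.le_succ _)
      have hb : ∀ x₀ : ℤ, |x₀| ≤ N → |((h₀.eval x₀ : ℤ) : ℝ)| ≤ C₁ * (N : ℝ) ^ E := by
        intro x₀ hx₀
        have h1 := hE N (by omega) (Fin.cons x₀ x') (by
          rw [boxn, Fintype.mem_piFinset]
          rw [boxn, Fintype.mem_piFinset] at hx'
          intro i
          refine Fin.cases ?_ (fun i => ?_) i
          · simpa using abs_le.1 hx₀
          · simpa using hx' i)
        rw [hev, hfac] at h1
        refine le_trans ?_ h1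
        push_cast
        rw [abs_mul]
        have h2 : (1 : ℝ) ≤ |((g : ℤ) : ℝ)| := by
          have : 1 ≤ |g| := Int.one_le_abs hg0
          exact_mod_cast this
        exact le_mul_of_one_le_left (abs_nonneg _) h2
      have h1 := hone h₀ hdeg h.isPrimitive_primPart N hN hb
      -- the content
      obtain ⟨j, hj, hj0⟩ : ∃ j ∈ range (f.natDegree + 1), MvPolynomial.eval x' (f.coeff j) ≠ 0 := by
        by_contra hcon
        push Not at hcon
        apply h0
        ext j
        rw [hh, Polynomial.coeff_map, Polynomial.coeff_zero]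
        by_cases hj : j ∈ range (f.natDegree + 1)
        · exact hcon j hj
        · rw [Finset.mem_range, not_lt] at hj
          rw [Polynomial.coeff_eq_zero_of_natDegree_lt (by omega), map_zero]
      have hgd : g ∣ MvPolynomial.eval x' (f.coeff j) := by
        have := h.content_dvd_coeff j
        rwa [hh, Polynomial.coeff_map] at this
      have htau : (tau g.natAbs : ℝ) ^ A ≤ ∑ j ∈ range (f.natDegree + 1),
          (if MvPolynomial.eval x' (f.coeff j) ≠ 0 then
            (tau (MvPolynomial.eval x' (f.coeff j)).natAbs : ℝ) ^ A else 0) := by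
        have h2 : (tau g.natAbs : ℝ) ^ A ≤
            (tau (MvPolynomial.eval x' (f.coeff j)).natAbs : ℝ) ^ A := by
          refine pow_le_pow_left₀ (by positivity) ?_ A
          exact_mod_cast tau_le_of_dvd (Int.natAbs_dvd_natAbs.2 hgd) (Int.natAbs_ne_zero.2 hj0)
        have h3 := Finset.single_le_sum (s := range (f.natDegree + 1)) (f := fun j =>
          (if MvPolynomial.eval x' (f.coeff j) ≠ 0 then
            (tau (MvPolynomial.eval x' (f.coeff j)).natAbs : ℝ) ^ A else 0))
          (fun j _ => hterm j) hj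
        simp only [if_pos hj0] at h3
        exact h2.trans h3
      calc ∑ x₀ ∈ Icc (-(N : ℤ)) N, (if h.eval x₀ ≠ 0 then (tau (h.eval x₀).natAbs : ℝ) ^ A else 0)
          ≤ ∑ x₀ ∈ Icc (-(N : ℤ)) N, (tau g.natAbs : ℝ) ^ A *
              (if h₀.eval x₀ ≠ 0 then (tau (h₀.eval x₀).natAbs : ℝ) ^ A else 0) := by
            refine Finset.sum_le_sum fun x₀ _ => ?_
            by_cases hx : h₀.eval x₀ = 0
            · rw [if_neg (by rw [hfac, hx, mul_zero]; simp), if_neg (by simp [hx])]
              simp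
            · rw [if_pos (by rw [hfac]; exact mul_ne_zero hg0 hx), if_pos hx, ← mul_pow]
              refine pow_le_pow_left₀ (by positivity) ?_ A
              rw [hfac, Int.natAbs_mul]
              exact_mod_cast tau_mul_le _ _
        _ = (tau g.natAbs : ℝ) ^ A * ∑ x₀ ∈ (Icc (-(N : ℤ)) N).filter (fun x => h₀.eval x ≠ 0),
              (tau (h₀.eval x₀).natAbs : ℝ) ^ A := by
            rw [← Finset.mul_sum, Finset.sum_filter]
        _ ≤ (tau g.natAbs : ℝ) ^ A * (C * N * (log N) ^ c) :=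
            mul_le_mul_of_nonneg_left h1 (by positivity)
        _ = (C * N * (log N) ^ c) * (tau g.natAbs : ℝ) ^ A := mul_comm _ _
        _ ≤ _ := mul_le_mul_of_nonneg_left htau (by positivity)
    refine (Finset.sum_le_sum hin).trans ?_
    rw [← Finset.mul_sum, Finset.sum_comm]
    have hs : ∑ j ∈ range (f.natDegree + 1), ∑ x' ∈ boxn n N,
        (if MvPolynomial.eval x' (f.coeff j) ≠ 0 then
            (tau (MvPolynomial.eval x' (f.coeff j)).natAbs : ℝ) ^ A else 0)
        ≤ ∑ j ∈ range (f.natDegree + 1), Cj j * ((N : ℝ) ^ n *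
          (log N) ^ (∑ j ∈ range (f.natDegree + 1), cj j)) := by
      refine Finset.sum_le_sum fun j hj => ?_
      rw [← Finset.sum_filter]
      refine (hcoefj j N hN).trans ?_
      rw [mul_assoc]
      refine mul_le_mul_of_nonneg_left (mul_le_mul_of_nonneg_left ?_ (by positivity)) (hCj j).le
      exact pow_le_pow_right₀ hlog (Finset.single_le_sum (fun _ _ => Nat.zero_le _) hj)
    calc (C * N * (log N) ^ c) * ∑ j ∈ range (f.natDegree + 1), ∑ x' ∈ boxn n N,
        (if MvPolynomial.eval x' (f.coeff j) ≠ 0 then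
            (tau (MvPolynomial.eval x' (f.coeff j)).natAbs : ℝ) ^ A else 0)
        ≤ (C * N * (log N) ^ c) * ∑ j ∈ range (f.natDegree + 1), Cj j * ((N : ℝ) ^ n *
          (log N) ^ (∑ j ∈ range (f.natDegree + 1), cj j)) :=
          mul_le_mul_of_nonneg_left hs (by positivity)
      _ = _ := by
          rw [← Finset.sum_mul, pow_succ, pow_add]
          ring

end Pool.MP_aab329_nt.SerreQ
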