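import Mathlib

/-!
Elimination of one variable from two coprime polynomials.
-/

set_option autoImplicit false

namespace Pool.MP_aab329_nt.SerreQ

open Polynomial

/-- Gauss: two relatively prime polynomials are coprime over the fraction field. -/
private lemma gauss_rel {R K : Type*} [CommRing R] [IsDomain R] [UniqueFactorizationMonoid R]
    [Field K] [Algebra R K] [IsFractionRing R K] {f g : R[X]} (hf : f ≠ 0) (h : IsRelPrime f g) :
    IsCoprime (f.map (algebraMap R K)) (g.map (algebraMap R K)) := by
  classical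
  have hinj : Function.Injective (algebraMap R K) := IsFractionRing.injective R K
  let _ : NormalizedGCDMonoid R := Nonempty.some inferInstance
  set d := EuclideanDomain.gcd (f.map (algebraMap R K)) (g.map (algebraMap R K)) with hd
  have hd1 : d ∣ f.map (algebraMap R K) := EuclideanDomain.gcd_dvd_left _ _
  have hd2 : d ∣ g.map (algebraMap R K) := EuclideanDomain.gcd_dvd_right _ _
  have hf0 : f.map (algebraMap R K) ≠ 0 := by
    rwa [Ne, Polynomial.map_eq_zero_iff hinj]
  have hd0 : d ≠ 0 := fun h0 => hf0 (by rw [h0] at hd1; exact zero_dvd_iff.mp hd1)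
  set e := (IsLocalization.integerNormalization (nonZeroDivisors R) d) with he
  obtain ⟨b, hb, hbe⟩ := IsLocalization.integerNormalization_spec (nonZeroDivisors R) d
  have hprim : e.primPart.IsPrimitive := e.isPrimitive_primPart
  have hb0 : algebraMap R K b ≠ 0 := by
    rw [Ne, map_eq_zero_iff _ hinj]
    exact nonZeroDivisors.ne_zero hb
  have h1 : e.primPart.map (algebraMap R K) ∣ d := by
    have h2 : e.primPart.map (algebraMap R K) ∣ e.map (algebraMap R K) :=
      Polynomial.map_dvd _ (Polynomial.primPart_dvd e)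
    have h3 : e.map (algebraMap R K) = C (algebraMap R K b) * d := by
      rw [he, hbe, Algebra.smul_def]
      rfl
    rw [h3] at h2
    have hu : IsUnit (C (algebraMap R K b)) := by
      apply IsUnit.map
      exact isUnit_iff_ne_zero.mpr hb0
    exact hu.dvd_mul_left.mp h2
  have h4 : e.primPart ∣ f := hprim.dvd_of_fraction_map_dvd_fraction_map (h1.trans hd1)
  have h5 : e.primPart ∣ g := hprim.dvd_of_fraction_map_dvd_fraction_map (h1.trans hd2)
  have hu : IsUnit e.primPart := h h4 h5
  rw [← EuclideanDomain.gcd_isUnit_iff, ← hd]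
  exact isUnit_or_eq_zero_of_isUnit_integerNormalization_primPart hd0 hu

private lemma fse_map {n : ℕ} {R S : Type*} [CommRing R] [CommRing S] (φ : R →+* S)
    (F : MvPolynomial (Fin (n + 1)) R) :
    MvPolynomial.finSuccEquiv S n (MvPolynomial.map φ F) =
      (MvPolynomial.finSuccEquiv R n F).map (MvPolynomial.map φ) := by
  have h : ((MvPolynomial.finSuccEquiv S n :
        MvPolynomial (Fin (n + 1)) S →+* (MvPolynomial (Fin n) S)[X]).comp
      (MvPolynomial.map φ)) = (Polynomial.mapRingHom (MvPolynomial.map φ)).comp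
      (MvPolynomial.finSuccEquiv R n :
        MvPolynomial (Fin (n + 1)) R →+* (MvPolynomial (Fin n) R)[X]) := by
    apply MvPolynomial.ringHom_ext
    · intro r; simp [MvPolynomial.finSuccEquiv_apply]
    · intro i
      refine Fin.cases ?_ (fun j => ?_) i
      · simp [MvPolynomial.finSuccEquiv_X_zero]
      · simp [MvPolynomial.finSuccEquiv_X_succ]
  exact congrArg (fun g => g F) h

private lemma fse_rename {n : ℕ} {R : Type*} [CommRing R] (r : MvPolynomial (Fin n) R) :
    MvPolynomial.finSuccEquiv R n (MvPolynomial.rename Fin.succ r) = C r := by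
  have h : ((MvPolynomial.finSuccEquiv R n :
        MvPolynomial (Fin (n + 1)) R →+* (MvPolynomial (Fin n) R)[X]).comp
      ((MvPolynomial.rename Fin.succ : MvPolynomial (Fin n) R →ₐ[R] _) :
        MvPolynomial (Fin n) R →+* MvPolynomial (Fin (n + 1)) R)) =
      (C : MvPolynomial (Fin n) R →+* (MvPolynomial (Fin n) R)[X]) := by
    apply MvPolynomial.ringHom_ext
    · intro a; simp [MvPolynomial.finSuccEquiv_apply]
    · intro i; simp [MvPolynomial.finSuccEquiv_X_succ]
  exact congrArg (fun g => g r) h

/-- The map of coefficients to a field. -/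
private noncomputable def io (n : ℕ) :
    MvPolynomial (Fin n) ℤ →+* FractionRing (MvPolynomial (Fin n) ℚ) :=
  (algebraMap (MvPolynomial (Fin n) ℚ) (FractionRing (MvPolynomial (Fin n) ℚ))).comp
    (MvPolynomial.map (Int.castRingHom ℚ))

private lemma io_inj (n : ℕ) : Function.Injective (io n) :=
  (IsFractionRing.injective _ _).comp
    (MvPolynomial.map_injective _ (RingHom.injective_int (Int.castRingHom ℚ)))

/-- Coprime polynomials over `ℚ` in `x₀, x'` are coprime in `ℚ(x')[x₀]` (Gauss lemma), so some
nonzero `R(x')` is a combination of them; clear denominators. See also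
`Lib/MP_aab329_nt/R/Elim.lean` (`elim_form`, same kind of argument for three variables). -/
theorem elim_poly {n : ℕ} (F G : MvPolynomial (Fin (n + 1)) ℤ) (hF : F ≠ 0) (hG : G ≠ 0)
    (hco : IsRelPrime (MvPolynomial.map (Int.castRingHom ℚ) F)
      (MvPolynomial.map (Int.castRingHom ℚ) G)) :
    ∃ (U V : MvPolynomial (Fin (n + 1)) ℤ) (R : MvPolynomial (Fin n) ℤ), R ≠ 0 ∧
      U * F + V * G = MvPolynomial.rename Fin.succ R := by
  set f := MvPolynomial.finSuccEquiv ℤ n F with hf
  set g := MvPolynomial.finSuccEquiv ℤ n G with hg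
  have hf0 : f ≠ 0 := by
    rw [hf, Ne, map_eq_zero_iff _ (MvPolynomial.finSuccEquiv ℤ n).injective]; exact hF
  set f' := MvPolynomial.finSuccEquiv ℚ n (MvPolynomial.map (Int.castRingHom ℚ) F) with hf'
  set g' := MvPolynomial.finSuccEquiv ℚ n (MvPolynomial.map (Int.castRingHom ℚ) G) with hg'
  have hF' : MvPolynomial.map (Int.castRingHom ℚ) F ≠ 0 := by
    rw [Ne, map_eq_zero_iff _
      (MvPolynomial.map_injective _ (RingHom.injective_int (Int.castRingHom ℚ)))]
    exact hF
  have hf'0 : f' ≠ 0 := by
    rw [hf', Ne, map_eq_zero_iff _ (MvPolynomial.finSuccEquiv ℚ n).injective]; exact hF'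
  have hrel : IsRelPrime f' g' := by
    intro d hd1 hd2
    obtain ⟨d', rfl⟩ := (MvPolynomial.finSuccEquiv ℚ n).surjective d
    have h1 : d' ∣ MvPolynomial.map (Int.castRingHom ℚ) F := by
      have := map_dvd (MvPolynomial.finSuccEquiv ℚ n).symm hd1
      simpa [hf'] using this
    have h2 : d' ∣ MvPolynomial.map (Int.castRingHom ℚ) G := by
      have := map_dvd (MvPolynomial.finSuccEquiv ℚ n).symm hd2
      simpa [hg'] using this
    exact (hco h1 h2).map (MvPolynomial.finSuccEquiv ℚ n)
  have hcop : IsCoprime (f.map (io n)) (g.map (io n)) := by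
    have h1 := gauss_rel (K := FractionRing (MvPolynomial (Fin n) ℚ)) hf'0 hrel
    rw [hf', hg', fse_map, fse_map, Polynomial.map_map, Polynomial.map_map] at h1
    exact h1
  have hres : resultant f g f.natDegree (g.natDegree + 1) ≠ 0 := by
    intro h0
    have h1 := congrArg (io n) h0
    rw [← resultant_map_map, map_zero, resultant_add_right_deg] at h1
    · rw [pow_one, mul_eq_zero] at h1
      rcases h1 with h1 | h1
      · rw [Polynomial.coeff_map, map_eq_zero_iff (io n) (io_inj n)] at h1
        exact hf0 (Polynomial.leadingCoeff_eq_zero.mp h1)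
      · have h2 := resultant_ne_zero _ _ hcop
        rw [Polynomial.natDegree_map_eq_of_injective (io_inj n),
          Polynomial.natDegree_map_eq_of_injective (io_inj n)] at h2
        exact h2 h1
    · exact Polynomial.natDegree_map_le
  obtain ⟨p, q, -, -, h⟩ := exists_mul_add_mul_eq_C_resultant f g
    (m := f.natDegree) (n := g.natDegree + 1) le_rfl (Nat.le_succ _)
    (Or.inr (Nat.succ_ne_zero _))
  refine ⟨(MvPolynomial.finSuccEquiv ℤ n).symm p, (MvPolynomial.finSuccEquiv ℤ n).symm q, _,
    hres, ?_⟩
  apply (MvPolynomial.finSuccEquiv ℤ n).injective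
  rw [map_add, map_mul, map_mul, AlgEquiv.apply_symm_apply, AlgEquiv.apply_symm_apply,
    ← hf, ← hg, mul_comm p, mul_comm q, h, fse_rename]

end Pool.MP_aab329_nt.SerreQ
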