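import Pool.Agent.Lib.MP_aab329_nt.Q.Main
import Pool.Agent.Lib.MP_aab329_nt.Q.ElimQ

/-!
Serre's bound for double covers whose branch divisor has a part quadratic in one form.
-/

set_option autoImplicit false

namespace Pool.MP_aab329_nt.SerreQ

open Finset Real

private lemma clear_denQ {σ : Type*} (F : MvPolynomial σ ℚ) :
    ∃ (N : ℤ) (G : MvPolynomial σ ℤ), N ≠ 0 ∧
      MvPolynomial.map (Int.castRingHom ℚ) G = MvPolynomial.C (N : ℚ) * F := by
  induction F using MvPolynomial.induction_on' with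
  | monomial u a =>
    refine ⟨(a.den : ℤ), MvPolynomial.monomial u a.num, by exact_mod_cast a.den_nz, ?_⟩
    rw [MvPolynomial.map_monomial, MvPolynomial.C_mul_monomial]
    congr 1
    simp only [eq_intCast, Int.cast_natCast]
    rw [mul_comm]
    exact (Rat.mul_den_eq_num a).symm
  | add p q hp hq =>
    obtain ⟨N1, G1, h1, e1⟩ := hp
    obtain ⟨N2, G2, h2, e2⟩ := hq
    refine ⟨N1 * N2, MvPolynomial.C N2 * G1 + MvPolynomial.C N1 * G2, mul_ne_zero h1 h2, ?_⟩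
    rw [map_add, map_mul, map_mul, e1, e2, MvPolynomial.map_C, MvPolynomial.map_C]
    push_cast
    simp only [map_mul, eq_intCast]
    ring

private lemma clear_sqQ {σ : Type*} (F : MvPolynomial σ ℚ) :
    ∃ (N : ℤ) (G : MvPolynomial σ ℤ), N ≠ 0 ∧
      MvPolynomial.map (Int.castRingHom ℚ) G = MvPolynomial.C ((N : ℚ) ^ 2) * F := by
  obtain ⟨N, G, hN, hG⟩ := clear_denQ F
  refine ⟨N, MvPolynomial.C N * G, hN, ?_⟩
  rw [map_mul, hG, MvPolynomial.map_C, pow_two, map_mul]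
  simp only [eq_intCast]
  ring

private lemma ne_of_mapQ {σ : Type*} {F : MvPolynomial σ ℚ} {G : MvPolynomial σ ℤ} {r : ℚ}
    (hr : r ≠ 0) (hF : F ≠ 0)
    (h : MvPolynomial.map (Int.castRingHom ℚ) G = MvPolynomial.C r * F) : G ≠ 0 := by
  intro h0
  rw [h0, map_zero] at h
  rcases mul_eq_zero.mp h.symm with h1 | h1
  · exact hr (by simpa using h1)
  · exact hF h1

private lemma degreeOf_mapQ {σ : Type*} {F : MvPolynomial σ ℚ} {G : MvPolynomial σ ℤ} {r : ℚ}
    (hr : r ≠ 0) (h : MvPolynomial.map (Int.castRingHom ℚ) G = MvPolynomial.C r * F) (i : σ) :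
    G.degreeOf i = F.degreeOf i := by
  classical
  have hs : G.support = F.support := by
    ext m
    rw [MvPolynomial.mem_support_iff, MvPolynomial.mem_support_iff]
    have h1 := congrArg (MvPolynomial.coeff m) h
    rw [MvPolynomial.coeff_map, MvPolynomial.coeff_C_mul, eq_intCast] at h1
    constructor
    · intro h2 h3
      rw [h3, mul_zero] at h1
      exact h2 (by exact_mod_cast h1)
    · intro h2 h3
      rw [h3, Int.cast_zero] at h1
      rcases mul_eq_zero.mp h1.symm with h4 | h4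
      · exact hr h4
      · exact h2 h4
  rw [MvPolynomial.degreeOf_eq_sup, MvPolynomial.degreeOf_eq_sup, hs]

private lemma eval_map_intQ {m : ℕ} (G : MvPolynomial (Fin m) ℤ) (x : Fin m → ℤ) :
    MvPolynomial.eval (fun j => ((x j : ℤ) : ℚ)) (MvPolynomial.map (Int.castRingHom ℚ) G) =
      ((MvPolynomial.eval x G : ℤ) : ℚ) := by
  have h : (MvPolynomial.eval (fun j => ((x j : ℤ) : ℚ))).comp
      (MvPolynomial.map (Int.castRingHom ℚ)) = (Int.castRingHom ℚ).comp (MvPolynomial.eval x) := by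
    apply MvPolynomial.ringHom_ext
    · intro r; simp
    · intro i; simp
  have := congrArg (fun g : MvPolynomial (Fin m) ℤ →+* ℚ => g G) h
  simpa using this

private lemma mem_boxnQ {m B : ℕ} (x : Fin m → ℤ) : x ∈ boxn m B ↔ ∀ i, |x i| ≤ (B : ℤ) := by
  unfold boxn
  rw [Fintype.mem_piFinset]
  constructor
  · intro h i
    rw [abs_le]
    exact mem_Icc.1 (h i)
  · intro h i
    exact mem_Icc.2 (abs_le.1 (h i))

/-- Proof: as `Lib/MP_aab329_nt/R/Fin.lean` (discriminant of a quadratic polynomial, zeros of `P`,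
`B = 2` by a constant): `(2 α t + β)^2 = disc`. Clear denominators: `A = A' / N₀` with `A'`
integral, `m^2 (a A^2 + b A + d) = (m^2 a / N₀^2) A'^2 + (m^2 b / N₀) A' + m^2 d` with integral
coefficients; multiply `G` by a square too. `IsRelPrime` is not affected (units), `elim_poly`, then
`main_q`. -/
theorem serre_q {n : ℕ} (F : MvPolynomial (Option (Fin (n + 1))) ℚ) (hdeg : F.degreeOf none = 2)
    (A G P : MvPolynomial (Fin (n + 1)) ℚ) (a b d : MvPolynomial (Fin n) ℚ)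
    (hA : 1 ≤ A.degreeOf 0) (ha : a ≠ 0) (hΔ : b ^ 2 - 4 * a * d ≠ 0) (hG : G ≠ 0) (hP : P ≠ 0)
    (hco : IsRelPrime (quadA A a b d) G)
    (hdisc : (MvPolynomial.optionEquivLeft ℚ (Fin (n + 1)) F).discr =
      quadA A a b d * G * P ^ 2) :
    ∃ (c : ℕ) (C : ℝ), ∀ B : ℕ, 2 ≤ B →
      (({x : Fin (n + 1) → ℤ | (∀ i, |x i| ≤ (B : ℤ)) ∧
          ∃ t : ℚ, MvPolynomial.eval
            (fun i : Option (Fin (n + 1)) => Option.elim i t (fun j => ((x j : ℤ) : ℚ))) F =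
              0}.ncard : ℕ) : ℝ)
        ≤ C * (B : ℝ) ^ n * (log (B : ℝ)) ^ c := by
  obtain ⟨N₀, A', hN₀, eA⟩ := clear_denQ A
  obtain ⟨Na, a₁, hNa, ea⟩ := clear_denQ a
  obtain ⟨Nb, b₁, hNb, eb⟩ := clear_denQ b
  obtain ⟨Nd, d₁, hNd, ed⟩ := clear_denQ d
  obtain ⟨N₂, G', hN₂, eG⟩ := clear_sqQ G
  obtain ⟨N₃, P', hN₃, e₃⟩ := clear_denQ P
  have hN0Q : (N₀ : ℚ) ≠ 0 := by exact_mod_cast hN₀
  have hNaQ : (Na : ℚ) ≠ 0 := by exact_mod_cast hNa
  have hNbQ : (Nb : ℚ) ≠ 0 := by exact_mod_cast hNb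
  have hNdQ : (Nd : ℚ) ≠ 0 := by exact_mod_cast hNd
  have hN2Q : (N₂ : ℚ) ≠ 0 := by exact_mod_cast hN₂
  have hN3Q : (N₃ : ℚ) ≠ 0 := by exact_mod_cast hN₃
  have hP' : P' ≠ 0 := ne_of_mapQ hN3Q hP e₃
  have hG' : G' ≠ 0 := ne_of_mapQ (pow_ne_zero 2 hN2Q) hG eG
  have hA' : 1 ≤ A'.degreeOf 0 := by rw [degreeOf_mapQ hN0Q eA]; exact hA
  obtain ⟨α, hα⟩ : ∃ α, α = MvPolynomial.C (Na * Nb ^ 2 * Nd ^ 2) * a₁ := ⟨_, rfl⟩
  obtain ⟨β, hβ⟩ : ∃ β, β = MvPolynomial.C (N₀ * Na ^ 2 * Nb * Nd ^ 2) * b₁ := ⟨_, rfl⟩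
  obtain ⟨γ, hγ⟩ : ∃ γ, γ = MvPolynomial.C (N₀ ^ 2 * Na ^ 2 * Nb ^ 2 * Nd) * d₁ := ⟨_, rfl⟩
  have mα : MvPolynomial.map (Int.castRingHom ℚ) α =
      MvPolynomial.C (((Na : ℚ) * Nb * Nd) ^ 2) * a := by
    rw [hα, map_mul, MvPolynomial.map_C, ea, ← mul_assoc, ← map_mul]
    congr 2
    simp only [eq_intCast]
    push_cast
    ring
  have mβ : MvPolynomial.map (Int.castRingHom ℚ) β =
      MvPolynomial.C ((N₀ : ℚ) * ((Na : ℚ) * Nb * Nd) ^ 2) * b := by
    rw [hβ, map_mul, MvPolynomial.map_C, eb, ← mul_assoc, ← map_mul]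
    congr 2
    simp only [eq_intCast]
    push_cast
    ring
  have mγ : MvPolynomial.map (Int.castRingHom ℚ) γ =
      MvPolynomial.C ((N₀ : ℚ) ^ 2 * ((Na : ℚ) * Nb * Nd) ^ 2) * d := by
    rw [hγ, map_mul, MvPolynomial.map_C, ed, ← mul_assoc, ← map_mul]
    congr 2
    simp only [eq_intCast]
    push_cast
    ring
  have hM : (Na : ℚ) * Nb * Nd ≠ 0 := mul_ne_zero (mul_ne_zero hNaQ hNbQ) hNdQ
  have hα0 : α ≠ 0 := ne_of_mapQ (pow_ne_zero 2 hM) ha mα
  have hΔ' : β ^ 2 - 4 * α * γ ≠ 0 := by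
    have h1 : MvPolynomial.map (Int.castRingHom ℚ) (β ^ 2 - 4 * α * γ) =
        MvPolynomial.C ((N₀ : ℚ) ^ 2 * ((Na : ℚ) * Nb * Nd) ^ 4) * (b ^ 2 - 4 * a * d) := by
      have h4 : MvPolynomial.map (Int.castRingHom ℚ) (4 : MvPolynomial (Fin n) ℤ) = 4 :=
        map_ofNat _ 4
      rw [map_sub, map_pow, map_mul, map_mul, h4, mα, mβ, mγ]
      simp only [map_mul, map_pow]
      ring
    exact ne_of_mapQ (mul_ne_zero (pow_ne_zero 2 hN0Q) (pow_ne_zero 4 hM)) hΔ h1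
  have hren : ∀ q : MvPolynomial (Fin n) ℤ, MvPolynomial.map (Int.castRingHom ℚ)
      (MvPolynomial.rename Fin.succ q) =
      MvPolynomial.rename Fin.succ (MvPolynomial.map (Int.castRingHom ℚ) q) :=
    fun q => MvPolynomial.map_rename _ _ _
  have mQ : MvPolynomial.map (Int.castRingHom ℚ) (quadA A' α β γ) =
      MvPolynomial.C (((N₀ : ℚ) * (Na * Nb * Nd)) ^ 2) * quadA A a b d := by
    unfold quadA
    rw [map_add, map_add, map_mul, map_mul, map_pow, hren, hren, hren, mα, mβ, mγ, eA]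
    simp only [map_mul, map_pow, MvPolynomial.rename_C]
    ring
  have hK0 : (N₀ : ℚ) * (Na * Nb * Nd) ≠ 0 := mul_ne_zero hN0Q hM
  have hunit : ∀ r : ℚ, r ≠ 0 → IsUnit (MvPolynomial.C r : MvPolynomial (Fin (n + 1)) ℚ) :=
    fun r hr => IsUnit.map _ (IsUnit.mk0 r hr)
  have hco' : IsRelPrime (MvPolynomial.map (Int.castRingHom ℚ) (quadA A' α β γ))
      (MvPolynomial.map (Int.castRingHom ℚ) G') := by
    rw [mQ, eG]
    intro e hd1 hd2
    apply hco
    · exact ((hunit _ (pow_ne_zero 2 hK0)).dvd_mul_left).mp hd1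
    · exact ((hunit _ (pow_ne_zero 2 hN2Q)).dvd_mul_left).mp hd2
  obtain ⟨U, V, R, hR, hUV⟩ := elim_poly (quadA A' α β γ) G' (quadA_ne A' α β γ hA' hα0) hG' hco'
  -- the quadratic
  obtain ⟨q, hq⟩ : ∃ q, q = MvPolynomial.optionEquivLeft ℚ (Fin (n + 1)) F := ⟨_, rfl⟩
  have hF0 : F ≠ 0 := by
    intro h0
    rw [h0] at hdeg
    simp at hdeg
  have hdegq : q.degree = 2 := by
    rw [hq, MvPolynomial.degree_optionEquivLeft _ hF0, hdeg]; rfl
  have hnd : q.natDegree = 2 := Polynomial.natDegree_eq_of_degree_eq_some hdegq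
  rw [← hq, Polynomial.discr_of_degree_eq_two hdegq] at hdisc
  have key : ∀ (x : Fin (n + 1) → ℤ) (t : ℚ), MvPolynomial.eval
      (fun i : Option (Fin (n + 1)) => Option.elim i t (fun j => ((x j : ℤ) : ℚ))) F = 0 →
      MvPolynomial.eval x P' = 0 ∨
        IsSquare (MvPolynomial.eval x (quadA A' α β γ) * MvPolynomial.eval x G') := by
    intro x t ht
    rw [MvPolynomial.optionEquivLeft_elim_eval, ← hq] at ht
    obtain ⟨X, hX⟩ : ∃ X : Fin (n + 1) → ℚ, X = fun j => ((x j : ℤ) : ℚ) := ⟨_, rfl⟩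
    rw [← hX] at ht
    have hqe : (Polynomial.map (MvPolynomial.eval X) q).eval t =
        MvPolynomial.eval X (q.coeff 0) + MvPolynomial.eval X (q.coeff 1) * t +
          MvPolynomial.eval X (q.coeff 2) * t ^ 2 := by
      rw [Polynomial.eval_eq_sum_range' (n := 3)
        (lt_of_le_of_lt (Polynomial.natDegree_map_le) (by omega))]
      simp [Finset.sum_range_succ]
    rw [hqe] at ht
    have hd := congrArg (MvPolynomial.eval X) hdisc
    simp only [map_sub, map_mul, map_pow] at hd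
    by_cases hPx : MvPolynomial.eval x P' = 0
    · exact Or.inl hPx
    · right
      have hPX : MvPolynomial.eval X P ≠ 0 := by
        intro h0
        apply hPx
        have h1 := congrArg (MvPolynomial.eval X) e₃
        rw [hX, eval_map_intQ, map_mul, ← hX, h0, mul_zero] at h1
        exact_mod_cast h1
      have hG1 := congrArg (MvPolynomial.eval X) mQ
      have hG2 := congrArg (MvPolynomial.eval X) eG
      rw [hX, eval_map_intQ, map_mul, MvPolynomial.eval_C, ← hX] at hG1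
      rw [hX, eval_map_intQ, map_mul, MvPolynomial.eval_C, ← hX] at hG2
      rw [← Rat.isSquare_intCast_iff]
      push_cast
      rw [hG1, hG2]
      have h4 : MvPolynomial.eval X (4 : MvPolynomial (Fin (n + 1)) ℚ) = 4 :=
        map_ofNat (MvPolynomial.eval X) 4
      rw [h4] at hd
      obtain ⟨W, hW⟩ : ∃ W : ℚ, W = MvPolynomial.eval X (quadA A a b d) := ⟨_, rfl⟩
      rw [← hW] at hd ⊢
      refine ⟨(N₀ * (Na * Nb * Nd)) * N₂ * ((2 * MvPolynomial.eval X (q.coeff 2) * t +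
        MvPolynomial.eval X (q.coeff 1)) / MvPolynomial.eval X P), ?_⟩
      have hsq : W * MvPolynomial.eval X G * MvPolynomial.eval X P ^ 2 =
          (2 * MvPolynomial.eval X (q.coeff 2) * t + MvPolynomial.eval X (q.coeff 1)) ^ 2 := by
        rw [← hd]
        linear_combination (-4 * MvPolynomial.eval X (q.coeff 2)) * ht
      have hsq2 : W * MvPolynomial.eval X G =
          ((2 * MvPolynomial.eval X (q.coeff 2) * t + MvPolynomial.eval X (q.coeff 1)) /
            MvPolynomial.eval X P) ^ 2 := by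
        rw [div_pow, eq_div_iff (pow_ne_zero 2 hPX)]
        exact hsq
      calc ((N₀ : ℚ) * (Na * Nb * Nd)) ^ 2 * W * ((N₂ : ℚ) ^ 2 * MvPolynomial.eval X G)
          = ((N₀ : ℚ) * (Na * Nb * Nd)) ^ 2 * (N₂ : ℚ) ^ 2 * (W * MvPolynomial.eval X G) := by ring
        _ = _ := by rw [hsq2]; ring
  obtain ⟨C1, hC1, h1⟩ := zeros_le P' hP'
  obtain ⟨c, C2, hC2, h2⟩ := main_q A' α β γ G' hA' hα0 hΔ' hG' U V R hR hUV
  refine ⟨c, C1 + C2 + ((boxn (n + 1) 2).card : ℝ) / (log 2) ^ c, ?_⟩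
  intro B hB
  have hlog2 : 0 < log 2 := Real.log_pos (by norm_num)
  rcases Nat.lt_or_ge B 3 with hB3 | hB3
  · have hB2 : B = 2 := by omega
    subst hB2
    have hsub : {x : Fin (n + 1) → ℤ | (∀ i, |x i| ≤ ((2 : ℕ) : ℤ)) ∧
          ∃ t : ℚ, MvPolynomial.eval
            (fun i : Option (Fin (n + 1)) => Option.elim i t (fun j => ((x j : ℤ) : ℚ))) F = 0} ⊆
        ((boxn (n + 1) 2 : Finset (Fin (n + 1) → ℤ)) : Set (Fin (n + 1) → ℤ)) := by
      rintro x ⟨hx1, _⟩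
      exact mem_coe.2 ((mem_boxnQ x).2 hx1)
    have hle := Set.ncard_le_ncard hsub (Finset.finite_toSet _)
    rw [Set.ncard_coe_finset] at hle
    have hleR : (({x : Fin (n + 1) → ℤ | (∀ i, |x i| ≤ ((2 : ℕ) : ℤ)) ∧
          ∃ t : ℚ, MvPolynomial.eval
            (fun i : Option (Fin (n + 1)) => Option.elim i t (fun j => ((x j : ℤ) : ℚ))) F =
              0}.ncard : ℕ) : ℝ) ≤ ((boxn (n + 1) 2).card : ℝ) := by exact_mod_cast hle
    refine hleR.trans ?_
    have hK : (0 : ℝ) ≤ ((boxn (n + 1) 2).card : ℝ) := Nat.cast_nonneg _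
    have h2n : (1 : ℝ) ≤ ((2 : ℕ) : ℝ) ^ n := one_le_pow₀ (by norm_num)
    have h3 : ((boxn (n + 1) 2).card : ℝ) ≤
        ((boxn (n + 1) 2).card : ℝ) / (log 2) ^ c * ((2 : ℕ) : ℝ) ^ n * (log ((2 : ℕ) : ℝ)) ^ c := by
      have e1 : ((boxn (n + 1) 2).card : ℝ) / (log 2) ^ c * ((2 : ℕ) : ℝ) ^ n *
          (log ((2 : ℕ) : ℝ)) ^ c = ((boxn (n + 1) 2).card : ℝ) * ((2 : ℕ) : ℝ) ^ n := by
        push_cast
        field_simp
      rw [e1]
      exact le_mul_of_one_le_right hK h2n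
    have h4 : 0 ≤ (C1 + C2) * ((2 : ℕ) : ℝ) ^ n * (log ((2 : ℕ) : ℝ)) ^ c := by
      push_cast; positivity
    have h5 : (C1 + C2 + ((boxn (n + 1) 2).card : ℝ) / (log 2) ^ c) * ((2 : ℕ) : ℝ) ^ n *
          (log ((2 : ℕ) : ℝ)) ^ c =
        (C1 + C2) * ((2 : ℕ) : ℝ) ^ n * (log ((2 : ℕ) : ℝ)) ^ c +
          ((boxn (n + 1) 2).card : ℝ) / (log 2) ^ c * ((2 : ℕ) : ℝ) ^ n *
            (log ((2 : ℕ) : ℝ)) ^ c := by ring
    rw [h5]
    exact h3.trans (le_add_of_nonneg_left h4)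
  · have hBR : (3 : ℝ) ≤ B := by exact_mod_cast hB3
    have hBpos : (0 : ℝ) < B := by linarith
    have hlog1 : 1 ≤ log (B : ℝ) := by
      rw [Real.le_log_iff_exp_le hBpos]
      have := Real.exp_one_lt_d9
      linarith
    have hsub : {x : Fin (n + 1) → ℤ | (∀ i, |x i| ≤ (B : ℤ)) ∧
          ∃ t : ℚ, MvPolynomial.eval
            (fun i : Option (Fin (n + 1)) => Option.elim i t (fun j => ((x j : ℤ) : ℚ))) F = 0} ⊆
        (((boxn (n + 1) B).filter (fun x => MvPolynomial.eval x P' = 0) ∪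
        (boxn (n + 1) B).filter (fun x => IsSquare (MvPolynomial.eval x (quadA A' α β γ) *
          MvPolynomial.eval x G')) : Finset (Fin (n + 1) → ℤ)) : Set (Fin (n + 1) → ℤ)) := by
      rintro x ⟨hx1, t, ht⟩
      have hmx := (mem_boxnQ x).2 hx1
      rw [mem_coe, mem_union, mem_filter, mem_filter]
      rcases key x t ht with h | h
      · exact Or.inl ⟨hmx, h⟩
      · exact Or.inr ⟨hmx, h⟩
    have hc := Set.ncard_le_ncard hsub (Finset.finite_toSet _)
    rw [Set.ncard_coe_finset] at hc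
    have hc2 := hc.trans (card_union_le _ _)
    have hcR : (({x : Fin (n + 1) → ℤ | (∀ i, |x i| ≤ (B : ℤ)) ∧
          ∃ t : ℚ, MvPolynomial.eval
            (fun i : Option (Fin (n + 1)) => Option.elim i t (fun j => ((x j : ℤ) : ℚ))) F =
              0}.ncard : ℕ) : ℝ) ≤
        (((boxn (n + 1) B).filter (fun x => MvPolynomial.eval x P' = 0)).card : ℝ) +
        (((boxn (n + 1) B).filter (fun x => IsSquare (MvPolynomial.eval x (quadA A' α β γ) *
          MvPolynomial.eval x G'))).card : ℝ) := by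
      exact_mod_cast hc2
    have g1 := h1 B (by omega)
    have g2 := h2 B hB3
    have p1 : (1 : ℝ) ≤ (log B) ^ c := one_le_pow₀ hlog1
    have f1 : C1 * (B : ℝ) ^ n ≤ C1 * (B : ℝ) ^ n * (log B) ^ c :=
      le_mul_of_one_le_right (by positivity) p1
    have f5 : 0 ≤ ((boxn (n + 1) 2).card : ℝ) / (log 2) ^ c * (B : ℝ) ^ n * (log (B : ℝ)) ^ c := by
      positivity
    have f6 : (C1 + C2 + ((boxn (n + 1) 2).card : ℝ) / (log 2) ^ c) * (B : ℝ) ^ n *
          (log (B : ℝ)) ^ c =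
        C1 * (B : ℝ) ^ n * (log B) ^ c + C2 * (B : ℝ) ^ n * (log B) ^ c +
          ((boxn (n + 1) 2).card : ℝ) / (log 2) ^ c * (B : ℝ) ^ n * (log (B : ℝ)) ^ c := by ring
    rw [f6]
    linarith

end Pool.MP_aab329_nt.SerreQ
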