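import Pool.Agent.Lib.MP_aab329_nt.Q.Tau

/-!
Landreau's inequality: the divisor function of `n` is bounded by a power of that of a small divisor.
-/

set_option autoImplicit false

namespace Pool.MP_aab329_nt.SerreQ

open Finset Real

/-- In a set `T` of at least `k m` positive integers there are `m` whose product `P` satisfies
`P^k ≤ ∏ T`. (Induction on `k`: take `V ⊆ T` with `m` elements and `U'` from `T \ V`; the one of
`V`, `U'` with the smaller product works for `k + 1`.) -/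
theorem exists_small_subset (T : Finset ℕ) (hT : ∀ t ∈ T, 1 ≤ t) (m k : ℕ) (hk : 1 ≤ k)
    (hc : k * m ≤ T.card) : ∃ U ⊆ T, U.card = m ∧ (∏ u ∈ U, u) ^ k ≤ ∏ t ∈ T, t := by
  induction k, hk using Nat.le_induction generalizing T with
  | base =>
    rw [one_mul] at hc
    obtain ⟨U, hU, hUc⟩ := Finset.exists_subset_card_eq hc
    refine ⟨U, hU, hUc, ?_⟩
    rw [pow_one]
    exact Finset.prod_le_prod_of_subset_of_one_le' hU fun i hi _ => hT i hi
  | succ k hk ih =>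
    have hm : m ≤ T.card := by nlinarith
    obtain ⟨V, hV, hVc⟩ := Finset.exists_subset_card_eq hm
    have hc' : k * m ≤ (T \ V).card := by
      rw [Finset.card_sdiff_of_subset hV, hVc]
      have : (k + 1) * m = k * m + m := by ring
      omega
    obtain ⟨U, hU, hUc, hUp⟩ := ih (T \ V) (fun t ht => hT t (Finset.mem_sdiff.1 ht).1) hc'
    have hprod : (∏ t ∈ T \ V, t) * ∏ t ∈ V, t = ∏ t ∈ T, t := Finset.prod_sdiff hV
    rcases le_total (∏ u ∈ U, u) (∏ u ∈ V, u) with h | h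
    · refine ⟨U, hU.trans Finset.sdiff_subset, hUc, ?_⟩
      rw [pow_succ, ← hprod]
      exact Nat.mul_le_mul hUp h
    · refine ⟨V, hV, hVc, ?_⟩
      rw [pow_succ, ← hprod]
      exact Nat.mul_le_mul ((Nat.pow_le_pow_left h k).trans hUp) le_rfl

/-- Squarefree case: `exists_small_subset` for the prime factors, `m = ω(s) / k`,
`τ(s) = 2^ω(s) ≤ 2^(k (m + 1))`. -/
theorem landreau_sqfree {s : ℕ} (hs : Squarefree s) (k : ℕ) (hk : 1 ≤ k) :
    ∃ δ : ℕ, δ ∣ s ∧ δ ^ k ≤ s ∧ tau s ≤ 2 ^ k * tau δ ^ k := by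
  have hs0 : s ≠ 0 := hs.ne_zero
  set w := s.primeFactors.card with hw
  have hc : k * (w / k) ≤ s.primeFactors.card := Nat.mul_div_le w k
  obtain ⟨U, hU, hUc, hUp⟩ := exists_small_subset s.primeFactors
    (fun t ht => (Nat.prime_of_mem_primeFactors ht).one_lt.le) (w / k) k hk hc
  have hprod : ∏ p ∈ s.primeFactors, p = s := Nat.prod_primeFactors_of_squarefree hs
  set δ := ∏ u ∈ U, u with hδ
  have hdvd : δ ∣ s := by
    have h1 := Finset.prod_dvd_prod_of_subset U s.primeFactors (fun p : ℕ => p) hU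
    rwa [hprod] at h1
  have hδ0 : δ ≠ 0 := fun h => hs0 (by rw [h] at hdvd; exact Nat.eq_zero_of_zero_dvd hdvd)
  refine ⟨δ, hdvd, by rwa [hprod] at hUp, ?_⟩
  have hτs : tau s ≤ 2 ^ w := by
    unfold tau
    rw [Nat.card_divisors hs0, hw, ← Finset.prod_const]
    apply Finset.prod_le_prod'
    intro p _
    have := Squarefree.natFactorization_le_one p hs
    omega
  have hτδ : 2 ^ (w / k) ≤ tau δ := by
    have h1 := two_pow_omega_le hδ0
    have h2 : δ.primeFactors = U :=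
      Nat.primeFactors_prod fun p hp => Nat.prime_of_mem_primeFactors (hU hp)
    rwa [h2, hUc] at h1
  have hwk : w ≤ k + w / k * k := by
    have h1 := Nat.div_add_mod w k
    have h2 := Nat.mod_lt w (show 0 < k by omega)
    have h3 : k * (w / k) = w / k * k := Nat.mul_comm _ _
    omega
  calc tau s ≤ 2 ^ w := hτs
    _ ≤ 2 ^ (k + w / k * k) := Nat.pow_le_pow_right (by norm_num) hwk
    _ = 2 ^ k * (2 ^ (w / k)) ^ k := by rw [pow_add, pow_mul]
    _ ≤ 2 ^ k * tau δ ^ k := Nat.mul_le_mul_left _ (Nat.pow_le_pow_left hτδ k)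

/-- Landreau's inequality. Strong induction on `k`: `k = 1`: `δ = n`. For `k ≥ 2` write
`n = s m^2` with `s` squarefree (`Nat.sq_mul_squarefree`), `δ₁` from `landreau_sqfree` for `2 k`,
`δ₂` for `m` and `k' = (k + 1) / 2 < k`, so `m`-part `δ₂^k ≤ δ₂^(2 k') ≤ m^2`;
`δ = δ₁ δ₂ ∣ s m ∣ n`, `τ(n) ≤ τ(s) τ(m)^2`, `τ(δ₁), τ(δ₂) ≤ τ(δ)`. -/
theorem landreau (k : ℕ) (hk : 1 ≤ k) : ∃ C E : ℕ, 1 ≤ C ∧ ∀ n : ℕ, n ≠ 0 →
    ∃ δ : ℕ, δ ∣ n ∧ δ ^ k ≤ n ∧ tau n ≤ C * tau δ ^ E := by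
  induction k using Nat.strong_induction_on with
  | _ k ih =>
  rcases Nat.lt_or_ge k 2 with h2 | h2
  · have hk1 : k = 1 := by omega
    subst hk1
    exact ⟨1, 1, le_rfl, fun n _ => ⟨n, dvd_rfl, by simp, by simp⟩⟩
  · obtain ⟨C', E', hC', hIH⟩ := ih ((k + 1) / 2) (by omega) (by omega)
    refine ⟨2 ^ k * C' ^ 2, k + 2 * E', Nat.mul_pos (by positivity) (by positivity), ?_⟩
    intro n hn
    obtain ⟨s, m, hsm, hs⟩ := Nat.sq_mul_squarefree n
    have hm0 : m ≠ 0 := by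
      rintro rfl
      exact hn (by rw [← hsm]; simp)
    have hs0 : s ≠ 0 := hs.ne_zero
    obtain ⟨δ₁, hd1, hp1, ht1⟩ := landreau_sqfree hs k hk
    obtain ⟨δ₂, hd2, hp2, ht2⟩ := hIH m hm0
    have hδ1 : δ₁ ≠ 0 := fun h => hs0 (by rw [h] at hd1; exact Nat.eq_zero_of_zero_dvd hd1)
    have hδ2 : δ₂ ≠ 0 := fun h => hm0 (by rw [h] at hd2; exact Nat.eq_zero_of_zero_dvd hd2)
    have hδ : δ₁ * δ₂ ≠ 0 := mul_ne_zero hδ1 hδ2
    refine ⟨δ₁ * δ₂, ?_, ?_, ?_⟩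
    · rw [← hsm, mul_comm δ₁ δ₂]
      exact mul_dvd_mul (hd2.trans (dvd_pow_self m two_ne_zero)) hd1
    · rw [mul_pow, ← hsm, mul_comm (m ^ 2) s]
      apply Nat.mul_le_mul hp1
      calc δ₂ ^ k ≤ δ₂ ^ ((k + 1) / 2 * 2) :=
            Nat.pow_le_pow_right (Nat.pos_of_ne_zero hδ2) (by omega)
        _ = (δ₂ ^ ((k + 1) / 2)) ^ 2 := by rw [pow_mul]
        _ ≤ m ^ 2 := Nat.pow_le_pow_left hp2 2
    · have hτ1 : tau δ₁ ≤ tau (δ₁ * δ₂) := tau_le_of_dvd (dvd_mul_right _ _) hδ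
      have hτ2 : tau δ₂ ≤ tau (δ₁ * δ₂) := tau_le_of_dvd (dvd_mul_left _ _) hδ
      calc tau n = tau (m ^ 2 * s) := by rw [hsm]
        _ ≤ tau (m ^ 2) * tau s := tau_mul_le _ _
        _ ≤ tau m ^ 2 * tau s := Nat.mul_le_mul_right _ (tau_pow_le _ _)
        _ ≤ (C' * tau δ₂ ^ E') ^ 2 * (2 ^ k * tau δ₁ ^ k) :=
            Nat.mul_le_mul (Nat.pow_le_pow_left ht2 2) ht1
        _ ≤ (C' * tau (δ₁ * δ₂) ^ E') ^ 2 * (2 ^ k * tau (δ₁ * δ₂) ^ k) :=
            Nat.mul_le_mul (Nat.pow_le_pow_left (Nat.mul_le_mul_left _ (Nat.pow_le_pow_left hτ2 _)) 2)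
              (Nat.mul_le_mul_left _ (Nat.pow_le_pow_left hτ1 _))
        _ = 2 ^ k * C' ^ 2 * tau (δ₁ * δ₂) ^ (k + 2 * E') := by
            rw [pow_add, mul_pow, ← pow_mul, mul_comm E' 2]
            ring

end Pool.MP_aab329_nt.SerreQ
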