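import Pool.Agent.Lib.MP_aab329_nt.Q.Sqrt

/-!
Number of solutions of `X^2 - D z^2 = N` of bounded size.
-/

set_option autoImplicit false

namespace Pool.MP_aab329_nt.SerreQ

open Finset Real

/-- Solutions of `u^2 - D v^2 = 1` with `v ≠ 0`: `D ≥ 2` and `|u| + |v| √D ≥ 2`, or `D = -1`,
`u = 0`. (`D = 1`: `(u - v) (u + v) = 1` gives `v = 0`; `D ≤ -2`: `v = 0`.) -/
theorem unit_cases (D u v : ℤ) (hD : D ≠ 0) (hD1 : Squarefree D) (h : u ^ 2 - D * v ^ 2 = 1)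
    (hv : v ≠ 0) : (2 ≤ D ∧ 2 ≤ |(u : ℝ)| + |(v : ℝ)| * √(D : ℝ)) ∨ (D = -1 ∧ u = 0) := by
  have hv2 : 1 ≤ v ^ 2 := by
    have : 0 < v ^ 2 := by positivity
    omega
  rcases lt_trichotomy D 1 with h1 | h1 | h1
  · have hD0 : D ≤ -1 := by omega
    have hu2 : 0 ≤ u ^ 2 := sq_nonneg u
    have h2 : D = -1 := by
      by_contra hne
      have hD2 : D ≤ -2 := by omega
      nlinarith
    right
    refine ⟨h2, ?_⟩
    subst h2
    have : u ^ 2 = 0 := by nlinarith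
    exact pow_eq_zero_iff (two_ne_zero) |>.1 this
  · exfalso
    subst h1
    have h2 : (u - v) * (u + v) = 1 := by linarith
    rcases Int.mul_eq_one_iff_eq_one_or_neg_one.1 h2 with ⟨h3, h4⟩ | ⟨h3, h4⟩
    · apply hv; omega
    · apply hv; omega
  · left
    refine ⟨by omega, ?_⟩
    have h3 : 3 ≤ u ^ 2 := by nlinarith
    have h4 : 2 ≤ |u| := by
      by_contra hcon
      have h5 : |u| ≤ 1 := by omega
      have h6 : u ^ 2 ≤ 1 := by
        rw [← sq_abs]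
        have := abs_nonneg u
        nlinarith
      omega
    have h5 : (2 : ℝ) ≤ |(u : ℝ)| := by exact_mod_cast h4
    have h6 : 0 ≤ |(v : ℝ)| * √(D : ℝ) := by positivity
    linarith

/-- Two primitive solutions of `X^2 - D w^2 = N` with the same residue `X / w` modulo `N` differ by
a unit. -/
theorem quot_unit (D N X₁ w₁ X₂ w₂ r : ℤ) (hN : N ≠ 0) (h₁ : X₁ ^ 2 - D * w₁ ^ 2 = N)
    (h₂ : X₂ ^ 2 - D * w₂ ^ 2 = N) (hr₁ : N ∣ X₁ - r * w₁) (hr₂ : N ∣ X₂ - r * w₂)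
    (hr : N ∣ r ^ 2 - D) :
    ∃ u v : ℤ, X₁ * X₂ - D * w₁ * w₂ = N * u ∧ X₂ * w₁ - X₁ * w₂ = N * v ∧
      u ^ 2 - D * v ^ 2 = 1 := by
  have e1 : N ∣ X₁ * X₂ - D * w₁ * w₂ := by
    have : X₁ * X₂ - D * w₁ * w₂ = (X₁ - r * w₁) * X₂ + r * w₁ * (X₂ - r * w₂) +
      (r ^ 2 - D) * (w₁ * w₂) := by ring
    rw [this]
    exact dvd_add (dvd_add (Dvd.dvd.mul_right hr₁ _) (Dvd.dvd.mul_left hr₂ _))
      (Dvd.dvd.mul_right hr _)
  have e2 : N ∣ X₂ * w₁ - X₁ * w₂ := by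
    have : X₂ * w₁ - X₁ * w₂ = (X₂ - r * w₂) * w₁ - (X₁ - r * w₁) * w₂ := by ring
    rw [this]
    exact dvd_sub (Dvd.dvd.mul_right hr₂ _) (Dvd.dvd.mul_right hr₁ _)
  obtain ⟨u, hu⟩ := e1
  obtain ⟨v, hv⟩ := e2
  refine ⟨u, v, hu, hv, ?_⟩
  have h3 : N ^ 2 * (u ^ 2 - D * v ^ 2) = N ^ 2 * 1 := by
    have : N ^ 2 * (u ^ 2 - D * v ^ 2) = (N * u) ^ 2 - D * (N * v) ^ 2 := by ring
    rw [this, ← hu, ← hv]
    have : (X₁ * X₂ - D * w₁ * w₂) ^ 2 - D * (X₂ * w₁ - X₁ * w₂) ^ 2 =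
      (X₁ ^ 2 - D * w₁ ^ 2) * (X₂ ^ 2 - D * w₂ ^ 2) := by ring
    rw [this, h₁, h₂]; ring
  exact mul_left_cancel₀ (pow_ne_zero 2 hN) h3

private theorem pair_inj (D N X₁ w₁ X₂ w₂ X₃ w₃ u v : ℤ) (hN : N ≠ 0)
    (h₁ : X₁ ^ 2 - D * w₁ ^ 2 = N)
    (hu : X₁ * X₂ - D * w₁ * w₂ = N * u) (hv : X₂ * w₁ - X₁ * w₂ = N * v)
    (hu' : X₁ * X₃ - D * w₁ * w₃ = N * u) (hv' : X₃ * w₁ - X₁ * w₃ = N * v) :
    X₂ = X₃ ∧ w₂ = w₃ := by
  have a1 : X₁ * (X₂ - X₃) - D * w₁ * (w₂ - w₃) = 0 := by linear_combination hu - hu'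
  have a2 : w₁ * (X₂ - X₃) - X₁ * (w₂ - w₃) = 0 := by linear_combination hv - hv'
  have b1 : N * (X₂ - X₃) = 0 := by
    rw [← h₁]; linear_combination X₁ * a1 - D * w₁ * a2
  have b2 : N * (w₂ - w₃) = 0 := by
    rw [← h₁]; linear_combination w₁ * a1 - X₁ * a2
  constructor
  · have := (mul_eq_zero.1 b1).resolve_left hN
    omega
  · have := (mul_eq_zero.1 b2).resolve_left hN
    omega

private theorem xi_ratio (D u v : ℤ) (hD : 2 ≤ D) (h : u ^ 2 - D * v ^ 2 = 1)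
    (h2 : 2 ≤ |(u : ℝ)| + |(v : ℝ)| * √(D : ℝ)) :
    2 ≤ |(u : ℝ) + v * √(D : ℝ)| ∨ |(u : ℝ) + v * √(D : ℝ)| ≤ 1 / 2 := by
  have hDr : (0 : ℝ) ≤ (D : ℝ) := by
    have : (2 : ℝ) ≤ (D : ℝ) := by exact_mod_cast hD
    linarith
  have hs : √(D : ℝ) ^ 2 = D := Real.sq_sqrt hDr
  have hs0 : 0 ≤ √(D : ℝ) := Real.sqrt_nonneg _
  have hr : (u : ℝ) ^ 2 - D * (v : ℝ) ^ 2 = 1 := by exact_mod_cast h
  have hprod : ((u : ℝ) + v * √(D : ℝ)) * ((u : ℝ) - v * √(D : ℝ)) = 1 := by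
    have : ((u : ℝ) + v * √(D : ℝ)) * ((u : ℝ) - v * √(D : ℝ)) =
      (u : ℝ) ^ 2 - √(D : ℝ) ^ 2 * (v : ℝ) ^ 2 := by ring
    rw [this, hs, hr]
  have habs : |(v : ℝ)| * √(D : ℝ) = |(v : ℝ) * √(D : ℝ)| := by
    rw [abs_mul, abs_of_nonneg hs0]
  rw [habs] at h2
  set a : ℝ := (u : ℝ)
  set b : ℝ := (v : ℝ) * √(D : ℝ)
  by_cases hab : 0 ≤ a * b
  · left
    have : |a + b| = |a| + |b| := by
      rw [abs_add_eq_add_abs_iff]
      rcases le_total 0 a with h3 | h3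
      · rcases le_total 0 b with h4 | h4
        · left; exact ⟨h3, h4⟩
        · have h5 : a * b = 0 := le_antisymm (mul_nonpos_of_nonneg_of_nonpos h3 h4) hab
          rcases mul_eq_zero.1 h5 with h6 | h6
          · right; exact ⟨h6.le, h4⟩
          · left; exact ⟨h3, h6.ge⟩
      · rcases le_total 0 b with h4 | h4
        · have h5 : a * b = 0 := le_antisymm (mul_nonpos_of_nonpos_of_nonneg h3 h4) hab
          rcases mul_eq_zero.1 h5 with h6 | h6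
          · left; exact ⟨h6.ge, h4⟩
          · right; exact ⟨h3, h6.le⟩
        · right; exact ⟨h3, h4⟩
    rw [this]; exact h2
  · right
    push Not at hab
    have h3 : |a - b| = |a| + |b| := by
      have h4 : |a - b| = |a + (-b)| := by rw [sub_eq_add_neg]
      rw [h4, ← abs_neg b, abs_add_eq_add_abs_iff]
      rcases le_total 0 a with h3 | h3
      · rcases le_total 0 b with h4 | h4
        · exact absurd (mul_nonneg h3 h4) (not_le.2 hab)
        · left; exact ⟨h3, by linarith⟩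
      · rcases le_total 0 b with h4 | h4
        · right; exact ⟨h3, by linarith⟩
        · exact absurd (mul_nonneg_of_nonpos_of_nonpos h3 h4) (not_le.2 hab)
    have h5 : |a + b| * |a - b| = 1 := by
      rw [← abs_mul, hprod, abs_one]
    rw [h3] at h5
    have h6 := abs_nonneg (a + b)
    by_contra hcon
    push Not at hcon
    nlinarith

private theorem sols_finite (D N : ℤ) (hD : D ≠ 0) (M : ℕ) :
    {q : ℤ × ℤ | q.1 ^ 2 - D * q.2 ^ 2 = N ∧ |q.1| ≤ M}.Finite := by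
  have hsub : {q : ℤ × ℤ | q.1 ^ 2 - D * q.2 ^ 2 = N ∧ |q.1| ≤ M} ⊆
      (↑(Finset.Icc (-(M : ℤ)) M ×ˢ Finset.Icc (-((M : ℤ) ^ 2 + |N|)) ((M : ℤ) ^ 2 + |N|)) :
        Set (ℤ × ℤ)) := by
    rintro ⟨X, w⟩ ⟨h1, h2⟩
    simp only at h1 h2
    have h3 := abs_le.1 h2
    have h4 : X ^ 2 ≤ (M : ℤ) ^ 2 := by
      rw [← sq_abs X]
      exact pow_le_pow_left₀ (abs_nonneg _) h2 2
    have hD1 : 1 ≤ |D| := Int.one_le_abs hD
    have h5 : |D| * w ^ 2 ≤ (M : ℤ) ^ 2 + |N| := by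
      have : |D| * w ^ 2 = |X ^ 2 - N| := by
        rw [← h1]
        have : X ^ 2 - (X ^ 2 - D * w ^ 2) = D * w ^ 2 := by ring
        rw [this, abs_mul, abs_of_nonneg (sq_nonneg w)]
      rw [this]
      calc |X ^ 2 - N| ≤ |X ^ 2| + |N| := abs_sub _ _
        _ ≤ (M : ℤ) ^ 2 + |N| := by rw [abs_of_nonneg (sq_nonneg X)]; linarith
    have h6 : |w| ≤ w ^ 2 := by
      rw [← sq_abs w]
      rcases eq_or_ne w 0 with h | h
      · subst h; simp
      · have := Int.one_le_abs h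
        nlinarith
    have h7 : w ^ 2 ≤ |D| * w ^ 2 := by nlinarith [sq_nonneg w]
    have h8 := abs_le.1 (h6.trans (h7.trans h5))
    simp only [Finset.coe_product, Set.mem_prod, Finset.mem_coe, Finset.mem_Icc]
    exact ⟨⟨h3.1, h3.2⟩, h8.1, h8.2⟩
  exact (Finset.finite_toSet _).subset hsub

private theorem class_small (D N r : ℤ) (hD : D ≠ 0) (hD1 : Squarefree D) (hN : N ≠ 0)
    (hr : N ∣ r ^ 2 - D) (hD2 : D < 2) (M : ℕ) :
    {q : ℤ × ℤ | q.1 ^ 2 - D * q.2 ^ 2 = N ∧ N ∣ q.1 - r * q.2 ∧ |q.1| ≤ M}.ncard ≤ 4 := by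
  classical
  rcases Set.eq_empty_or_nonempty
    {q : ℤ × ℤ | q.1 ^ 2 - D * q.2 ^ 2 = N ∧ N ∣ q.1 - r * q.2 ∧ |q.1| ≤ M} with hE | ⟨q₁, hq₁⟩
  · rw [hE]; simp
  obtain ⟨h1, h2, -⟩ := hq₁
  have key : ∀ q ∈ {q : ℤ × ℤ | q.1 ^ 2 - D * q.2 ^ 2 = N ∧ N ∣ q.1 - r * q.2 ∧ |q.1| ≤ M},
      ∃ p ∈ (({(1, 0), (-1, 0), (0, 1), (0, -1)} : Finset (ℤ × ℤ))),
        q₁.1 * q.1 - D * q₁.2 * q.2 = N * p.1 ∧ q.1 * q₁.2 - q₁.1 * q.2 = N * p.2 := by
    rintro q ⟨g1, g2, -⟩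
    obtain ⟨u, v, hu, hv, huv⟩ := quot_unit D N q₁.1 q₁.2 q.1 q.2 r hN h1 g1 h2 g2 hr
    refine ⟨(u, v), ?_, hu, hv⟩
    by_cases hv0 : v = 0
    · subst hv0
      have : u ^ 2 = 1 := by linarith
      rcases mul_self_eq_one_iff.1 ((sq u).symm.trans this) with h | h <;> simp [h]
    · rcases unit_cases D u v hD hD1 huv hv0 with ⟨h, -⟩ | ⟨h, h'⟩
      · omega
      · subst h; subst h'
        have : v ^ 2 = 1 := by linarith
        rcases mul_self_eq_one_iff.1 ((sq v).symm.trans this) with h | h <;> simp [h]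
  choose! f hf1 hf2 hf3 using key
  have hle := Set.ncard_le_ncard_of_injOn
    (s := {q : ℤ × ℤ | q.1 ^ 2 - D * q.2 ^ 2 = N ∧ N ∣ q.1 - r * q.2 ∧ |q.1| ≤ M})
    (t := (↑({(1, 0), (-1, 0), (0, 1), (0, -1)} : Finset (ℤ × ℤ)) : Set (ℤ × ℤ))) f
    (fun q hq => by exact_mod_cast hf1 q hq)
    (by
      intro a ha b hb hab
      have e1 := hf2 a ha
      have e2 := hf3 a ha
      have e3 := hf2 b hb
      have e4 := hf3 b hb
      rw [← hab] at e3 e4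
      have := pair_inj D N q₁.1 q₁.2 a.1 a.2 b.1 b.2 _ _ hN h1 e1 e2 e3 e4
      exact Prod.ext this.1 this.2) (Finset.finite_toSet _)
  refine hle.trans ?_
  rw [Set.ncard_coe_finset]
  decide

private theorem class_large (D N r : ℤ) (hD : D ≠ 0) (hD1 : Squarefree D) (hN : N ≠ 0)
    (hr : N ∣ r ^ 2 - D) (hD2 : 2 ≤ D) (M : ℕ) (hM : 3 ≤ M) (hNM : |N| ≤ M) :
    ({q : ℤ × ℤ | q.1 ^ 2 - D * q.2 ^ 2 = N ∧ N ∣ q.1 - r * q.2 ∧ |q.1| ≤ M}.ncard : ℝ) ≤
      20 * log M := by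
  classical
  set S := {q : ℤ × ℤ | q.1 ^ 2 - D * q.2 ^ 2 = N ∧ N ∣ q.1 - r * q.2 ∧ |q.1| ≤ M} with hS
  set ξ : ℤ × ℤ → ℝ := fun q => (q.1 : ℝ) + q.2 * √(D : ℝ) with hξ
  have hDr : (2 : ℝ) ≤ (D : ℝ) := by exact_mod_cast hD2
  have hMr : (3 : ℝ) ≤ (M : ℝ) := by exact_mod_cast hM
  have hs : √(D : ℝ) ^ 2 = D := Real.sq_sqrt (by linarith)
  have hs0 : 0 ≤ √(D : ℝ) := Real.sqrt_nonneg _
  have hNr : (1 : ℝ) ≤ |(N : ℝ)| := by exact_mod_cast Int.one_le_abs hN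
  have hNMr : |(N : ℝ)| ≤ M := by exact_mod_cast hNM
  -- bounds
  have hbd : ∀ q ∈ S, |ξ q| ≤ 4 * M ∧ 1 / (4 * (M : ℝ)) ≤ |ξ q| := by
    rintro q ⟨g1, g2, g3⟩
    have g1r : (q.1 : ℝ) ^ 2 - D * (q.2 : ℝ) ^ 2 = N := by exact_mod_cast g1
    have g3r : |(q.1 : ℝ)| ≤ M := by exact_mod_cast g3
    have hwb : |(q.2 : ℝ) * √(D : ℝ)| ≤ 3 * M := by
      refine abs_le_of_sq_le_sq ?_ (by positivity)
      have : ((q.2 : ℝ) * √(D : ℝ)) ^ 2 = (q.1 : ℝ) ^ 2 - N := by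
        rw [mul_pow, hs, ← g1r]; ring
      rw [this]
      have h1 : (q.1 : ℝ) ^ 2 ≤ (M : ℝ) ^ 2 := by
        rw [← sq_abs (q.1 : ℝ)]
        exact pow_le_pow_left₀ (abs_nonneg _) g3r 2
      have h2 := (abs_le.1 hNMr).1
      nlinarith
    have hb1 : |(q.1 : ℝ) + q.2 * √(D : ℝ)| ≤ 4 * M := by
      calc _ ≤ |(q.1 : ℝ)| + |(q.2 : ℝ) * √(D : ℝ)| := abs_add_le _ _
        _ ≤ 4 * M := by linarith
    have hb2 : |(q.1 : ℝ) - q.2 * √(D : ℝ)| ≤ 4 * M := by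
      calc _ ≤ |(q.1 : ℝ)| + |(q.2 : ℝ) * √(D : ℝ)| := abs_sub _ _
        _ ≤ 4 * M := by linarith
    refine ⟨hb1, ?_⟩
    have hprod : ((q.1 : ℝ) + q.2 * √(D : ℝ)) * ((q.1 : ℝ) - q.2 * √(D : ℝ)) = N := by
      have : ((q.1 : ℝ) + q.2 * √(D : ℝ)) * ((q.1 : ℝ) - q.2 * √(D : ℝ)) =
        (q.1 : ℝ) ^ 2 - √(D : ℝ) ^ 2 * (q.2 : ℝ) ^ 2 := by ring
      rw [this, hs, g1r]
    have habs : |(q.1 : ℝ) + q.2 * √(D : ℝ)| * |(q.1 : ℝ) - q.2 * √(D : ℝ)| = |(N : ℝ)| := by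
      rw [← abs_mul, hprod]
    rw [div_le_iff₀ (by positivity)]
    have h0 := abs_nonneg ((q.1 : ℝ) + q.2 * √(D : ℝ))
    show 1 ≤ |(q.1 : ℝ) + q.2 * √(D : ℝ)| * (4 * M)
    nlinarith
  have hpos : ∀ q ∈ S, 0 < |ξ q| := fun q hq => lt_of_lt_of_le (by positivity) (hbd q hq).2
  -- the relation
  have hrel : ∀ a ∈ S, ∀ b ∈ S, a = b ∨ ξ a = -ξ b ∨ 2 * |ξ b| ≤ |ξ a| ∨ 2 * |ξ a| ≤ |ξ b| := by
    intro a ha b hb
    have ha' := ha
    have hb' := hb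
    obtain ⟨a1, a2, -⟩ := ha
    obtain ⟨b1, b2, -⟩ := hb
    obtain ⟨u, v, hu, hv, huv⟩ := quot_unit D N a.1 a.2 b.1 b.2 r hN a1 b1 a2 b2 hr
    have e1 : ξ a = ((u : ℝ) + v * √(D : ℝ)) * ξ b := by
      have hu' : (a.1 : ℝ) * b.1 - D * a.2 * b.2 = N * u := by exact_mod_cast hu
      have hv' : (b.1 : ℝ) * a.2 - a.1 * b.2 = N * v := by exact_mod_cast hv
      have b1r : (b.1 : ℝ) ^ 2 - D * (b.2 : ℝ) ^ 2 = N := by exact_mod_cast b1
      have hN0 : (N : ℝ) ≠ 0 := by exact_mod_cast hN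
      apply mul_left_cancel₀ hN0
      have : (N : ℝ) * (((u : ℝ) + v * √(D : ℝ)) * ξ b) =
        ((N : ℝ) * u + N * v * √(D : ℝ)) * ξ b := by ring
      rw [this, ← hu', ← hv', ← b1r]
      simp only [hξ]
      linear_combination (-((b.1 : ℝ) * a.2 - a.1 * b.2) * b.2) * hs
    by_cases hv0 : v = 0
    · subst hv0
      have : u ^ 2 = 1 := by linarith
      rcases mul_self_eq_one_iff.1 ((sq u).symm.trans this) with h | h
      · left
        subst h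
        have := pair_inj D N a.1 a.2 b.1 b.2 a.1 a.2 1 0 hN a1 hu hv
          (by rw [← a1]; ring) (by ring)
        exact Prod.ext this.1.symm this.2.symm
      · right; left
        rw [e1, h]; push_cast; ring
    · rcases unit_cases D u v hD hD1 huv hv0 with ⟨-, h⟩ | ⟨h, -⟩
      · right; right
        have hb0 := abs_nonneg (ξ b)
        rcases xi_ratio D u v hD2 huv h with h3 | h3
        · left
          rw [e1, abs_mul]
          exact mul_le_mul_of_nonneg_right h3 hb0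
        · right
          rw [e1, abs_mul]
          nlinarith
      · omega
  set L : ℤ := ⌈Real.logb 2 (4 * M)⌉ with hL
  have h4M : (0 : ℝ) < 4 * M := by positivity
  have hle := Set.ncard_le_ncard_of_injOn (s := S)
    (t := (↑((Finset.Icc (-L) L) ×ˢ (Finset.univ : Finset Bool)) : Set (ℤ × Bool)))
    (fun q => (⌊Real.logb 2 |ξ q|⌋, decide (0 ≤ ξ q)))
    (by
      intro q hq
      have hb := hbd q hq
      have hp := hpos q hq
      simp only [Finset.coe_product, Set.mem_prod, Finset.mem_coe, Finset.mem_Icc,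
        Finset.coe_univ, Set.mem_univ, and_true]
      constructor
      · rw [Int.le_floor]
        have h1 : -Real.logb 2 (4 * M) ≤ Real.logb 2 |ξ q| := by
          rw [← Real.logb_inv]
          apply Real.logb_le_logb_of_le (by norm_num) (by positivity)
          rw [← one_div]; exact hb.2
        have h2 := Int.le_ceil (Real.logb 2 (4 * M))
        push_cast
        linarith
      · have h1 : Real.logb 2 |ξ q| ≤ Real.logb 2 (4 * M) :=
          Real.logb_le_logb_of_le (by norm_num) hp hb.1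
        exact (Int.floor_le_ceil _).trans (Int.ceil_mono h1))
    (by
      intro a ha b hb hab
      simp only [Prod.mk.injEq, decide_eq_decide] at hab
      obtain ⟨h1, h2⟩ := hab
      have hpa := hpos a ha
      have hpb := hpos b hb
      have hfa := Int.floor_le (Real.logb 2 |ξ a|)
      have hfa' := Int.lt_floor_add_one (Real.logb 2 |ξ a|)
      have hfb := Int.floor_le (Real.logb 2 |ξ b|)
      have hfb' := Int.lt_floor_add_one (Real.logb 2 |ξ b|)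
      rw [h1] at hfa hfa'
      have hlog2 : Real.logb 2 2 = 1 := Real.logb_self_eq_one (by norm_num)
      rcases hrel a ha b hb with h | h | h | h
      · exact h
      · exfalso
        by_cases h3 : 0 ≤ ξ a
        · have h4 := h2.1 h3
          have h5 : ξ a = 0 := by linarith
          rw [h5, abs_zero] at hpa
          exact lt_irrefl _ hpa
        · have h4 : ¬ 0 ≤ ξ b := fun h5 => h3 (h2.2 h5)
          push Not at h3 h4
          linarith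
      · exfalso
        have h3 := Real.logb_le_logb_of_le (b := 2) (by norm_num) (by positivity) h
        rw [Real.logb_mul (by norm_num) hpb.ne', hlog2] at h3
        linarith
      · exfalso
        have h3 := Real.logb_le_logb_of_le (b := 2) (by norm_num) (by positivity) h
        rw [Real.logb_mul (by norm_num) hpa.ne', hlog2] at h3
        linarith)
    (Finset.finite_toSet _)
  rw [Set.ncard_coe_finset, Finset.card_product] at hle
  have hcard : ((Finset.Icc (-L) L).card : ℤ) ≤ 2 * L + 1 := by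
    have hL0 : 0 ≤ L := by
      rw [hL]
      apply Int.ceil_nonneg
      apply Real.logb_nonneg (by norm_num)
      linarith
    rw [Int.card_Icc]
    omega
  have hcard' : ((Finset.Icc (-L) L).card : ℝ) ≤ 2 * (L : ℝ) + 1 := by exact_mod_cast hcard
  have hLr : (L : ℝ) ≤ Real.logb 2 (4 * M) + 1 := (Int.ceil_lt_add_one _).le
  have hlogb : Real.logb 2 (4 * M) = 2 + Real.log M / Real.log 2 := by
    rw [Real.logb_mul (by norm_num) (by positivity)]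
    congr 1
    rw [show (4 : ℝ) = 2 ^ (2 : ℕ) by norm_num, Real.logb_pow]
    rw [Real.logb_self_eq_one (by norm_num)]
    norm_num
  have hlog2 : (0.69 : ℝ) < Real.log 2 := by
    have := Real.log_two_gt_d9
    linarith
  have hlogM : (1 : ℝ) ≤ log M := by
    rw [Real.le_log_iff_exp_le (by positivity)]
    have := Real.exp_one_lt_d9
    linarith
  have hdiv : Real.log M / Real.log 2 ≤ 1.5 * Real.log M := by
    rw [div_le_iff₀ (by linarith)]
    nlinarith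
  have hle' : (S.ncard : ℝ) ≤ (Finset.Icc (-L) L).card * 2 := by
    have : S.ncard ≤ (Finset.Icc (-L) L).card * 2 := by simpa using hle
    exact_mod_cast this
  nlinarith

/-- One class. For `D ≥ 2` put `ξ = X + w √D`, `ξ ξ' = N`, `|ξ|, |ξ'| ≤ 4 M`, so
`|ξ| ∈ [1 / (4 M), 4 M]`; for two solutions `ξ₁ / ξ₂ = u + v √D` (`quot_unit`), so
`ξ₁ = ± ξ₂` or the quotient of `|ξ₁|, |ξ₂|` is at least `2`: at most
`2 (log₂ (16 M^2) + 1)` solutions. Otherwise at most 4 solutions. -/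
theorem class_count : ∃ C : ℝ, 0 < C ∧ ∀ D N r : ℤ, D ≠ 0 → Squarefree D → N ≠ 0 →
    N ∣ r ^ 2 - D → ∀ M : ℕ, 3 ≤ M → |N| ≤ M →
    ({q : ℤ × ℤ | q.1 ^ 2 - D * q.2 ^ 2 = N ∧ N ∣ q.1 - r * q.2 ∧ |q.1| ≤ M}.ncard : ℝ) ≤
      C * log M := by
  refine ⟨20, by norm_num, ?_⟩
  intro D N r hD hD1 hN hr M hM hNM
  rcases lt_or_ge D 2 with h | h
  · have h1 := class_small D N r hD hD1 hN hr h M
    have h2 : (1 : ℝ) ≤ log M := by
      rw [Real.le_log_iff_exp_le (by positivity)]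
      have : Real.exp 1 ≤ 3 := by
        have := Real.exp_one_lt_d9
        linarith
      refine this.trans ?_
      exact_mod_cast hM
    have h3 : ({q : ℤ × ℤ | q.1 ^ 2 - D * q.2 ^ 2 = N ∧ N ∣ q.1 - r * q.2 ∧ |q.1| ≤ M}.ncard : ℝ) ≤ 4 := by
      exact_mod_cast h1
    linarith
  · exact class_large D N r hD hD1 hN hr h M hM hNM

/-- Decomposition of a solution. -/
private theorem sol_decomp (D N X w : ℤ) (hN : N ≠ 0) (h : X ^ 2 - D * w ^ 2 = N) :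
    ∃ (g : ℕ) (N' x y : ℤ) (r : ℕ), 1 ≤ g ∧ N = (g : ℤ) ^ 2 * N' ∧ X = g * x ∧ w = g * y ∧
      x ^ 2 - D * y ^ 2 = N' ∧ r < N'.natAbs ∧ N' ∣ x - (r : ℤ) * y ∧ N' ∣ (r : ℤ) ^ 2 - D := by
  have hg : 0 < Int.gcd X w := by
    apply Nat.pos_of_ne_zero
    intro h0
    rw [Int.gcd_eq_zero_iff] at h0
    apply hN
    rw [← h, h0.1, h0.2]; ring
  obtain ⟨x, hx⟩ := Int.gcd_dvd_left X w
  obtain ⟨y, hy⟩ := Int.gcd_dvd_right X w
  set g := Int.gcd X w with hgdef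
  have hg0 : (g : ℤ) ≠ 0 := by exact_mod_cast hg.ne'
  have hNeq : N = (g : ℤ) ^ 2 * (x ^ 2 - D * y ^ 2) := by
    rw [← h, hx, hy]; ring
  have hN' : x ^ 2 - D * y ^ 2 ≠ 0 := by
    intro h0
    apply hN
    rw [hNeq, h0, mul_zero]
  have hco : IsCoprime x y := by
    rw [Int.isCoprime_iff_gcd_eq_one]
    have h1 : Int.gcd X w = g * Int.gcd x y := by
      conv_lhs => rw [hx, hy]
      rw [Int.gcd_mul_left]
      simp
    rw [← hgdef] at h1
    have h2 : g * Int.gcd x y = g * 1 := by rw [mul_one]; exact h1.symm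
    exact Nat.eq_of_mul_eq_mul_left hg h2
  have hco2 : IsCoprime y (x ^ 2 - D * y ^ 2) := by
    have h1 : IsCoprime y (x ^ 2) := hco.symm.pow_right
    have h2 : x ^ 2 - D * y ^ 2 = x ^ 2 + y * (-(D * y)) := by ring
    rw [h2]
    exact h1.add_mul_left_right _
  obtain ⟨a, b, hab⟩ := hco2
  set N' := x ^ 2 - D * y ^ 2 with hN'def
  have hr0 : 0 ≤ (x * a) % N' := Int.emod_nonneg _ hN'
  have hr1 : (x * a) % N' < |N'| := Int.emod_lt_abs _ hN'
  have hrd : N' ∣ (x * a) - (x * a) % N' := Int.dvd_self_sub_emod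
  have hrc : ((((x * a) % N').toNat : ℕ) : ℤ) = (x * a) % N' := Int.toNat_of_nonneg hr0
  have hd1 : N' ∣ x - ((x * a) % N') * y := by
    have : x - ((x * a) % N') * y = N' * (b * x) + ((x * a) - (x * a) % N') * y := by
      linear_combination (-x) * hab
    rw [this]
    exact dvd_add (dvd_mul_right _ _) (Dvd.dvd.mul_right hrd _)
  refine ⟨g, N', x, y, ((x * a) % N').toNat, hg, hNeq, hx, hy, rfl, ?_, ?_, ?_⟩
  · have : ((((x * a) % N').toNat : ℕ) : ℤ) < (N'.natAbs : ℤ) := by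
      rw [hrc, Int.natCast_natAbs]; exact hr1
    exact_mod_cast this
  · rw [hrc]; exact hd1
  · rw [hrc]
    have h3 : N' ∣ y ^ 2 * (((x * a) % N') ^ 2 - D) := by
      have : y ^ 2 * (((x * a) % N') ^ 2 - D) =
        N' - (x - ((x * a) % N') * y) * (x + ((x * a) % N') * y) := by
        rw [hN'def]; ring
      rw [this]
      exact dvd_sub (dvd_refl _) (Dvd.dvd.mul_right hd1 _)
    have h4 : IsCoprime N' (y ^ 2) := by
      have : IsCoprime y N' := ⟨a, b, hab⟩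
      exact this.symm.pow_right
    exact h4.dvd_of_dvd_mul_left h3

/-- Squarefree `D`: sort the solutions by `g = gcd(X, w)`, `g^2 ∣ N`, and by the residue `r` of
`(X / g) / (w / g)` modulo `N / g^2` (`w / g` is prime to `N / g^2`: a common prime would divide
`X / g`); `nsqrt_le`, `class_count`; at most `τ(N)` values of `g`, `2 τ(N)` of `r`. -/
theorem pell_sqfree : ∃ C : ℝ, 0 < C ∧ ∀ D N : ℤ, D ≠ 0 → Squarefree D → N ≠ 0 →
    ∀ M : ℕ, 3 ≤ M → |N| ≤ M →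
    ({q : ℤ × ℤ | q.1 ^ 2 - D * q.2 ^ 2 = N ∧ |q.1| ≤ M}.ncard : ℝ) ≤
      C * (tau N.natAbs : ℝ) ^ 2 * log M := by
  classical
  obtain ⟨C, hC, hcl⟩ := class_count
  refine ⟨2 * C, by positivity, ?_⟩
  intro D N hD hD1 hN M hM hNM
  have hMr : (3 : ℝ) ≤ (M : ℝ) := by exact_mod_cast hM
  have hlog : 0 ≤ log M := Real.log_nonneg (by linarith)
  set G : Finset ℕ := N.natAbs.divisors.filter (fun g => (g : ℤ) ^ 2 ∣ N) with hG
  set R : ℕ → Finset ℕ := fun g =>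
    (Finset.range (N / (g : ℤ) ^ 2).natAbs).filter
      (fun r : ℕ => (((N / (g : ℤ) ^ 2).natAbs : ℕ) : ℤ) ∣ (r : ℤ) ^ 2 - D) with hR
  set S : ℕ → ℕ → Set (ℤ × ℤ) := fun g r =>
    (fun q : ℤ × ℤ => ((g : ℤ) * q.1, (g : ℤ) * q.2)) ''
      {q : ℤ × ℤ | q.1 ^ 2 - D * q.2 ^ 2 = N / (g : ℤ) ^ 2 ∧
        N / (g : ℤ) ^ 2 ∣ q.1 - (r : ℤ) * q.2 ∧ |q.1| ≤ M} with hS
  have hSfin : ∀ g r, (S g r).Finite := by
    intro g r
    apply Set.Finite.image
    exact (sols_finite D _ hD M).subset (fun q hq => ⟨hq.1, hq.2.2⟩)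
  have hsub : {q : ℤ × ℤ | q.1 ^ 2 - D * q.2 ^ 2 = N ∧ |q.1| ≤ M} ⊆
      ⋃ g ∈ G, ⋃ r ∈ R g, S g r := by
    rintro ⟨X, w⟩ ⟨h1, h2⟩
    simp only at h1 h2
    obtain ⟨g, N', x, y, r, hg, hNN, hX, hw, hxy, hrN, hd1, hd2⟩ := sol_decomp D N X w hN h1
    have hg0 : (g : ℤ) ^ 2 ≠ 0 := by
      have : (g : ℤ) ≠ 0 := by exact_mod_cast (by omega : g ≠ 0)
      exact pow_ne_zero 2 this
    have hdiv : N / (g : ℤ) ^ 2 = N' := by
      rw [hNN, Int.mul_ediv_cancel_left _ hg0]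
    simp only [Set.mem_iUnion]
    refine ⟨g, ?_, r, ?_, ?_⟩
    · rw [hG, Finset.mem_filter, Nat.mem_divisors]
      refine ⟨⟨?_, by simpa using hN⟩, ?_⟩
      · rw [← Int.natCast_dvd]
        rw [hNN, sq, mul_assoc]
        exact dvd_mul_right _ _
      · rw [hNN]; exact dvd_mul_right _ _
    · simp only [hR, Finset.mem_filter, Finset.mem_range]
      rw [hdiv]
      exact ⟨hrN, Int.natAbs_dvd.2 hd2⟩
    · simp only [hS]
      refine ⟨(x, y), ?_, ?_⟩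
      · simp only [Set.mem_ofPred_eq]
        rw [hdiv]
        refine ⟨hxy, hd1, ?_⟩
        have h3 : |X| = (g : ℤ) * |x| := by
          rw [hX, abs_mul, Nat.abs_cast]
        have h4 : (1 : ℤ) ≤ (g : ℤ) := by exact_mod_cast hg
        have h5 := abs_nonneg x
        nlinarith
      · simp only [hX, hw]
  have hfinU : (⋃ g ∈ G, ⋃ r ∈ R g, S g r).Finite := by
    apply Set.Finite.biUnion (Finset.finite_toSet G)
    intro g _
    apply Set.Finite.biUnion (Finset.finite_toSet (R g))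
    intro r _
    exact hSfin g r
  have h1 : {q : ℤ × ℤ | q.1 ^ 2 - D * q.2 ^ 2 = N ∧ |q.1| ≤ M}.ncard ≤
      ∑ g ∈ G, ∑ r ∈ R g, (S g r).ncard := by
    refine (Set.ncard_le_ncard hsub hfinU).trans ?_
    refine (Finset.set_ncard_biUnion_le G _).trans ?_
    apply Finset.sum_le_sum
    intro g _
    exact Finset.set_ncard_biUnion_le (R g) _
  have h2 : ∀ g ∈ G, ∀ r ∈ R g, ((S g r).ncard : ℝ) ≤ C * log M := by
    intro g hg r hr
    have hgd : (g : ℤ) ^ 2 ∣ N := (Finset.mem_filter.1 hg).2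
    obtain ⟨N', hN'⟩ := hgd
    have hg0 : (g : ℤ) ^ 2 ≠ 0 := by
      intro h0
      apply hN
      rw [hN', h0, zero_mul]
    have hdiv : N / (g : ℤ) ^ 2 = N' := by
      rw [hN', Int.mul_ediv_cancel_left _ hg0]
    have hN'0 : N' ≠ 0 := by
      rintro rfl
      apply hN
      rw [hN', mul_zero]
    have hr2 : N' ∣ (r : ℤ) ^ 2 - D := by
      have := (Finset.mem_filter.1 hr).2
      rw [hdiv] at this
      exact Int.natAbs_dvd.1 this
    have hN'M : |N'| ≤ M := by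
      have h3 : |N| = (g : ℤ) ^ 2 * |N'| := by
        rw [hN', abs_mul, abs_of_nonneg (sq_nonneg _)]
      have h4 : 1 ≤ (g : ℤ) ^ 2 := by
        have := sq_nonneg (g : ℤ)
        omega
      have h5 := abs_nonneg N'
      nlinarith
    have h3 := hcl D N' r hD hD1 hN'0 hr2 M hM hN'M
    refine le_trans ?_ h3
    have h4 : (S g r).ncard ≤ {q : ℤ × ℤ | q.1 ^ 2 - D * q.2 ^ 2 = N / (g : ℤ) ^ 2 ∧
        N / (g : ℤ) ^ 2 ∣ q.1 - (r : ℤ) * q.2 ∧ |q.1| ≤ M}.ncard := by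
      apply Set.ncard_image_le
      exact (sols_finite D _ hD M).subset (fun q hq => ⟨hq.1, hq.2.2⟩)
    rw [hdiv] at h4
    exact_mod_cast h4
  have h3 : ∀ g ∈ G, ((R g).card : ℝ) ≤ 2 * tau N.natAbs := by
    intro g hg
    have hgd : (g : ℤ) ^ 2 ∣ N := (Finset.mem_filter.1 hg).2
    obtain ⟨N', hN'⟩ := hgd
    have hg0 : (g : ℤ) ^ 2 ≠ 0 := by
      intro h0
      apply hN
      rw [hN', h0, zero_mul]
    have hdiv : N / (g : ℤ) ^ 2 = N' := by
      rw [hN', Int.mul_ediv_cancel_left _ hg0]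
    have hN'0 : N' ≠ 0 := by
      rintro rfl
      apply hN
      rw [hN', mul_zero]
    have h4 : (R g).card ≤ 2 * tau N'.natAbs := by
      have := nsqrt_le D hD1 N'.natAbs (by simpa using hN'0)
      refine le_trans (le_of_eq ?_) this
      simp only [hR, nsqrt]
      rw [hdiv]
    have h5 : tau N'.natAbs ≤ tau N.natAbs := by
      apply tau_le_of_dvd _ (by simpa using hN)
      rw [Int.natAbs_dvd_natAbs, hN']
      exact dvd_mul_left _ _
    have h6 : (R g).card ≤ 2 * tau N.natAbs := h4.trans (Nat.mul_le_mul_left _ h5)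
    exact_mod_cast h6
  have h4 : (G.card : ℝ) ≤ tau N.natAbs := by
    have : G.card ≤ tau N.natAbs := Finset.card_filter_le _ _
    exact_mod_cast this
  have h5 : ({q : ℤ × ℤ | q.1 ^ 2 - D * q.2 ^ 2 = N ∧ |q.1| ≤ M}.ncard : ℝ) ≤
      ∑ g ∈ G, ∑ r ∈ R g, ((S g r).ncard : ℝ) := by exact_mod_cast h1
  have hCl : 0 ≤ C * log M := by positivity
  calc _ ≤ ∑ g ∈ G, ∑ r ∈ R g, ((S g r).ncard : ℝ) := h5
    _ ≤ ∑ g ∈ G, ∑ r ∈ R g, C * log M :=
        Finset.sum_le_sum fun g hg => Finset.sum_le_sum fun r hr => h2 g hg r hr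
    _ = ∑ g ∈ G, ((R g).card : ℝ) * (C * log M) := by
        apply Finset.sum_congr rfl
        intro g _
        rw [Finset.sum_const, nsmul_eq_mul]
    _ ≤ ∑ g ∈ G, (2 * tau N.natAbs) * (C * log M) :=
        Finset.sum_le_sum fun g hg => mul_le_mul_of_nonneg_right (h3 g hg) hCl
    _ = (G.card : ℝ) * ((2 * tau N.natAbs) * (C * log M)) := by
        rw [Finset.sum_const, nsmul_eq_mul]
    _ ≤ (tau N.natAbs : ℝ) * ((2 * tau N.natAbs) * (C * log M)) :=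
        mul_le_mul_of_nonneg_right h4 (by positivity)
    _ = 2 * C * (tau N.natAbs : ℝ) ^ 2 * log M := by ring

/-- The general case: `D = s^2 D₀` with `D₀` squarefree, `w = s z`. -/
theorem pell_count : ∃ C : ℝ, 0 < C ∧ ∀ D N : ℤ, D ≠ 0 → N ≠ 0 →
    ∀ M : ℕ, 3 ≤ M → |N| ≤ M →
    ({X : ℤ | (∃ z : ℤ, X ^ 2 - D * z ^ 2 = N) ∧ |X| ≤ M}.ncard : ℝ) ≤
      C * (tau N.natAbs : ℝ) ^ 2 * log M := by
  obtain ⟨C, hC, h⟩ := pell_sqfree
  refine ⟨C, hC, ?_⟩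
  intro D N hD hN M hM hNM
  obtain ⟨a, b, hab, hsq⟩ := Nat.sq_mul_squarefree D.natAbs
  have ha0 : a ≠ 0 := hsq.ne_zero
  -- squarefree part with sign
  obtain ⟨D₀, hD₀, hD₀sq⟩ : ∃ D₀ : ℤ, D = (b : ℤ) ^ 2 * D₀ ∧ Squarefree D₀ := by
    rcases Int.natAbs_eq D with h1 | h1
    · refine ⟨a, ?_, ?_⟩
      · rw [h1, ← hab]; push_cast; ring
      · rwa [Int.squarefree_natCast]
    · refine ⟨-a, ?_, ?_⟩
      · rw [h1, ← hab]; push_cast; ring
      · rw [← Int.squarefree_natAbs, Int.natAbs_neg, Int.natAbs_natCast]; exact hsq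
  have hD₀0 : D₀ ≠ 0 := by
    rintro rfl
    apply hD
    rw [hD₀, mul_zero]
  refine le_trans ?_ (h D₀ N hD₀0 hD₀sq hN M hM hNM)
  have hfin := sols_finite D₀ N hD₀0 M
  have hsub : {X : ℤ | (∃ z : ℤ, X ^ 2 - D * z ^ 2 = N) ∧ |X| ≤ M} ⊆
      Prod.fst '' {q : ℤ × ℤ | q.1 ^ 2 - D₀ * q.2 ^ 2 = N ∧ |q.1| ≤ M} := by
    rintro X ⟨⟨z, hz⟩, hX⟩
    refine ⟨(X, b * z), ⟨?_, hX⟩, rfl⟩
    simp only
    rw [← hz, hD₀]; ring
  have h1 := (Set.ncard_le_ncard hsub (hfin.image _)).trans (Set.ncard_image_le hfin)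
  exact_mod_cast h1

end Pool.MP_aab329_nt.SerreQ
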