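import Pool.Agent.Lib.MP_aab329_nt.Q.MultiVar
import Pool.Agent.Lib.MP_aab329_nt.Q.Pell
import Pool.Agent.Lib.MP_aab329_nt.R.EList

/-!
The count for an integral discriminant with a factor `a A^2 + b A + d`.
-/

set_option autoImplicit false

namespace Pool.MP_aab329_nt.SerreQ

open Finset Real

/-- The special factor. -/
noncomputable def quadA {n : ℕ} {R : Type*} [CommRing R] (A : MvPolynomial (Fin (n + 1)) R)
    (a b d : MvPolynomial (Fin n) R) : MvPolynomial (Fin (n + 1)) R :=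
  MvPolynomial.rename Fin.succ a * A ^ 2 + MvPolynomial.rename Fin.succ b * A +
    MvPolynomial.rename Fin.succ d

/-- For a fixed `x'` where the leading coefficient of `A` in `x₀` does not vanish every value of
`A` is taken at most `deg A` times. -/
theorem exists_lc {n : ℕ} (A : MvPolynomial (Fin (n + 1)) ℤ) (hA : 1 ≤ A.degreeOf 0) :
    ∃ ℓ : MvPolynomial (Fin n) ℤ, ℓ ≠ 0 ∧ ∀ x' : Fin n → ℤ, MvPolynomial.eval x' ℓ ≠ 0 →
      ∀ α : ℤ, {t : ℤ | MvPolynomial.eval (Fin.cons t x' : Fin (n + 1) → ℤ) A = α}.Finite ∧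
        {t : ℤ | MvPolynomial.eval (Fin.cons t x' : Fin (n + 1) → ℤ) A = α}.ncard ≤
          A.degreeOf 0 := by
  classical
  set P := MvPolynomial.finSuccEquiv ℤ n A with hP
  have hdeg : P.natDegree = A.degreeOf 0 := by
    rw [hP, MvPolynomial.natDegree_finSuccEquiv]
  have hP0 : P ≠ 0 := by
    intro h0
    rw [h0, Polynomial.natDegree_zero] at hdeg
    omega
  refine ⟨P.leadingCoeff, Polynomial.leadingCoeff_ne_zero.2 hP0, ?_⟩
  intro x' hx' α
  set Q := P.map (MvPolynomial.eval x') with hQ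
  have hQdeg : Q.natDegree = A.degreeOf 0 := by
    rw [hQ, ← hdeg]
    exact Polynomial.natDegree_map_of_leadingCoeff_ne_zero _ hx'
  have hQa : (Q - Polynomial.C α).natDegree = A.degreeOf 0 := by
    rw [Polynomial.natDegree_sub_C, hQdeg]
  have hQ0 : Q - Polynomial.C α ≠ 0 := by
    intro h0
    rw [h0, Polynomial.natDegree_zero] at hQa
    omega
  have hsub : {t : ℤ | MvPolynomial.eval (Fin.cons t x' : Fin (n + 1) → ℤ) A = α} ⊆
      (↑((Q - Polynomial.C α).roots.toFinset) : Set ℤ) := by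
    intro t ht
    simp only [Set.mem_ofPred_eq] at ht
    rw [MvPolynomial.eval_eq_eval_mv_eval'] at ht
    simp only [Finset.mem_coe, Multiset.mem_toFinset]
    rw [Polynomial.mem_roots hQ0, Polynomial.IsRoot.def, Polynomial.eval_sub, Polynomial.eval_C,
      sub_eq_zero]
    exact ht
  refine ⟨(Finset.finite_toSet _).subset hsub, ?_⟩
  refine (Set.ncard_le_ncard hsub (Finset.finite_toSet _)).trans ?_
  rw [Set.ncard_coe_finset]
  refine (Multiset.toFinset_card_le _).trans ?_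
  refine (Polynomial.card_roots' _).trans ?_
  rw [hQa]

private theorem fse_ren {n : ℕ} {R : Type*} [CommRing R] (r : MvPolynomial (Fin n) R) :
    MvPolynomial.finSuccEquiv R n (MvPolynomial.rename Fin.succ r) = Polynomial.C r := by
  have h : ((MvPolynomial.finSuccEquiv R n :
        MvPolynomial (Fin (n + 1)) R →+* Polynomial (MvPolynomial (Fin n) R)).comp
      ((MvPolynomial.rename Fin.succ : MvPolynomial (Fin n) R →ₐ[R] _) :
        MvPolynomial (Fin n) R →+* MvPolynomial (Fin (n + 1)) R)) =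
      (Polynomial.C : MvPolynomial (Fin n) R →+* Polynomial (MvPolynomial (Fin n) R)) := by
    apply MvPolynomial.ringHom_ext
    · intro a; simp [MvPolynomial.finSuccEquiv_apply]
    · intro i; simp [MvPolynomial.finSuccEquiv_X_succ]
  exact congrArg (fun g => g r) h

theorem quadA_ne {n : ℕ} (A : MvPolynomial (Fin (n + 1)) ℤ) (a b d : MvPolynomial (Fin n) ℤ)
    (hA : 1 ≤ A.degreeOf 0) (ha : a ≠ 0) : quadA A a b d ≠ 0 := by
  intro h0
  set P := MvPolynomial.finSuccEquiv ℤ n A with hP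
  have hdeg : P.natDegree = A.degreeOf 0 := by
    rw [hP, MvPolynomial.natDegree_finSuccEquiv]
  have hP0 : P ≠ 0 := by
    intro h0
    rw [h0, Polynomial.natDegree_zero] at hdeg
    omega
  have h1 : Polynomial.C a * P ^ 2 + Polynomial.C b * P + Polynomial.C d = 0 := by
    have := congrArg (MvPolynomial.finSuccEquiv ℤ n) h0
    simpa [quadA, fse_ren, ← hP] using this
  have h2 := congrArg (fun p => Polynomial.coeff p (2 * P.natDegree)) h1
  simp only [Polynomial.coeff_add, Polynomial.coeff_C_mul, Polynomial.coeff_zero] at h2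
  have h3 : (P ^ 2).coeff (2 * P.natDegree) = P.leadingCoeff ^ 2 := by
    rw [← Polynomial.leadingCoeff_pow, Polynomial.leadingCoeff, Polynomial.natDegree_pow]
  have h4 : P.coeff (2 * P.natDegree) = 0 := by
    apply Polynomial.coeff_eq_zero_of_natDegree_lt
    omega
  have h5 : (Polynomial.C d).coeff (2 * P.natDegree) = 0 := by
    apply Polynomial.coeff_eq_zero_of_natDegree_lt
    rw [Polynomial.natDegree_C]
    omega
  rw [h3, h4, h5, mul_zero, add_zero, add_zero] at h2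
  have h6 : P.leadingCoeff ≠ 0 := Polynomial.leadingCoeff_ne_zero.2 hP0
  exact (mul_ne_zero ha (pow_ne_zero 2 h6)) h2

private theorem eval_ren {n : ℕ} (r : MvPolynomial (Fin n) ℤ) (t : ℤ) (x' : Fin n → ℤ) :
    MvPolynomial.eval (Fin.cons t x' : Fin (n + 1) → ℤ) (MvPolynomial.rename Fin.succ r) =
      MvPolynomial.eval x' r := by
  rw [MvPolynomial.eval_rename]
  congr 1

private theorem eval_quadA {n : ℕ} (A : MvPolynomial (Fin (n + 1)) ℤ)
    (a b d : MvPolynomial (Fin n) ℤ) (t : ℤ) (x' : Fin n → ℤ) :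
    MvPolynomial.eval (Fin.cons t x' : Fin (n + 1) → ℤ) (quadA A a b d) =
      MvPolynomial.eval x' a * MvPolynomial.eval (Fin.cons t x' : Fin (n + 1) → ℤ) A ^ 2 +
      MvPolynomial.eval x' b * MvPolynomial.eval (Fin.cons t x' : Fin (n + 1) → ℤ) A +
      MvPolynomial.eval x' d := by
  simp only [quadA, map_add, map_mul, map_pow, eval_ren]

private theorem cons_mem {n : ℕ} {N : ℕ} {t : ℤ} {x' : Fin n → ℤ} (ht : |t| ≤ N)
    (hx' : x' ∈ boxn n N) : (Fin.cons t x' : Fin (n + 1) → ℤ) ∈ boxn (n + 1) N := by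
  simp only [boxn, Fintype.mem_piFinset] at hx' ⊢
  intro i
  refine Fin.cases ?_ (fun j => ?_) i
  · rw [Fin.cons_zero, Finset.mem_Icc]
    exact abs_le.1 ht
  · rw [Fin.cons_succ]
    exact hx' j

/-- One fibre: for fixed `x'` with `a(x'), Δ(x'), R(x'), ℓ(x') ≠ 0` the number of `x₀`. -/
theorem fibre_count {n : ℕ} (A : MvPolynomial (Fin (n + 1)) ℤ) (a b d : MvPolynomial (Fin n) ℤ)
    (G : MvPolynomial (Fin (n + 1)) ℤ) (hA : 1 ≤ A.degreeOf 0)
    (U V : MvPolynomial (Fin (n + 1)) ℤ) (R : MvPolynomial (Fin n) ℤ)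
    (hUV : U * quadA A a b d + V * G = MvPolynomial.rename Fin.succ R) :
    ∃ (ℓ : MvPolynomial (Fin n) ℤ) (C : ℝ), ℓ ≠ 0 ∧ 0 < C ∧ ∀ N : ℕ, 3 ≤ N →
      ∀ x' ∈ boxn n N, MvPolynomial.eval x' a ≠ 0 → MvPolynomial.eval x' ℓ ≠ 0 →
      MvPolynomial.eval x' (b ^ 2 - 4 * a * d) ≠ 0 → MvPolynomial.eval x' R ≠ 0 →
      ({t : ℤ | |t| ≤ N ∧
        MvPolynomial.eval (Fin.cons t x' : Fin (n + 1) → ℤ) (quadA A a b d) ≠ 0 ∧
        MvPolynomial.eval (Fin.cons t x' : Fin (n + 1) → ℤ) G ≠ 0 ∧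
        IsSquare (MvPolynomial.eval (Fin.cons t x' : Fin (n + 1) → ℤ) (quadA A a b d) *
          MvPolynomial.eval (Fin.cons t x' : Fin (n + 1) → ℤ) G)}.ncard : ℝ) ≤
        C * (tau (MvPolynomial.eval x' R).natAbs : ℝ) *
          (tau (MvPolynomial.eval x' (b ^ 2 - 4 * a * d)).natAbs : ℝ) ^ 2 * log N := by
  classical
  obtain ⟨ℓ, hℓ0, hℓ⟩ := exists_lc A hA
  obtain ⟨C₁, hC₁, hpell⟩ := pell_count
  obtain ⟨E₁, K₁, hK₁, hb₁⟩ := eval_le A
  obtain ⟨E₂, K₂, hK₂, hb₂⟩ := eval_le a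
  obtain ⟨E₃, K₃, hK₃, hb₃⟩ := eval_le b
  obtain ⟨E₄, K₄, hK₄, hb₄⟩ := eval_le (b ^ 2 - 4 * a * d)
  set K : ℕ := ⌈2 * K₁ * K₂ + K₃ + K₄ + 3⌉₊ with hK
  set E : ℕ := E₁ + E₂ + E₃ + E₄ with hE
  have hKr : 2 * K₁ * K₂ + K₃ + K₄ + 3 ≤ (K : ℝ) := Nat.le_ceil _
  have hK12 : 0 ≤ K₁ * K₂ := by positivity
  have hK3 : (3 : ℝ) ≤ K := by nlinarith
  have hlogK : 0 ≤ log (K : ℝ) := Real.log_nonneg (by linarith)
  set m := A.degreeOf 0 with hm
  refine ⟨ℓ, 2 * (C₁ * (log (K : ℝ) + E) * m) + 1, hℓ0, by positivity, ?_⟩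
  intro N hN x' hx' ha hℓx hΔ hR
  have hNr : (3 : ℝ) ≤ (N : ℝ) := by exact_mod_cast hN
  have hlogN : 1 ≤ log (N : ℝ) := by
    rw [Real.le_log_iff_exp_le (by positivity)]
    have := Real.exp_one_lt_d9
    linarith
  set M : ℕ := K * N ^ E with hM
  have hMr : (M : ℝ) = K * (N : ℝ) ^ E := by rw [hM]; push_cast; rfl
  have hpowE : ∀ F : ℕ, F ≤ E → (N : ℝ) ^ F ≤ (N : ℝ) ^ E := fun F hF =>
    pow_le_pow_right₀ (by linarith) hF
  have hNE1 : 1 ≤ (N : ℝ) ^ E := one_le_pow₀ (by linarith)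
  have hM3r : (3 : ℝ) ≤ (M : ℝ) := by
    rw [hMr]
    nlinarith
  have hM3 : 3 ≤ M := by exact_mod_cast hM3r
  have hlogM : log (M : ℝ) ≤ (log (K : ℝ) + E) * log N := by
    rw [hMr, Real.log_mul (by positivity) (by positivity), Real.log_pow]
    nlinarith
  set ax := MvPolynomial.eval x' a with hax
  set bx := MvPolynomial.eval x' b with hbx
  set dx := MvPolynomial.eval x' d with hdx
  set Δ := MvPolynomial.eval x' (b ^ 2 - 4 * a * d) with hΔd
  set Rx := MvPolynomial.eval x' R with hRx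
  have hΔeq : Δ = bx ^ 2 - 4 * ax * dx := by
    rw [hΔd, map_sub, map_pow, map_mul, map_mul]
    simp [hax, hbx, hdx]
  have hN1 : 1 ≤ N := by omega
  have haxb := hb₂ N hN1 x' hx'
  have hbxb := hb₃ N hN1 x' hx'
  have hΔb := hb₄ N hN1 x' hx'
  have hΔM : |Δ| ≤ M := by
    have h1 : |((Δ : ℤ) : ℝ)| ≤ (M : ℝ) := by
      refine hΔb.trans ?_
      rw [hMr]
      have := hpowE E₄ (by omega)
      have h2 : K₄ ≤ (K : ℝ) := by nlinarith
      have h3 : 0 ≤ (N : ℝ) ^ E₄ := by positivity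
      calc K₄ * (N : ℝ) ^ E₄ ≤ K * (N : ℝ) ^ E₄ := mul_le_mul_of_nonneg_right h2 h3
        _ ≤ K * (N : ℝ) ^ E := mul_le_mul_of_nonneg_left this (by linarith)
    exact_mod_cast h1
  -- the sets
  set Es : Finset ℤ := (Rx.natAbs.divisors.image (fun k : ℕ => (k : ℤ))) ∪
    (Rx.natAbs.divisors.image (fun k : ℕ => -(k : ℤ))) with hEs
  have hEscard : Es.card ≤ 2 * tau Rx.natAbs := by
    refine (Finset.card_union_le _ _).trans ?_
    have h1 := Finset.card_image_le (s := Rx.natAbs.divisors) (f := fun k : ℕ => (k : ℤ))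
    have h2 := Finset.card_image_le (s := Rx.natAbs.divisors) (f := fun k : ℕ => -(k : ℤ))
    unfold tau
    omega
  have hEs0 : ∀ e ∈ Es, e ≠ 0 := by
    intro e he
    rw [hEs, Finset.mem_union, Finset.mem_image, Finset.mem_image] at he
    rcases he with ⟨k, hk, rfl⟩ | ⟨k, hk, rfl⟩
    · have := Nat.pos_of_mem_divisors hk
      omega
    · have := Nat.pos_of_mem_divisors hk
      omega
  have hXfin : ∀ e : ℤ, {X : ℤ | (∃ z : ℤ, X ^ 2 - (4 * ax * e) * z ^ 2 = Δ) ∧ |X| ≤ M}.Finite := by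
    intro e
    apply (Set.finite_Icc (-(M : ℤ)) (M : ℤ)).subset
    rintro X ⟨-, hX⟩
    exact abs_le.1 hX
  set XS : ℤ → Finset ℤ := fun e => (hXfin e).toFinset with hXS
  set T : ℤ → Set ℤ := fun X =>
    {t : ℤ | 2 * ax * MvPolynomial.eval (Fin.cons t x' : Fin (n + 1) → ℤ) A + bx = X} with hT
  have hTfin : ∀ X, (T X).Finite ∧ (T X).ncard ≤ m := by
    intro X
    rcases Set.eq_empty_or_nonempty (T X) with hE | ⟨t₀, ht₀⟩
    · rw [hE]; simp
    · have hsub : T X ⊆ {t : ℤ | MvPolynomial.eval (Fin.cons t x' : Fin (n + 1) → ℤ) A =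
          MvPolynomial.eval (Fin.cons t₀ x' : Fin (n + 1) → ℤ) A} := by
        intro t ht
        simp only [hT, Set.mem_ofPred_eq] at ht ht₀ ⊢
        have h1 : 2 * ax * MvPolynomial.eval (Fin.cons t x' : Fin (n + 1) → ℤ) A =
          2 * ax * MvPolynomial.eval (Fin.cons t₀ x' : Fin (n + 1) → ℤ) A := by linarith
        exact mul_left_cancel₀ (mul_ne_zero two_ne_zero ha) h1
      have h2 := hℓ x' hℓx (MvPolynomial.eval (Fin.cons t₀ x' : Fin (n + 1) → ℤ) A)
      exact ⟨h2.1.subset hsub, (Set.ncard_le_ncard hsub h2.1).trans h2.2⟩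
  have hsub : {t : ℤ | |t| ≤ N ∧
        MvPolynomial.eval (Fin.cons t x' : Fin (n + 1) → ℤ) (quadA A a b d) ≠ 0 ∧
        MvPolynomial.eval (Fin.cons t x' : Fin (n + 1) → ℤ) G ≠ 0 ∧
        IsSquare (MvPolynomial.eval (Fin.cons t x' : Fin (n + 1) → ℤ) (quadA A a b d) *
          MvPolynomial.eval (Fin.cons t x' : Fin (n + 1) → ℤ) G)} ⊆
      ⋃ e ∈ Es, ⋃ X ∈ XS e, T X := by
    rintro t ⟨ht, hq, hg, hsq⟩
    have hp : ∀ p : ℕ, p.Prime →
        (p : ℤ) ∣ MvPolynomial.eval (Fin.cons t x' : Fin (n + 1) → ℤ) (quadA A a b d) →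
        (p : ℤ) ∣ MvPolynomial.eval (Fin.cons t x' : Fin (n + 1) → ℤ) G → (p : ℤ) ∣ Rx := by
      intro p _ h1 h2
      have h3 := congrArg (MvPolynomial.eval (Fin.cons t x' : Fin (n + 1) → ℤ)) hUV
      rw [map_add, map_mul, map_mul, eval_ren] at h3
      rw [hRx, ← h3]
      exact dvd_add (Dvd.dvd.mul_left h1 _) (Dvd.dvd.mul_left h2 _)
    obtain ⟨e, z, w, he0, hediv, h1, h2⟩ := SerreR.two_squares_times _ _ Rx hq hg hR hsq hp
    rw [eval_quadA] at h1
    set α := MvPolynomial.eval (Fin.cons t x' : Fin (n + 1) → ℤ) A with hα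
    simp only [Set.mem_iUnion]
    refine ⟨e, ?_, 2 * ax * α + bx, ?_, ?_⟩
    · rw [hEs, Finset.mem_union, Finset.mem_image, Finset.mem_image]
      rcases Int.natAbs_eq e with h3 | h3
      · left; exact ⟨e.natAbs, hediv, h3.symm⟩
      · right; exact ⟨e.natAbs, hediv, h3.symm⟩
    · simp only [hXS, Set.Finite.mem_toFinset, Set.mem_ofPred_eq]
      refine ⟨⟨z, ?_⟩, ?_⟩
      · rw [hΔeq]
        linear_combination (4 * ax) * h1
      · have hαb := hb₁ N hN1 _ (cons_mem ht hx')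
        rw [← hα] at hαb
        have h3 : |((2 * ax * α + bx : ℤ) : ℝ)| ≤ (M : ℝ) := by
          push_cast
          calc |2 * (ax : ℝ) * α + bx| ≤ |2 * (ax : ℝ) * α| + |(bx : ℝ)| := abs_add_le _ _
            _ = 2 * |(ax : ℝ)| * |(α : ℝ)| + |(bx : ℝ)| := by
                rw [abs_mul, abs_mul, abs_two]
            _ ≤ 2 * (K₂ * (N : ℝ) ^ E₂) * (K₁ * (N : ℝ) ^ E₁) + K₃ * (N : ℝ) ^ E₃ := by
                gcongr
            _ = 2 * K₁ * K₂ * (N : ℝ) ^ (E₁ + E₂) + K₃ * (N : ℝ) ^ E₃ := by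
                rw [pow_add]; ring
            _ ≤ 2 * K₁ * K₂ * (N : ℝ) ^ E + K₃ * (N : ℝ) ^ E := by
                have h4 := hpowE (E₁ + E₂) (by omega)
                have h5 := hpowE E₃ (by omega)
                gcongr
            _ = (2 * K₁ * K₂ + K₃) * (N : ℝ) ^ E := by ring
            _ ≤ K * (N : ℝ) ^ E := by
                apply mul_le_mul_of_nonneg_right _ (by positivity)
                linarith
            _ = M := hMr.symm
        exact_mod_cast h3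
    · simp only [hT, Set.mem_ofPred_eq]
      rw [← hα]
  have hfinU : (⋃ e ∈ Es, ⋃ X ∈ XS e, T X).Finite := by
    apply Set.Finite.biUnion (Finset.finite_toSet Es)
    intro e _
    apply Set.Finite.biUnion (Finset.finite_toSet (XS e))
    intro X _
    exact (hTfin X).1
  have h1 : {t : ℤ | |t| ≤ N ∧
        MvPolynomial.eval (Fin.cons t x' : Fin (n + 1) → ℤ) (quadA A a b d) ≠ 0 ∧
        MvPolynomial.eval (Fin.cons t x' : Fin (n + 1) → ℤ) G ≠ 0 ∧
        IsSquare (MvPolynomial.eval (Fin.cons t x' : Fin (n + 1) → ℤ) (quadA A a b d) *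
          MvPolynomial.eval (Fin.cons t x' : Fin (n + 1) → ℤ) G)}.ncard ≤
      ∑ e ∈ Es, ∑ X ∈ XS e, (T X).ncard := by
    refine (Set.ncard_le_ncard hsub hfinU).trans ?_
    refine (Finset.set_ncard_biUnion_le Es _).trans ?_
    apply Finset.sum_le_sum
    intro e _
    exact Finset.set_ncard_biUnion_le (XS e) _
  have h2 : ∀ e ∈ Es, ((XS e).card : ℝ) ≤ C₁ * (tau Δ.natAbs : ℝ) ^ 2 * log M := by
    intro e he
    have h3 := hpell (4 * ax * e) Δ (mul_ne_zero (mul_ne_zero (by norm_num) ha) (hEs0 e he)) hΔ M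
      hM3 hΔM
    refine le_trans (le_of_eq ?_) h3
    simp only [hXS]
    rw [Set.ncard_eq_toFinset_card _ (hXfin e)]
  have hτ : 0 ≤ C₁ * (tau Δ.natAbs : ℝ) ^ 2 := by positivity
  have hlogM0 : 0 ≤ log (M : ℝ) := Real.log_nonneg (by linarith)
  have hlogN0 : 0 ≤ log (N : ℝ) := by linarith
  have h3 : (({t : ℤ | |t| ≤ N ∧
        MvPolynomial.eval (Fin.cons t x' : Fin (n + 1) → ℤ) (quadA A a b d) ≠ 0 ∧
        MvPolynomial.eval (Fin.cons t x' : Fin (n + 1) → ℤ) G ≠ 0 ∧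
        IsSquare (MvPolynomial.eval (Fin.cons t x' : Fin (n + 1) → ℤ) (quadA A a b d) *
          MvPolynomial.eval (Fin.cons t x' : Fin (n + 1) → ℤ) G)}.ncard : ℕ) : ℝ) ≤
      ∑ e ∈ Es, ∑ X ∈ XS e, ((T X).ncard : ℝ) := by exact_mod_cast h1
  have hmr : (0 : ℝ) ≤ m := by positivity
  have hEscard' : (Es.card : ℝ) ≤ 2 * tau Rx.natAbs := by exact_mod_cast hEscard
  calc _ ≤ ∑ e ∈ Es, ∑ X ∈ XS e, ((T X).ncard : ℝ) := h3
    _ ≤ ∑ e ∈ Es, ∑ X ∈ XS e, (m : ℝ) := by
        apply Finset.sum_le_sum; intro e _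
        apply Finset.sum_le_sum; intro X _
        exact_mod_cast (hTfin X).2
    _ = ∑ e ∈ Es, ((XS e).card : ℝ) * m := by
        apply Finset.sum_congr rfl; intro e _
        rw [Finset.sum_const, nsmul_eq_mul]
    _ ≤ ∑ e ∈ Es, (C₁ * (tau Δ.natAbs : ℝ) ^ 2 * log M) * m := by
        apply Finset.sum_le_sum; intro e he
        exact mul_le_mul_of_nonneg_right (h2 e he) hmr
    _ = (Es.card : ℝ) * ((C₁ * (tau Δ.natAbs : ℝ) ^ 2 * log M) * m) := by
        rw [Finset.sum_const, nsmul_eq_mul]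
    _ ≤ (2 * tau Rx.natAbs) * ((C₁ * (tau Δ.natAbs : ℝ) ^ 2 * ((log (K : ℝ) + E) * log N)) * m) := by
        gcongr
    _ = (2 * (C₁ * (log (K : ℝ) + E) * m)) * (tau Rx.natAbs : ℝ) * (tau Δ.natAbs : ℝ) ^ 2 *
          log N := by ring
    _ ≤ _ := by
        gcongr
        linarith

private theorem log_ge_one {N : ℕ} (hN : 3 ≤ N) : 1 ≤ log (N : ℝ) := by
  have hNr : (3 : ℝ) ≤ (N : ℝ) := by exact_mod_cast hN
  rw [Real.le_log_iff_exp_le (by positivity)]
  have := Real.exp_one_lt_d9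
  linarith

private theorem zeros_ren {n : ℕ} (r : MvPolynomial (Fin n) ℤ) (hr : r ≠ 0) : ∃ C : ℝ, 0 < C ∧
    ∀ N : ℕ, 1 ≤ N →
      (((boxn (n + 1) N).filter
        (fun x => MvPolynomial.eval x (MvPolynomial.rename Fin.succ r) = 0)).card : ℝ) ≤
        C * (N : ℝ) ^ n := by
  apply zeros_le
  rw [Ne, map_eq_zero_iff _ (MvPolynomial.rename_injective _ (Fin.succ_injective n))]
  exact hr

/-- The count. Points where `quadA`, `G`, `a`, `ℓ`, `b^2 - 4 a d` or `R` vanish: `zeros_le`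
(for polynomials in `x'` use `rename Fin.succ`). The others: `fibre_count` and `multi_var` for
`R (b^2 - 4 a d)` with exponent 3. -/
theorem main_q {n : ℕ} (A : MvPolynomial (Fin (n + 1)) ℤ) (a b d : MvPolynomial (Fin n) ℤ)
    (G : MvPolynomial (Fin (n + 1)) ℤ) (hA : 1 ≤ A.degreeOf 0) (ha : a ≠ 0)
    (hΔ : b ^ 2 - 4 * a * d ≠ 0) (hG : G ≠ 0)
    (U V : MvPolynomial (Fin (n + 1)) ℤ) (R : MvPolynomial (Fin n) ℤ) (hR : R ≠ 0)
    (hUV : U * quadA A a b d + V * G = MvPolynomial.rename Fin.succ R) :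
    ∃ (c : ℕ) (C : ℝ), 0 < C ∧ ∀ N : ℕ, 3 ≤ N →
      (((boxn (n + 1) N).filter (fun x => IsSquare (MvPolynomial.eval x (quadA A a b d) *
        MvPolynomial.eval x G))).card : ℝ) ≤ C * (N : ℝ) ^ n * (log N) ^ c := by
  classical
  obtain ⟨ℓ, C₁, hℓ, hC₁, hfib⟩ := fibre_count A a b d G hA U V R hUV
  obtain ⟨K₁, hK₁, hz₁⟩ := zeros_le (quadA A a b d) (quadA_ne A a b d hA ha)
  obtain ⟨K₂, hK₂, hz₂⟩ := zeros_le G hG
  obtain ⟨K₃, hK₃, hz₃⟩ := zeros_ren a ha
  obtain ⟨K₄, hK₄, hz₄⟩ := zeros_ren ℓ hℓ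
  obtain ⟨K₅, hK₅, hz₅⟩ := zeros_ren (b ^ 2 - 4 * a * d) hΔ
  obtain ⟨K₆, hK₆, hz₆⟩ := zeros_ren R hR
  obtain ⟨c, C₂, hC₂, hmv⟩ := multi_var n (R * (b ^ 2 - 4 * a * d)) (mul_ne_zero hR hΔ) 3
  set D := b ^ 2 - 4 * a * d with hD
  refine ⟨c + 1, K₁ + K₂ + K₃ + K₄ + K₅ + K₆ + C₁ * C₂, by positivity, ?_⟩
  intro N hN
  have hN1 : 1 ≤ N := by omega
  have hlog := log_ge_one hN
  have hz₁ := hz₁ N hN1
  have hz₂ := hz₂ N hN1
  have hz₃ := hz₃ N hN1
  have hz₄ := hz₄ N hN1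
  have hz₅ := hz₅ N hN1
  have hz₆ := hz₆ N hN1
  have hmv := hmv N hN
  set Z₁ := (boxn (n + 1) N).filter (fun x => MvPolynomial.eval x (quadA A a b d) = 0) with hZ₁
  set Z₂ := (boxn (n + 1) N).filter (fun x => MvPolynomial.eval x G = 0) with hZ₂
  set Z₃ := (boxn (n + 1) N).filter
    (fun x => MvPolynomial.eval x (MvPolynomial.rename Fin.succ a) = 0) with hZ₃
  set Z₄ := (boxn (n + 1) N).filter
    (fun x => MvPolynomial.eval x (MvPolynomial.rename Fin.succ ℓ) = 0) with hZ₄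
  set Z₅ := (boxn (n + 1) N).filter
    (fun x => MvPolynomial.eval x (MvPolynomial.rename Fin.succ D) = 0) with hZ₅
  set Z₆ := (boxn (n + 1) N).filter
    (fun x => MvPolynomial.eval x (MvPolynomial.rename Fin.succ R) = 0) with hZ₆
  set B' := (boxn n N).filter (fun x' => MvPolynomial.eval x' a ≠ 0 ∧
    MvPolynomial.eval x' ℓ ≠ 0 ∧ MvPolynomial.eval x' D ≠ 0 ∧ MvPolynomial.eval x' R ≠ 0) with hB'
  set Fb : (Fin n → ℤ) → Finset ℤ := fun x' => (Icc (-(N : ℤ)) N).filter (fun t =>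
    MvPolynomial.eval (Fin.cons t x' : Fin (n + 1) → ℤ) (quadA A a b d) ≠ 0 ∧
        MvPolynomial.eval (Fin.cons t x' : Fin (n + 1) → ℤ) G ≠ 0 ∧
        IsSquare (MvPolynomial.eval (Fin.cons t x' : Fin (n + 1) → ℤ) (quadA A a b d) *
          MvPolynomial.eval (Fin.cons t x' : Fin (n + 1) → ℤ) G)) with hFb
  set W := B'.biUnion (fun x' => (Fb x').image (fun t => (Fin.cons t x' : Fin (n + 1) → ℤ))) with hW
  have hsub : (boxn (n + 1) N).filter (fun x => IsSquare (MvPolynomial.eval x (quadA A a b d) *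
        MvPolynomial.eval x G)) ⊆ Z₁ ∪ Z₂ ∪ Z₃ ∪ Z₄ ∪ Z₅ ∪ Z₆ ∪ W := by
    intro x hx
    obtain ⟨hxb, hxs⟩ := Finset.mem_filter.1 hx
    obtain ⟨t, x', rfl⟩ : ∃ (t : ℤ) (x' : Fin n → ℤ), x = Fin.cons t x' :=
      ⟨x 0, Fin.tail x, (Fin.cons_self_tail x).symm⟩
    have hmem : |t| ≤ N ∧ x' ∈ boxn n N := by
      simp only [boxn, Fintype.mem_piFinset] at hxb ⊢
      constructor
      · have := hxb 0
        rw [Fin.cons_zero, Finset.mem_Icc] at this
        exact abs_le.2 this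
      · intro j
        have := hxb j.succ
        rwa [Fin.cons_succ] at this
    by_cases h1 : MvPolynomial.eval (Fin.cons t x' : Fin (n + 1) → ℤ) (quadA A a b d) = 0
    · simp only [Finset.mem_union]
      left; left; left; left; left; left
      exact Finset.mem_filter.2 ⟨hxb, h1⟩
    by_cases h2 : MvPolynomial.eval (Fin.cons t x' : Fin (n + 1) → ℤ) G = 0
    · simp only [Finset.mem_union]
      left; left; left; left; left; right
      exact Finset.mem_filter.2 ⟨hxb, h2⟩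
    by_cases h3 : MvPolynomial.eval (Fin.cons t x' : Fin (n + 1) → ℤ)
        (MvPolynomial.rename Fin.succ a) = 0
    · simp only [Finset.mem_union]
      left; left; left; left; right
      exact Finset.mem_filter.2 ⟨hxb, h3⟩
    by_cases h4 : MvPolynomial.eval (Fin.cons t x' : Fin (n + 1) → ℤ)
        (MvPolynomial.rename Fin.succ ℓ) = 0
    · simp only [Finset.mem_union]
      left; left; left; right
      exact Finset.mem_filter.2 ⟨hxb, h4⟩
    by_cases h5 : MvPolynomial.eval (Fin.cons t x' : Fin (n + 1) → ℤ)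
        (MvPolynomial.rename Fin.succ D) = 0
    · simp only [Finset.mem_union]
      left; left; right
      exact Finset.mem_filter.2 ⟨hxb, h5⟩
    by_cases h6 : MvPolynomial.eval (Fin.cons t x' : Fin (n + 1) → ℤ)
        (MvPolynomial.rename Fin.succ R) = 0
    · simp only [Finset.mem_union]
      left; right
      exact Finset.mem_filter.2 ⟨hxb, h6⟩
    rw [eval_ren] at h3 h4 h5 h6
    apply Finset.mem_union_right
    rw [hW, Finset.mem_biUnion]
    refine ⟨x', Finset.mem_filter.2 ⟨hmem.2, h3, h4, h5, h6⟩, ?_⟩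
    rw [Finset.mem_image]
    exact ⟨t, Finset.mem_filter.2 ⟨Finset.mem_Icc.2 (abs_le.1 hmem.1), h1, h2, hxs⟩, rfl⟩
  have hcard : ((boxn (n + 1) N).filter (fun x => IsSquare (MvPolynomial.eval x (quadA A a b d) *
        MvPolynomial.eval x G))).card ≤
      Z₁.card + Z₂.card + Z₃.card + Z₄.card + Z₅.card + Z₆.card + W.card := by
    refine (Finset.card_le_card hsub).trans ?_
    refine (Finset.card_union_le _ _).trans ?_
    refine Nat.add_le_add_right ((Finset.card_union_le _ _).trans ?_) _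
    refine Nat.add_le_add_right ((Finset.card_union_le _ _).trans ?_) _
    refine Nat.add_le_add_right ((Finset.card_union_le _ _).trans ?_) _
    refine Nat.add_le_add_right ((Finset.card_union_le _ _).trans ?_) _
    exact Nat.add_le_add_right (Finset.card_union_le _ _) _
  have hWcard : W.card ≤ ∑ x' ∈ B', (Fb x').card :=
    Finset.card_biUnion_le.trans (Finset.sum_le_sum fun x' _ => Finset.card_image_le)
  have hFbc : ∀ x' ∈ B', ((Fb x').card : ℝ) ≤ C₁ * log N *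
      (tau (MvPolynomial.eval x' (R * D)).natAbs : ℝ) ^ 3 := by
    intro x' hx'
    obtain ⟨hxb, h3, h4, h5, h6⟩ := Finset.mem_filter.1 hx'
    have h7 := hfib N hN x' hxb h3 h4 h5 h6
    have h8 : (Fb x').card = {t : ℤ | |t| ≤ N ∧
        MvPolynomial.eval (Fin.cons t x' : Fin (n + 1) → ℤ) (quadA A a b d) ≠ 0 ∧
        MvPolynomial.eval (Fin.cons t x' : Fin (n + 1) → ℤ) G ≠ 0 ∧
        IsSquare (MvPolynomial.eval (Fin.cons t x' : Fin (n + 1) → ℤ) (quadA A a b d) *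
          MvPolynomial.eval (Fin.cons t x' : Fin (n + 1) → ℤ) G)}.ncard := by
      rw [← Set.ncard_coe_finset]
      congr 1
      ext t
      simp only [hFb, Finset.coe_filter, Finset.mem_Icc, Set.mem_ofPred_eq, abs_le]
    rw [h8]
    refine h7.trans ?_
    have hev : MvPolynomial.eval x' (R * D) = MvPolynomial.eval x' R * MvPolynomial.eval x' D := by
      rw [map_mul]
    have hne : (MvPolynomial.eval x' (R * D)).natAbs ≠ 0 := by
      rw [hev, Int.natAbs_mul]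
      exact mul_ne_zero (by simpa using h6) (by simpa using h5)
    have t1 : (tau (MvPolynomial.eval x' R).natAbs : ℝ) ≤
        (tau (MvPolynomial.eval x' (R * D)).natAbs : ℝ) := by
      have : tau (MvPolynomial.eval x' R).natAbs ≤ tau (MvPolynomial.eval x' (R * D)).natAbs := by
        apply tau_le_of_dvd _ hne
        rw [hev, Int.natAbs_mul]
        exact dvd_mul_right _ _
      exact_mod_cast this
    have t2 : (tau (MvPolynomial.eval x' D).natAbs : ℝ) ≤
        (tau (MvPolynomial.eval x' (R * D)).natAbs : ℝ) := by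
      have : tau (MvPolynomial.eval x' D).natAbs ≤ tau (MvPolynomial.eval x' (R * D)).natAbs := by
        apply tau_le_of_dvd _ hne
        rw [hev, Int.natAbs_mul]
        exact dvd_mul_left _ _
      exact_mod_cast this
    have hl0 : 0 ≤ log (N : ℝ) := by linarith
    calc C₁ * (tau (MvPolynomial.eval x' R).natAbs : ℝ) *
          (tau (MvPolynomial.eval x' D).natAbs : ℝ) ^ 2 * log N
        ≤ C₁ * (tau (MvPolynomial.eval x' (R * D)).natAbs : ℝ) *
          (tau (MvPolynomial.eval x' (R * D)).natAbs : ℝ) ^ 2 * log N := by gcongr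
      _ = _ := by ring
  have hsum : ∑ x' ∈ B', (tau (MvPolynomial.eval x' (R * D)).natAbs : ℝ) ^ 3 ≤
      C₂ * (N : ℝ) ^ n * (log N) ^ c := by
    refine le_trans ?_ hmv
    apply Finset.sum_le_sum_of_subset_of_nonneg
    · intro x' hx'
      obtain ⟨hxb, h3, h4, h5, h6⟩ := Finset.mem_filter.1 hx'
      rw [Finset.mem_filter]
      refine ⟨hxb, ?_⟩
      rw [map_mul]
      exact mul_ne_zero h6 h5
    · intro i _ _
      positivity
  have hWr : (W.card : ℝ) ≤ C₁ * log N * (C₂ * (N : ℝ) ^ n * (log N) ^ c) := by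
    have h1 : (W.card : ℝ) ≤ ∑ x' ∈ B', ((Fb x').card : ℝ) := by exact_mod_cast hWcard
    refine h1.trans ((Finset.sum_le_sum hFbc).trans ?_)
    rw [← Finset.mul_sum]
    apply mul_le_mul_of_nonneg_left hsum
    have : 0 ≤ log (N : ℝ) := by linarith
    positivity
  have hcardr : (((boxn (n + 1) N).filter (fun x => IsSquare (MvPolynomial.eval x (quadA A a b d) *
        MvPolynomial.eval x G))).card : ℝ) ≤
      Z₁.card + Z₂.card + Z₃.card + Z₄.card + Z₅.card + Z₆.card + W.card := by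
    exact_mod_cast hcard
  have hpow1 : 1 ≤ (log (N : ℝ)) ^ (c + 1) := one_le_pow₀ hlog
  have hNn : 0 ≤ (N : ℝ) ^ n := by positivity
  calc _ ≤ _ := hcardr
    _ ≤ K₁ * (N : ℝ) ^ n + K₂ * (N : ℝ) ^ n + K₃ * (N : ℝ) ^ n + K₄ * (N : ℝ) ^ n +
        K₅ * (N : ℝ) ^ n + K₆ * (N : ℝ) ^ n + C₁ * log N * (C₂ * (N : ℝ) ^ n * (log N) ^ c) := by
        linarith
    _ = (K₁ + K₂ + K₃ + K₄ + K₅ + K₆) * (N : ℝ) ^ n * 1 +
        C₁ * C₂ * (N : ℝ) ^ n * (log N) ^ (c + 1) := by rw [pow_succ]; ring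
    _ ≤ (K₁ + K₂ + K₃ + K₄ + K₅ + K₆) * (N : ℝ) ^ n * (log N) ^ (c + 1) +
        C₁ * C₂ * (N : ℝ) ^ n * (log N) ^ (c + 1) := by gcongr
    _ = _ := by ring

end Pool.MP_aab329_nt.SerreQ
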