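import Mathlib

/-!
Roots of a polynomial modulo a prime power.
-/

set_option autoImplicit false

namespace Pool.MP_aab329_nt.SerreQ

open Polynomial

/-- `⌈k / d⌉`. -/
def cdiv (k d : ℕ) : ℕ := (k + d - 1) / d

private theorem rootsPP_deg (a : ℤ) (q : ℤ[X]) : (C a * q).degree ≤ q.degree := by
  refine le_trans (Polynomial.degree_mul_le _ _) ?_
  calc (C a).degree + q.degree ≤ 0 + q.degree := by
        gcongr
        exact Polynomial.degree_C_le
    _ = q.degree := zero_add _

/-- A product of integers none of which is divisible by `p^s`. -/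
private theorem rootsPP_prod {ι : Type*} [DecidableEq ι] (p : ℕ) (hp : p.Prime) (s : ℕ) (S : Finset ι)
    (f : ι → ℤ) (hf : ∀ j ∈ S, ¬ ((p : ℤ) ^ s ∣ f j)) :
    ∃ (v : ℕ) (u : ℤ), ∏ j ∈ S, f j = (p : ℤ) ^ v * u ∧ ¬ ((p : ℤ) ∣ u) ∧ v ≤ S.card * (s - 1) := by
  have hpz : Prime (p : ℤ) := Nat.prime_iff_prime_int.1 hp
  induction S using Finset.induction_on with
  | empty =>
    refine ⟨0, 1, by simp, ?_, by simp⟩
    intro h
    exact hpz.not_isUnit (isUnit_of_dvd_one h)
  | insert a S ha ih =>
    obtain ⟨v, u, h1, h2, h3⟩ := ih (fun j hj => hf j (Finset.mem_insert_of_mem hj))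
    have hfa := hf a (Finset.mem_insert_self a S)
    have hfa0 : f a ≠ 0 := by
      intro h0
      rw [h0] at hfa
      exact hfa (dvd_zero _)
    obtain ⟨n, c, hc1, hc2⟩ := WfDvdMonoid.max_power_factor hfa0 hpz.irreducible
    have hn : n ≤ s - 1 := by
      by_contra hcon
      apply hfa
      have hsn : s ≤ n := by omega
      rw [hc2]
      exact Dvd.dvd.mul_right (pow_dvd_pow _ hsn) _
    refine ⟨n + v, c * u, ?_, ?_, ?_⟩
    · rw [Finset.prod_insert ha, h1]
      rw [hc2]
      ring
    · intro h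
      rcases hpz.dvd_or_dvd h with h | h
      · exact hc1 h
      · exact h2 h
    · rw [Finset.card_insert_of_notMem ha]
      calc n + v ≤ (s - 1) + S.card * (s - 1) := Nat.add_le_add hn h3
        _ = (S.card + 1) * (s - 1) := by ring

/-- If `h` has degree `≤ d`, `p^k` divides `h` at `d + 1` integers which are pairwise incongruent
modulo `p^s`, `(s - 1) d < k`, then `p` divides all coefficients of `h`. (Lagrange interpolation:
`h = ∑ h(x_i) ∏_{j ≠ i} (X - x_j) / (x_i - x_j)`, and each `∏_{j ≠ i} (x_i - x_j)` has `p`-adic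
valuation at most `d (s - 1) < k`. One may use `Polynomial.eq_of_degree_le_of_eval_finset_eq`/
`Lagrange.interpolate` over `ℚ` and `padicValRat`, or over `ℤ` the identity with the common
denominator.) -/
theorem dvd_coeff_of_many (h : ℤ[X]) (d : ℕ) (hd : h.natDegree ≤ d) (p : ℕ) (hp : p.Prime)
    (k s : ℕ) (hs : 1 ≤ s) (hks : (s - 1) * d < k) (x : Fin (d + 1) → ℤ)
    (hx : ∀ i j, i ≠ j → ¬ ((p : ℤ) ^ s ∣ x i - x j))
    (hr : ∀ i, (p : ℤ) ^ k ∣ h.eval (x i)) : ∀ i, (p : ℤ) ∣ h.coeff i := by
  have _ := hs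
  have hpz : Prime (p : ℤ) := Nat.prime_iff_prime_int.1 hp
  -- valuations of the denominators
  have hD : ∀ i : Fin (d + 1), ∃ (v : ℕ) (u : ℤ),
      ∏ j ∈ Finset.univ.erase i, (x i - x j) = (p : ℤ) ^ v * u ∧ ¬ ((p : ℤ) ∣ u) ∧
        v ≤ (Finset.univ.erase i).card * (s - 1) := by
    intro i
    apply rootsPP_prod p hp s
    intro j hj
    exact hx i j (Finset.ne_of_mem_erase hj).symm
  choose v u hvu hu hv using hD
  have hcard : ∀ i : Fin (d + 1), (Finset.univ.erase i).card = d := by
    intro i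
    rw [Finset.card_erase_of_mem (Finset.mem_univ i)]
    simp
  have hvk : ∀ i, v i < k := by
    intro i
    have := hv i
    rw [hcard i, mul_comm] at this
    omega
  choose g hg using hr
  set U : ℤ := ∏ i, u i with hU
  have hUp : ¬ ((p : ℤ) ∣ U) := by
    intro hdiv
    obtain ⟨i, _, hi⟩ := (Prime.dvd_finsetProd_iff hpz _).1 hdiv
    exact hu i hi
  let c : Fin (d + 1) → ℤ := fun i => (∏ l ∈ Finset.univ.erase i, u l) * (p : ℤ) ^ (k - v i) * g i
  have hcp : ∀ i, (p : ℤ) ∣ c i := by
    intro i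
    have h1 : (p : ℤ) ∣ (p : ℤ) ^ (k - v i) := dvd_pow_self _ (by have := hvk i; omega)
    exact Dvd.dvd.mul_right (Dvd.dvd.mul_left h1 _) _
  have hcD : ∀ i, c i * ∏ j ∈ Finset.univ.erase i, (x i - x j) = U * h.eval (x i) := by
    intro i
    have e1 : U = u i * ∏ l ∈ Finset.univ.erase i, u l := by
      rw [hU, Finset.mul_prod_erase _ _ (Finset.mem_univ i)]
    have e2 : (p : ℤ) ^ k = (p : ℤ) ^ (k - v i) * (p : ℤ) ^ (v i) := by
      rw [← pow_add]
      congr 1
      have := hvk i
      omega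
    rw [hvu i, hg i, e1, e2]
    simp only [c]
    ring
  -- the polynomial identity
  have hinj : Set.InjOn x (↑(Finset.univ : Finset (Fin (d + 1))) : Set (Fin (d + 1))) := by
    intro i _ j _ hij
    by_contra hne
    apply hx i j hne
    rw [hij, sub_self]
    exact dvd_zero _
  have hid : C U * h = ∑ i, C (c i) * ∏ j ∈ Finset.univ.erase i, (X - C (x j)) := by
    apply Polynomial.eq_of_degrees_lt_of_eval_index_eq (s := (Finset.univ : Finset (Fin (d + 1)))) (v := x) hinj
    · rw [Finset.card_univ, Fintype.card_fin]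
      refine lt_of_le_of_lt (rootsPP_deg _ _) ?_
      refine lt_of_le_of_lt Polynomial.degree_le_natDegree ?_
      exact_mod_cast Nat.lt_succ_of_le hd
    · rw [Finset.card_univ, Fintype.card_fin]
      refine lt_of_le_of_lt (Polynomial.degree_sum_le _ _) ?_
      rw [Finset.sup_lt_iff (by exact WithBot.bot_lt_coe _)]
      intro i _
      refine lt_of_le_of_lt (rootsPP_deg _ _) ?_
      rw [Polynomial.degree_prod_of_monic]
      · simp only [Polynomial.degree_X_sub_C]
        rw [Finset.sum_const, hcard i]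
        simp only [nsmul_eq_mul, mul_one]
        exact_mod_cast Nat.lt_succ_self d
      · intro j _
        exact monic_X_sub_C _
    · intro i _
      rw [eval_mul, eval_C, eval_finsetSum, Finset.sum_eq_single i]
      · rw [eval_mul, eval_C, eval_prod]
        simp only [eval_sub, eval_X, eval_C]
        exact (hcD i).symm
      · intro j _ hji
        rw [eval_mul, eval_prod]
        apply mul_eq_zero_of_right
        apply Finset.prod_eq_zero (i := i)
        · exact Finset.mem_erase.2 ⟨hji.symm, Finset.mem_univ _⟩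
        · simp
      · intro hni
        exact absurd (Finset.mem_univ i) hni
  intro m
  have hm : U * h.coeff m = ∑ i, c i * (∏ j ∈ Finset.univ.erase i, (X - C (x j))).coeff m := by
    have := congrArg (fun q => q.coeff m) hid
    simpa only [coeff_C_mul, finsetSum_coeff] using this
  have hdiv : (p : ℤ) ∣ U * h.coeff m := by
    rw [hm]
    apply Finset.dvd_sum
    intro i _
    exact Dvd.dvd.mul_right (hcp i) _
  rcases hpz.dvd_or_dvd hdiv with h1 | h1
  · exact absurd h1 hUp
  · exact h1

/-- The roots modulo `p^k` lie in at most `d` classes modulo `p^⌈k/d⌉`. -/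
theorem roots_pp (h : ℤ[X]) (d : ℕ) (hd1 : 1 ≤ d) (hd : h.natDegree ≤ d) (p : ℕ) (hp : p.Prime)
    (hc : ∃ i, ¬ (p : ℤ) ∣ h.coeff i) (k : ℕ) (hk : 1 ≤ k) :
    ((Finset.range (p ^ k)).filter (fun x : ℕ => ((p ^ k : ℕ) : ℤ) ∣ h.eval (x : ℤ))).card *
      p ^ cdiv k d ≤ d * p ^ k := by
  set s := cdiv k d with hsdef
  have hsd1 : s * d ≤ k + d - 1 := by
    rw [hsdef]; exact Nat.div_mul_le_self _ _
  have hs1 : 1 ≤ s := by
    rw [hsdef]
    unfold cdiv
    rw [Nat.le_div_iff_mul_le hd1]
    omega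
  have hks : (s - 1) * d < k := by
    rw [Nat.sub_mul, one_mul]
    omega
  have hsk : s ≤ k := by
    rw [hsdef]
    unfold cdiv
    apply Nat.div_le_of_le_mul
    obtain ⟨a, rfl⟩ : ∃ a, k = a + 1 := ⟨k - 1, by omega⟩
    obtain ⟨b, rfl⟩ : ∃ b, d = b + 1 := ⟨d - 1, by omega⟩
    have : (b + 1) * (a + 1) = a * b + a + b + 1 := by ring
    rw [this]
    have := Nat.zero_le (a * b)
    omega
  have hppos : 0 < p := hp.pos
  have hps : 0 < p ^ s := Nat.pow_pos hppos
  set S := (Finset.range (p ^ k)).filter (fun x : ℕ => ((p ^ k : ℕ) : ℤ) ∣ h.eval (x : ℤ)) with hS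
  -- at most `d` classes
  have himg : (S.image (fun x => x % p ^ s)).card ≤ d := by
    by_contra hcon
    rw [not_le] at hcon
    obtain ⟨T, hTsub, hTcard⟩ := Finset.exists_subset_card_eq (Nat.succ_le_of_lt hcon)
    have e : Fin (d + 1) ≃ T := (Finset.equivFinOfCardEq hTcard).symm
    have hex : ∀ i : Fin (d + 1), ∃ y ∈ S, y % p ^ s = (e i : ℕ) := by
      intro i
      have := hTsub (e i).2
      rw [Finset.mem_image] at this
      obtain ⟨y, hy1, hy2⟩ := this
      exact ⟨y, hy1, hy2⟩
    choose y hy1 hy2 using hex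
    obtain ⟨i, hi⟩ := hc
    apply hi
    refine dvd_coeff_of_many h d hd p hp k s hs1 hks (fun i => (y i : ℤ)) ?_ ?_ i
    · intro i j hij hdiv
      apply hij
      have h1 : (y j : ℤ) ≡ (y i : ℤ) [ZMOD ((p ^ s : ℕ) : ℤ)] := by
        rw [Int.modEq_iff_dvd]
        push_cast
        exact hdiv
      have h2 : y j ≡ y i [MOD p ^ s] := Int.natCast_modEq_iff.1 h1
      have h3 : y j % p ^ s = y i % p ^ s := h2
      rw [hy2, hy2] at h3
      have h4 : e j = e i := Subtype.ext h3
      exact (e.injective h4).symm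
    · intro i
      have := hy1 i
      rw [hS, Finset.mem_filter] at this
      have h2 := this.2
      push_cast at h2
      exact h2
  have hfib : ∀ a ∈ S.image (fun x => x % p ^ s), (S.filter (fun x => x % p ^ s = a)).card ≤ p ^ (k - s) := by
    intro a _
    have hmap : Set.MapsTo (fun x => x / p ^ s) (↑(S.filter (fun x => x % p ^ s = a)) : Set ℕ)
        (↑(Finset.range (p ^ (k - s))) : Set ℕ) := by
      intro x hx
      rw [Finset.mem_coe, Finset.mem_filter, hS, Finset.mem_filter, Finset.mem_range] at hx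
      rw [Finset.mem_coe, Finset.mem_range]
      apply Nat.div_lt_of_lt_mul
      rw [← pow_add]
      have : s + (k - s) = k := by omega
      rw [this]
      exact hx.1.1
    have hinj : Set.InjOn (fun x => x / p ^ s) (↑(S.filter (fun x => x % p ^ s = a)) : Set ℕ) := by
      intro x hx y hy hxy
      rw [Finset.mem_coe, Finset.mem_filter] at hx hy
      have h1 := Nat.div_add_mod x (p ^ s)
      have h2 := Nat.div_add_mod y (p ^ s)
      simp only at hxy
      rw [hx.2, hxy] at h1
      rw [hy.2] at h2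
      exact h1.symm.trans h2
    have := Finset.card_le_card_of_injOn _ hmap hinj
    rwa [Finset.card_range] at this
  have hmain := Finset.card_le_mul_card_image S (p ^ (k - s)) hfib
  calc S.card * p ^ s ≤ (p ^ (k - s) * (S.image (fun x => x % p ^ s)).card) * p ^ s :=
        Nat.mul_le_mul_right _ hmain
    _ ≤ (p ^ (k - s) * d) * p ^ s := Nat.mul_le_mul_right _ (Nat.mul_le_mul_left _ himg)
    _ = d * (p ^ (k - s) * p ^ s) := by ring
    _ = d * p ^ k := by rw [← pow_add, Nat.sub_add_cancel hsk]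

end Pool.MP_aab329_nt.SerreQ
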