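import Pool.Agent.Lib.MP_aab329_nt.Q.Tau
import Pool.Agent.Lib.MP_aab329_nt.Q.RootsPP

/-!
Roots of a primitive polynomial modulo an integer.
-/

set_option autoImplicit false

namespace Pool.MP_aab329_nt.SerreQ

open Polynomial Finset Real

/-- Number of roots of `h` modulo `δ`. -/
noncomputable def rho (h : ℤ[X]) (δ : ℕ) : ℕ :=
  ((Finset.range δ).filter (fun x : ℕ => (δ : ℤ) ∣ h.eval (x : ℤ))).card

/-- `∏ p^⌈v_p(δ) / d⌉`. -/
noncomputable def rr (d δ : ℕ) : ℕ := δ.factorization.prod (fun p k => p ^ cdiv k d)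

private lemma dvd_eval_congr (h : ℤ[X]) {δ : ℕ} {x y : ℤ} (hxy : (δ : ℤ) ∣ x - y) :
    (δ : ℤ) ∣ h.eval x ↔ (δ : ℤ) ∣ h.eval y := by
  have h1 : (δ : ℤ) ∣ h.eval x - h.eval y := hxy.trans (Polynomial.sub_dvd_eval_sub x y h)
  constructor
  · intro h2
    have h3 := dvd_sub h2 h1
    rwa [sub_sub_cancel] at h3
  · intro h2
    have h3 := dvd_add h1 h2
    rwa [sub_add_cancel] at h3

private lemma dvd_eval_mod (h : ℤ[X]) (δ x : ℕ) :
    (δ : ℤ) ∣ h.eval ((x % δ : ℕ) : ℤ) ↔ (δ : ℤ) ∣ h.eval (x : ℤ) := by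
  apply dvd_eval_congr
  rw [Int.natCast_mod]
  have h1 := Int.emod_add_mul_ediv (x : ℤ) (δ : ℤ)
  exact ⟨-((x : ℤ) / δ), by linarith⟩

/-- Chinese remainder theorem. -/
theorem rho_mul (h : ℤ[X]) {m n : ℕ} (hmn : m.Coprime n) : rho h (m * n) = rho h m * rho h n := by
  rcases Nat.eq_zero_or_pos m with hm | hm
  · subst hm
    simp [rho]
  rcases Nat.eq_zero_or_pos n with hn | hn
  · subst hn
    simp [rho]
  unfold rho
  rw [← Finset.card_product]
  apply Finset.card_bij (fun x _ => (x % m, x % n))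
  · intro x hx
    rw [Finset.mem_filter, Finset.mem_range] at hx
    obtain ⟨_, hx2⟩ := hx
    rw [Finset.mem_product, Finset.mem_filter, Finset.mem_filter, Finset.mem_range,
      Finset.mem_range]
    refine ⟨⟨Nat.mod_lt _ hm, ?_⟩, ⟨Nat.mod_lt _ hn, ?_⟩⟩
    · simp only
      rw [dvd_eval_mod]
      refine dvd_trans ?_ hx2
      push_cast
      exact dvd_mul_right _ _
    · simp only
      rw [dvd_eval_mod]
      refine dvd_trans ?_ hx2
      push_cast
      exact dvd_mul_left _ _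
  · intro x hx y hy hxy
    rw [Finset.mem_filter, Finset.mem_range] at hx hy
    simp only [Prod.mk.injEq] at hxy
    have h1 : x ≡ y [MOD m * n] := (Nat.modEq_and_modEq_iff_modEq_mul hmn).1 ⟨hxy.1, hxy.2⟩
    have h2 : x % (m * n) = y % (m * n) := h1
    rwa [Nat.mod_eq_of_lt hx.1, Nat.mod_eq_of_lt hy.1] at h2
  · rintro ⟨a, b⟩ hab
    rw [Finset.mem_product, Finset.mem_filter, Finset.mem_filter, Finset.mem_range,
      Finset.mem_range] at hab
    obtain ⟨⟨ha1, ha2⟩, ⟨hb1, hb2⟩⟩ := hab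
    simp only at ha1 ha2 hb1 hb2
    obtain ⟨k, hk1, hk2⟩ := Nat.chineseRemainder hmn a b
    refine ⟨k % (m * n), ?_, ?_⟩
    · rw [Finset.mem_filter, Finset.mem_range]
      refine ⟨Nat.mod_lt _ (Nat.mul_pos hm hn), ?_⟩
      rw [dvd_eval_mod]
      push_cast
      apply IsCoprime.mul_dvd (Nat.isCoprime_iff_coprime.2 hmn)
      · rw [← dvd_eval_mod, show k % m = a % m from hk1, dvd_eval_mod]
        exact ha2
      · rw [← dvd_eval_mod, show k % n = b % n from hk2, dvd_eval_mod]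
        exact hb2
    · have e1 : k % (m * n) % m = a := by
        rw [Nat.mod_mul_right_mod, show k % m = a % m from hk1, Nat.mod_eq_of_lt ha1]
      have e2 : k % (m * n) % n = b := by
        rw [Nat.mod_mul_left_mod, show k % n = b % n from hk2, Nat.mod_eq_of_lt hb1]
      rw [e1, e2]

private lemma exists_coeff (h : ℤ[X]) (hc : h.IsPrimitive) {p : ℕ} (hp : p.Prime) :
    ∃ i, ¬ (p : ℤ) ∣ h.coeff i := by
  by_contra hcon
  push Not at hcon
  have h1 : C (p : ℤ) ∣ h := (Polynomial.C_dvd_iff_dvd_coeff _ _).2 hcon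
  have h2 := hc _ h1
  rw [Int.isUnit_iff] at h2
  have h3 := hp.two_le
  rcases h2 with h2 | h2 <;> omega

private lemma rr_mul (d : ℕ) {m n : ℕ} (hmn : m.Coprime n) : rr d (m * n) = rr d m * rr d n := by
  unfold rr
  rw [Nat.factorization_mul_of_coprime hmn]
  apply Finsupp.prod_add_index_of_disjoint
  rw [Nat.support_factorization, Nat.support_factorization]
  exact hmn.disjoint_primeFactors

private lemma rr_prime_pow (d : ℕ) {p k : ℕ} (hp : p.Prime) (hk : 0 < k) :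
    rr d (p ^ k) = p ^ cdiv k d := by
  unfold rr
  rw [hp.factorization_pow, Finsupp.prod_single_index]
  unfold cdiv
  have : (0 + d - 1) / d = 0 := by
    rcases Nat.eq_zero_or_pos d with h | h
    · subst h; simp
    · exact Nat.div_eq_of_lt (by omega)
  rw [this, pow_zero]

/-- From `roots_pp` and `rho_mul` (`Nat.recOnPosPrimePosCoprime`). -/
theorem rho_bound (h : ℤ[X]) (d : ℕ) (hd1 : 1 ≤ d) (hd : h.natDegree ≤ d) (hc : h.IsPrimitive)
    (δ : ℕ) (hδ : δ ≠ 0) : rho h δ * rr d δ ≤ d ^ δ.primeFactors.card * δ := by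
  induction δ using Nat.recOnPosPrimePosCoprime with
  | prime_pow p k hp hk =>
    rw [rr_prime_pow d hp hk, Nat.primeFactors_prime_pow hk.ne' hp, Finset.card_singleton, pow_one]
    exact roots_pp h d hd1 hd p hp (exists_coeff h hc hp) k hk
  | zero => exact absurd rfl hδ
  | one => simp [rho, rr]
  | coprime a b ha hb hab iha ihb =>
    rw [rho_mul h hab, rr_mul d hab, hab.primeFactors_mul,
      Finset.card_union_of_disjoint hab.disjoint_primeFactors, pow_add]
    have h1 := iha (by omega)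
    have h2 := ihb (by omega)
    calc rho h a * rho h b * (rr d a * rr d b) = (rho h a * rr d a) * (rho h b * rr d b) := by ring
      _ ≤ (d ^ a.primeFactors.card * a) * (d ^ b.primeFactors.card * b) := Nat.mul_le_mul h1 h2
      _ = _ := by ring

private lemma cdiv_le (k d : ℕ) (hd1 : 1 ≤ d) : cdiv k d ≤ k := by
  unfold cdiv
  rcases Nat.eq_zero_or_pos k with h | h
  · subst h
    rw [Nat.div_eq_of_lt (by omega)]
  · apply Nat.div_le_of_le_mul
    nlinarith [Nat.sub_add_cancel (show 1 ≤ k + d by omega), Nat.mul_le_mul h hd1,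
      Nat.sub_add_cancel hd1, Nat.sub_add_cancel h]

private lemma le_cdiv_mul (k d : ℕ) (hd1 : 1 ≤ d) : k ≤ cdiv k d * d := by
  unfold cdiv
  have h1 := Nat.div_add_mod (k + d - 1) d
  have h2 := Nat.mod_lt (k + d - 1) (show 0 < d by omega)
  have h3 : d * ((k + d - 1) / d) = (k + d - 1) / d * d := Nat.mul_comm _ _
  omega

theorem rr_dvd (d δ : ℕ) (hd1 : 1 ≤ d) (hδ : δ ≠ 0) : rr d δ ∣ δ := by
  conv_rhs => rw [← Nat.prod_factorization_pow_eq_self hδ]
  unfold rr Finsupp.prod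
  apply Finset.prod_dvd_prod_of_dvd
  intro p _
  exact pow_dvd_pow p (cdiv_le _ _ hd1)

theorem dvd_rr_pow (d δ : ℕ) (hd1 : 1 ≤ d) (hδ : δ ≠ 0) : δ ∣ rr d δ ^ d := by
  conv_lhs => rw [← Nat.prod_factorization_pow_eq_self hδ]
  unfold rr Finsupp.prod
  rw [← Finset.prod_pow]
  apply Finset.prod_dvd_prod_of_dvd
  intro p _
  rw [← pow_mul]
  exact pow_dvd_pow p (le_cdiv_mul _ _ hd1)

/-- Group by `r = rr d δ ≤ N`: there are at most `τ(r^d) ≤ τ(r)^d` such `δ`, `τ(δ) ≤ τ(r)^d`,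
`d^ω(δ) = d^ω(r) ≤ τ(r)^d`, then `sum_tau_pow`. -/
theorem sum_rho (d E : ℕ) (hd1 : 1 ≤ d) : ∃ (c : ℕ) (C : ℝ), 0 < C ∧ ∀ (h : ℤ[X]),
    h.natDegree ≤ d → h.IsPrimitive → ∀ N : ℕ, 3 ≤ N →
    ∑ δ ∈ Icc 1 N, (tau δ : ℝ) ^ E * (rho h δ : ℝ) / δ ≤ C * (log N) ^ c := by
  refine ⟨2 ^ (d * E + d + d), 2 ^ (2 ^ (d * E + d + d)), by positivity, ?_⟩
  intro h hd hc N hN
  set G : ℕ → ℝ := fun r => (tau r : ℝ) ^ (d * E + d) / r with hG
  have hG0 : ∀ r, 0 ≤ G r := fun r => by rw [hG]; positivity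
  have hmem : ∀ δ ∈ Icc 1 N, rr d δ ∈ Icc 1 N := by
    intro δ hδ
    rw [Finset.mem_Icc] at hδ ⊢
    have hδ0 : δ ≠ 0 := by omega
    have h1 := rr_dvd d δ hd1 hδ0
    exact ⟨Nat.pos_of_dvd_of_pos h1 (by omega), (Nat.le_of_dvd (by omega) h1).trans hδ.2⟩
  have h1 : ∀ δ ∈ Icc 1 N, (tau δ : ℝ) ^ E * (rho h δ : ℝ) / δ ≤ G (rr d δ) := by
    intro δ hδ
    have hr := hmem δ hδ
    rw [Finset.mem_Icc] at hδ hr
    have hδ0 : δ ≠ 0 := by omega
    set r := rr d δ with hrdef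
    have hr0 : r ≠ 0 := by omega
    have hδd : δ ∣ r ^ d := dvd_rr_pow d δ hd1 hδ0
    have hrd0 : r ^ d ≠ 0 := pow_ne_zero _ hr0
    have ht1 : tau δ ≤ tau r ^ d := (tau_le_of_dvd hδd hrd0).trans (tau_pow_le _ _)
    have hw : δ.primeFactors.card ≤ r.primeFactors.card := by
      have h2 := Nat.primeFactors_mono hδd hrd0
      rw [Nat.primeFactors_pow r (by omega)] at h2
      exact Finset.card_le_card h2
    have ht2 : d ^ δ.primeFactors.card ≤ tau r ^ d := by
      calc d ^ δ.primeFactors.card ≤ d ^ r.primeFactors.card := Nat.pow_le_pow_right hd1 hw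
        _ ≤ (2 ^ d) ^ r.primeFactors.card := Nat.pow_le_pow_left (Nat.lt_two_pow_self).le _
        _ = (2 ^ r.primeFactors.card) ^ d := by rw [← pow_mul, ← pow_mul, mul_comm]
        _ ≤ tau r ^ d := Nat.pow_le_pow_left (two_pow_omega_le hr0) d
    have hb := rho_bound h d hd1 hd hc δ hδ0
    have hb' : (rho h δ : ℝ) * r ≤ (tau r : ℝ) ^ d * δ := by
      have : rho h δ * r ≤ tau r ^ d * δ := hb.trans (Nat.mul_le_mul_right _ ht2)
      exact_mod_cast this
    have hδpos : (0 : ℝ) < δ := by exact_mod_cast (show 0 < δ by omega)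
    have hrpos : (0 : ℝ) < r := by exact_mod_cast (show 0 < r by omega)
    have ht1' : (tau δ : ℝ) ^ E ≤ (tau r : ℝ) ^ (d * E) := by
      rw [pow_mul]
      apply pow_le_pow_left₀ (by positivity)
      exact_mod_cast ht1
    simp only [hG]
    rw [div_le_div_iff₀ hδpos hrpos, pow_add]
    calc (tau δ : ℝ) ^ E * (rho h δ : ℝ) * r = (tau δ : ℝ) ^ E * ((rho h δ : ℝ) * r) := by ring
      _ ≤ (tau r : ℝ) ^ (d * E) * ((tau r : ℝ) ^ d * δ) :=
          mul_le_mul ht1' hb' (by positivity) (by positivity)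
      _ = (tau r : ℝ) ^ (d * E) * (tau r : ℝ) ^ d * δ := by ring
  have h2 : ∑ δ ∈ Icc 1 N, G (rr d δ) ≤ ∑ r ∈ Icc 1 N, (tau r : ℝ) ^ (d * E + d + d) / r := by
    rw [← Finset.sum_fiberwise_of_maps_to hmem]
    apply Finset.sum_le_sum
    intro r hr
    rw [Finset.mem_Icc] at hr
    have hr0 : r ≠ 0 := by omega
    have e1 : ∑ δ ∈ (Icc 1 N).filter (fun δ => rr d δ = r), G (rr d δ) =
        ((Icc 1 N).filter (fun δ => rr d δ = r)).card * G r := by
      rw [Finset.sum_congr rfl (g := fun _ => G r), Finset.sum_const, nsmul_eq_mul]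
      intro δ hδ
      rw [(Finset.mem_filter.1 hδ).2]
    rw [e1]
    have hcard : ((Icc 1 N).filter (fun δ => rr d δ = r)).card ≤ tau r ^ d := by
      refine le_trans (Finset.card_le_card ?_) (tau_pow_le r d)
      intro δ hδ
      rw [Finset.mem_filter, Finset.mem_Icc] at hδ
      rw [Nat.mem_divisors]
      refine ⟨?_, pow_ne_zero _ hr0⟩
      rw [← hδ.2]
      exact dvd_rr_pow d δ hd1 (by omega)
    have hcard' : (((Icc 1 N).filter (fun δ => rr d δ = r)).card : ℝ) ≤ (tau r : ℝ) ^ d := by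
      exact_mod_cast hcard
    refine (mul_le_mul_of_nonneg_right hcard' (hG0 r)).trans (le_of_eq ?_)
    simp only [hG]
    rw [pow_add (tau r : ℝ) (d * E + d) d]
    ring
  have h3 := sum_tau_pow (d * E + d + d) N (by omega)
  have hlog : 1 ≤ log N := by
    rw [Real.le_log_iff_exp_le (by positivity)]
    have h4 : (3 : ℝ) ≤ N := by exact_mod_cast hN
    exact (Real.exp_one_lt_d9.le.trans (by norm_num)).trans h4
  calc ∑ δ ∈ Icc 1 N, (tau δ : ℝ) ^ E * (rho h δ : ℝ) / δ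
      ≤ ∑ δ ∈ Icc 1 N, G (rr d δ) := Finset.sum_le_sum h1
    _ ≤ (1 + log N) ^ (2 ^ (d * E + d + d)) := h2.trans h3
    _ ≤ (2 * log N) ^ (2 ^ (d * E + d + d)) :=
        pow_le_pow_left₀ (by linarith) (by linarith) _
    _ = 2 ^ (2 ^ (d * E + d + d)) * (log N) ^ (2 ^ (d * E + d + d)) := mul_pow _ _ _

end Pool.MP_aab329_nt.SerreQ
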