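import Pool.Agent.Lib.MP_aab329_nt.Q.Landreau
import Pool.Agent.Lib.MP_aab329_nt.Q.Rho

/-!
Moments of the divisor function over the values of a polynomial in one variable.
-/

set_option autoImplicit false

namespace Pool.MP_aab329_nt.SerreQ

open Polynomial Finset Real

/-- In an interval of `2 N + 1` consecutive integers there are at most `(4 N / δ) ρ(δ)` roots
modulo `δ ≤ N`. -/
theorem count_roots (h : ℤ[X]) (δ N : ℕ) (hδ : 1 ≤ δ) (hN : δ ≤ N) :
    (((Icc (-(N : ℤ)) N).filter (fun x => (δ : ℤ) ∣ h.eval x)).card : ℝ) ≤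
      4 * N * ((rho h δ : ℝ) / δ) := by
  have hδZ : (0 : ℤ) < δ := by exact_mod_cast hδ
  set R := (Finset.range δ).filter (fun x : ℕ => (δ : ℤ) ∣ h.eval (x : ℤ)) with hR
  have hcard : ((Icc (-(N : ℤ)) N).filter (fun x => (δ : ℤ) ∣ h.eval x)).card ≤
      (range (2 * N / δ + 1) ×ˢ R).card := by
    apply Finset.card_le_card_of_injOn (fun x : ℤ => (((x + N) / δ).toNat, (x % δ).toNat))
    · intro x hx
      rw [Finset.mem_coe, Finset.mem_filter, Finset.mem_Icc] at hx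
      obtain ⟨⟨hx1, hx2⟩, hx3⟩ := hx
      rw [Finset.mem_coe, Finset.mem_product, Finset.mem_range, hR, Finset.mem_filter, Finset.mem_range]
      have h0 : 0 ≤ (x + N) / δ := Int.ediv_nonneg (by omega) hδZ.le
      have h1 : (x + N) / δ ≤ ((2 * N / δ : ℕ) : ℤ) := by
        push_cast
        exact Int.ediv_le_ediv hδZ (by omega)
      have h2 : 0 ≤ x % δ := Int.emod_nonneg _ hδZ.ne'
      have h3 : x % δ < δ := Int.emod_lt_of_pos _ hδZ
      refine ⟨by simp only; omega, by simp only; omega, ?_⟩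
      simp only
      rw [Int.toNat_of_nonneg h2]
      have h4 : (δ : ℤ) ∣ x % δ - x := by
        have := Int.emod_add_mul_ediv x (δ : ℤ)
        exact ⟨-(x / δ), by linarith⟩
      have h5 : (δ : ℤ) ∣ h.eval (x % δ) - h.eval x := h4.trans (Polynomial.sub_dvd_eval_sub _ _ h)
      have h6 := dvd_add h5 hx3
      rwa [sub_add_cancel] at h6
    · intro x hx y hy hxy
      rw [Finset.mem_coe, Finset.mem_filter, Finset.mem_Icc] at hx hy
      simp only [Prod.mk.injEq] at hxy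
      obtain ⟨e1, e2⟩ := hxy
      have q1 : 0 ≤ (x + N) / δ := Int.ediv_nonneg (by omega) hδZ.le
      have q2 : 0 ≤ (y + N) / δ := Int.ediv_nonneg (by omega) hδZ.le
      have m1 : 0 ≤ x % δ := Int.emod_nonneg _ hδZ.ne'
      have m2 : 0 ≤ y % δ := Int.emod_nonneg _ hδZ.ne'
      have e1' : (x + N) / δ = (y + N) / δ := by omega
      have e2' : x % δ = y % δ := by omega
      have e3 : (x + N) % δ = (y + N) % δ := by
        rw [Int.add_emod, e2', ← Int.add_emod]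
      have f1 := Int.emod_add_mul_ediv (x + N) (δ : ℤ)
      have f2 := Int.emod_add_mul_ediv (y + N) (δ : ℤ)
      rw [e1', e3] at f1
      linarith
  rw [Finset.card_product, Finset.card_range] at hcard
  have hcard' : (((Icc (-(N : ℤ)) N).filter (fun x => (δ : ℤ) ∣ h.eval x)).card : ℝ) ≤
      ((2 * N / δ : ℕ) + 1 : ℝ) * rho h δ := by
    have : R.card = rho h δ := rfl
    rw [this] at hcard
    exact_mod_cast hcard
  refine hcard'.trans ?_
  have hδR : (0 : ℝ) < δ := by exact_mod_cast hδ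
  have h1 : ((2 * N / δ : ℕ) : ℝ) ≤ 2 * N / δ := by
    have := @Nat.cast_div_le ℝ _ _ _ (2 * N) δ
    push_cast at this ⊢
    exact this
  have h2 : (1 : ℝ) ≤ N / δ := by
    rw [le_div_iff₀ hδR, one_mul]
    exact_mod_cast hN
  have h3 : ((2 * N / δ : ℕ) + 1 : ℝ) ≤ 4 * N / δ := by
    have e1 : (2 : ℝ) * N / δ = 2 * (N / δ) := by ring
    have e2 : (4 : ℝ) * N / δ = 4 * (N / δ) := by ring
    rw [e2]
    rw [e1] at h1
    linarith
  calc ((2 * N / δ : ℕ) + 1 : ℝ) * rho h δ ≤ (4 * N / δ) * rho h δ :=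
        mul_le_mul_of_nonneg_right h3 (by positivity)
    _ = 4 * N * ((rho h δ : ℝ) / δ) := by ring

private lemma tau_le_self (n : ℕ) : tau n ≤ n := by
  unfold tau
  exact Nat.card_divisors_le_self n

/-- By `landreau` with `k = C₀`: each `x` has `δ ∣ h(x)`, `δ^C₀ ≤ |h(x)| ≤ (C₁ N)^C₀`... take
`k = 2 * C₀` to absorb the constant `C₁`: `δ ≤ N`; exchange the sums; `count_roots`, `sum_rho`.
(For `N` smaller than a constant depending on `C₁` estimate trivially, or use that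
`δ^(2 C₀) ≤ C₁ N^C₀ ≤ N^(2 C₀)` when `C₁ ≤ N^C₀`, and a crude bound otherwise.) -/
theorem one_var (d A C₀ : ℕ) (C₁ : ℝ) (hd1 : 1 ≤ d) : ∃ (c : ℕ) (C : ℝ), 0 < C ∧
    ∀ (h : ℤ[X]), h.natDegree ≤ d → h.IsPrimitive → ∀ N : ℕ, 3 ≤ N →
    (∀ x : ℤ, |x| ≤ N → |((h.eval x : ℤ) : ℝ)| ≤ C₁ * (N : ℝ) ^ C₀) →
    ∑ x ∈ (Icc (-(N : ℤ)) N).filter (fun x => h.eval x ≠ 0), (tau (h.eval x).natAbs : ℝ) ^ A ≤
      C * N * (log N) ^ c := by
  obtain ⟨CL, EL, hCL, hL⟩ := landreau (C₀ + 1) (by omega)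
  obtain ⟨c, C', hC', hS⟩ := sum_rho d (EL * A) hd1
  set B : ℝ := |C₁| * |C₁| ^ C₀ with hB
  have hB0 : 0 ≤ B := by positivity
  refine ⟨c, (CL : ℝ) ^ A * (4 * C') + 3 * B ^ A, ?_, ?_⟩
  · have : (0 : ℝ) < CL := by exact_mod_cast hCL
    positivity
  intro h hd hc N hN hb
  have hN0 : (0 : ℝ) < N := by
    have : 0 < N := by omega
    exact_mod_cast this
  have hN3 : (3 : ℝ) ≤ N := by exact_mod_cast hN
  have hlog : 1 ≤ log N := by
    rw [Real.le_log_iff_exp_le (by positivity)]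
    exact (Real.exp_one_lt_d9.le.trans (by norm_num)).trans hN3
  have hlogc : 1 ≤ (log N) ^ c := one_le_pow₀ hlog
  have hCL0 : (0 : ℝ) ≤ CL := Nat.cast_nonneg _
  -- absolute value of the polynomial
  have hval : ∀ x : ℤ, ((h.eval x).natAbs : ℝ) = |((h.eval x : ℤ) : ℝ)| := by
    intro x
    exact Nat.cast_natAbs (h.eval x) |>.trans (Int.cast_abs)
  rcases le_or_gt C₁ N with h1 | h1
  · -- main case
    have hpt : ∀ x ∈ (Icc (-(N : ℤ)) N).filter (fun x => h.eval x ≠ 0),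
        (tau (h.eval x).natAbs : ℝ) ^ A ≤
          (CL : ℝ) ^ A * ∑ δ ∈ Icc 1 N, if (δ : ℤ) ∣ h.eval x then (tau δ : ℝ) ^ (EL * A) else 0 := by
      intro x hx
      rw [Finset.mem_filter, Finset.mem_Icc] at hx
      obtain ⟨⟨hx1, hx2⟩, hx3⟩ := hx
      have hn0 : (h.eval x).natAbs ≠ 0 := Int.natAbs_ne_zero.2 hx3
      obtain ⟨δ, hδ1, hδ2, hδ3⟩ := hL (h.eval x).natAbs hn0
      have hδ0 : 1 ≤ δ := Nat.pos_of_dvd_of_pos hδ1 (Nat.pos_of_ne_zero hn0)
      have hxN : |x| ≤ N := abs_le.2 ⟨hx1, hx2⟩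
      have hle : (h.eval x).natAbs ≤ N ^ (C₀ + 1) := by
        have h2 : ((h.eval x).natAbs : ℝ) ≤ (N : ℝ) ^ (C₀ + 1) := by
          rw [hval, pow_succ, mul_comm ((N : ℝ) ^ C₀)]
          exact (hb x hxN).trans (mul_le_mul_of_nonneg_right h1 (by positivity))
        exact_mod_cast h2
      have hδN : δ ≤ N := le_of_pow_le_pow_left₀ (by omega) (by omega) (hδ2.trans hle)
      have hdvd : (δ : ℤ) ∣ h.eval x := Int.natCast_dvd.2 hδ1
      have h3 : (tau δ : ℝ) ^ (EL * A) ≤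
          ∑ δ ∈ Icc 1 N, if (δ : ℤ) ∣ h.eval x then (tau δ : ℝ) ^ (EL * A) else 0 := by
        have h4 := Finset.single_le_sum (s := Icc 1 N)
          (f := fun δ : ℕ => if (δ : ℤ) ∣ h.eval x then (tau δ : ℝ) ^ (EL * A) else 0)
          (fun i _ => by
            split_ifs
            · positivity
            · exact le_rfl) (Finset.mem_Icc.2 ⟨hδ0, hδN⟩)
        simp only [if_pos hdvd] at h4
        exact h4
      have h5 : (tau (h.eval x).natAbs : ℝ) ≤ CL * (tau δ : ℝ) ^ EL := by exact_mod_cast hδ3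
      calc (tau (h.eval x).natAbs : ℝ) ^ A ≤ (CL * (tau δ : ℝ) ^ EL) ^ A :=
            pow_le_pow_left₀ (by positivity) h5 A
        _ = (CL : ℝ) ^ A * (tau δ : ℝ) ^ (EL * A) := by rw [mul_pow, ← pow_mul]
        _ ≤ _ := mul_le_mul_of_nonneg_left h3 (by positivity)
    have hsum : ∑ x ∈ (Icc (-(N : ℤ)) N).filter (fun x => h.eval x ≠ 0), (tau (h.eval x).natAbs : ℝ) ^ A ≤
        (CL : ℝ) ^ A * (4 * N * (C' * (log N) ^ c)) := by
      calc ∑ x ∈ (Icc (-(N : ℤ)) N).filter (fun x => h.eval x ≠ 0), (tau (h.eval x).natAbs : ℝ) ^ A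
          ≤ ∑ x ∈ (Icc (-(N : ℤ)) N).filter (fun x => h.eval x ≠ 0), (CL : ℝ) ^ A *
            ∑ δ ∈ Icc 1 N, (if (δ : ℤ) ∣ h.eval x then (tau δ : ℝ) ^ (EL * A) else 0) :=
            Finset.sum_le_sum hpt
        _ ≤ ∑ x ∈ Icc (-(N : ℤ)) N, (CL : ℝ) ^ A *
            ∑ δ ∈ Icc 1 N, (if (δ : ℤ) ∣ h.eval x then (tau δ : ℝ) ^ (EL * A) else 0) := by
            apply Finset.sum_le_sum_of_subset_of_nonneg (Finset.filter_subset _ _)
            intro x _ _
            refine mul_nonneg (by positivity) (Finset.sum_nonneg fun δ _ => ?_)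
            split_ifs
            · positivity
            · exact le_rfl
        _ = (CL : ℝ) ^ A * ∑ δ ∈ Icc 1 N, ∑ x ∈ Icc (-(N : ℤ)) N,
            (if (δ : ℤ) ∣ h.eval x then (tau δ : ℝ) ^ (EL * A) else 0) := by
            rw [← Finset.mul_sum, Finset.sum_comm]
        _ ≤ (CL : ℝ) ^ A * ∑ δ ∈ Icc 1 N, 4 * N * ((tau δ : ℝ) ^ (EL * A) * (rho h δ : ℝ) / δ) := by
            refine mul_le_mul_of_nonneg_left (Finset.sum_le_sum fun δ hδ => ?_) (by positivity)
            rw [Finset.mem_Icc] at hδ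
            rw [← Finset.sum_filter, Finset.sum_const, nsmul_eq_mul]
            have h2 := count_roots h δ N hδ.1 hδ.2
            calc _ ≤ 4 * N * ((rho h δ : ℝ) / δ) * (tau δ : ℝ) ^ (EL * A) :=
                  mul_le_mul_of_nonneg_right h2 (by positivity)
              _ = _ := by ring
        _ = (CL : ℝ) ^ A * (4 * N * ∑ δ ∈ Icc 1 N, (tau δ : ℝ) ^ (EL * A) * (rho h δ : ℝ) / δ) := by
            rw [← Finset.mul_sum]
        _ ≤ (CL : ℝ) ^ A * (4 * N * (C' * (log N) ^ c)) := by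
            refine mul_le_mul_of_nonneg_left (mul_le_mul_of_nonneg_left (hS h hd hc N hN) (by positivity))
              (by positivity)
    refine hsum.trans ?_
    have h2 : 0 ≤ 3 * B ^ A * N * (log N) ^ c := by positivity
    calc (CL : ℝ) ^ A * (4 * N * (C' * (log N) ^ c)) = (CL : ℝ) ^ A * (4 * C') * N * (log N) ^ c := by ring
      _ ≤ (CL : ℝ) ^ A * (4 * C') * N * (log N) ^ c + 3 * B ^ A * N * (log N) ^ c := by linarith
      _ = ((CL : ℝ) ^ A * (4 * C') + 3 * B ^ A) * N * (log N) ^ c := by ring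
  · -- small `N`
    have hC1 : C₁ ≤ |C₁| := le_abs_self _
    have hNC : (N : ℝ) ≤ |C₁| := h1.le.trans hC1
    have hpt : ∀ x ∈ (Icc (-(N : ℤ)) N).filter (fun x => h.eval x ≠ 0),
        (tau (h.eval x).natAbs : ℝ) ^ A ≤ B ^ A := by
      intro x hx
      rw [Finset.mem_filter, Finset.mem_Icc] at hx
      obtain ⟨⟨hx1, hx2⟩, hx3⟩ := hx
      have hxN : |x| ≤ N := abs_le.2 ⟨hx1, hx2⟩
      refine pow_le_pow_left₀ (by positivity) ?_ A
      calc (tau (h.eval x).natAbs : ℝ) ≤ ((h.eval x).natAbs : ℝ) := by exact_mod_cast tau_le_self _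
        _ = |((h.eval x : ℤ) : ℝ)| := hval x
        _ ≤ C₁ * (N : ℝ) ^ C₀ := hb x hxN
        _ ≤ |C₁| * (N : ℝ) ^ C₀ := mul_le_mul_of_nonneg_right hC1 (by positivity)
        _ ≤ |C₁| * |C₁| ^ C₀ :=
            mul_le_mul_of_nonneg_left (pow_le_pow_left₀ hN0.le hNC _) (abs_nonneg _)
    have hcardle : (((Icc (-(N : ℤ)) N).filter (fun x => h.eval x ≠ 0)).card : ℝ) ≤ 3 * N := by
      have h2 : ((Icc (-(N : ℤ)) N).filter (fun x => h.eval x ≠ 0)).card ≤ 3 * N := by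
        refine (Finset.card_filter_le _ _).trans ?_
        rw [Int.card_Icc]
        omega
      exact_mod_cast h2
    calc ∑ x ∈ (Icc (-(N : ℤ)) N).filter (fun x => h.eval x ≠ 0), (tau (h.eval x).natAbs : ℝ) ^ A
        ≤ ∑ x ∈ (Icc (-(N : ℤ)) N).filter (fun x => h.eval x ≠ 0), B ^ A := Finset.sum_le_sum hpt
      _ = (((Icc (-(N : ℤ)) N).filter (fun x => h.eval x ≠ 0)).card : ℝ) * B ^ A := by
          rw [Finset.sum_const, nsmul_eq_mul]
      _ ≤ 3 * N * B ^ A := mul_le_mul_of_nonneg_right hcardle (by positivity)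
      _ = 3 * B ^ A * N * 1 := by ring
      _ ≤ 3 * B ^ A * N * (log N) ^ c := mul_le_mul_of_nonneg_left hlogc (by positivity)
      _ ≤ (CL : ℝ) ^ A * (4 * C') * N * (log N) ^ c + 3 * B ^ A * N * (log N) ^ c := by
          have : 0 ≤ (CL : ℝ) ^ A * (4 * C') * N * (log N) ^ c := by positivity
          linarith
      _ = ((CL : ℝ) ^ A * (4 * C') + 3 * B ^ A) * N * (log N) ^ c := by ring

end Pool.MP_aab329_nt.SerreQ
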