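import Pool.Agent.Lib.MP_aab329_nt.Q.Tau

/-!
Square roots of a squarefree integer modulo `m`.
-/

set_option autoImplicit false

namespace Pool.MP_aab329_nt.SerreQ

open Finset

/-- Number of square roots of `D` modulo `m`. -/
noncomputable def nsqrt (D : ℤ) (m : ℕ) : ℕ :=
  ((Finset.range m).filter (fun r : ℕ => (m : ℤ) ∣ (r : ℤ) ^ 2 - D)).card

private lemma sqrtAux_congr {m a b : ℕ} (D : ℤ) (h : a ≡ b [MOD m]) :
    (m : ℤ) ∣ (a : ℤ) ^ 2 - D ↔ (m : ℤ) ∣ (b : ℤ) ^ 2 - D := by
  have h1 : (a : ℤ) ≡ b [ZMOD m] := Int.natCast_modEq_iff.2 h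
  have h2 : (a : ℤ) ^ 2 - D ≡ (b : ℤ) ^ 2 - D [ZMOD m] := (h1.pow 2).sub_right D
  rw [← Int.modEq_zero_iff_dvd, ← Int.modEq_zero_iff_dvd]
  exact ⟨fun h3 => h2.symm.trans h3, fun h3 => h2.trans h3⟩

theorem nsqrt_mul (D : ℤ) {m n : ℕ} (hmn : m.Coprime n) :
    nsqrt D (m * n) = nsqrt D m * nsqrt D n := by
  classical
  unfold nsqrt
  rw [← Finset.card_product]
  rcases Nat.eq_zero_or_pos m with hm | hm
  · subst hm; simp
  rcases Nat.eq_zero_or_pos n with hn | hn
  · subst hn; simp
  refine Finset.card_bij (fun r _ => (r % m, r % n)) ?_ ?_ ?_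
  · intro r hr
    simp only [Finset.mem_filter, Finset.mem_range] at hr
    simp only [Finset.mem_product, Finset.mem_filter, Finset.mem_range]
    refine ⟨⟨Nat.mod_lt _ hm, ?_⟩, ⟨Nat.mod_lt _ hn, ?_⟩⟩
    · rw [sqrtAux_congr D (Nat.mod_modEq r m)]
      refine dvd_trans ?_ hr.2
      push_cast
      exact dvd_mul_right _ _
    · rw [sqrtAux_congr D (Nat.mod_modEq r n)]
      refine dvd_trans ?_ hr.2
      push_cast
      exact dvd_mul_left _ _
  · intro a ha b hb hab
    simp only [Finset.mem_filter, Finset.mem_range] at ha hb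
    simp only [Prod.mk.injEq] at hab
    have h1 : a ≡ b [MOD m] := hab.1
    have h2 : a ≡ b [MOD n] := hab.2
    have h3 : a ≡ b [MOD m * n] := (Nat.modEq_and_modEq_iff_modEq_mul hmn).1 ⟨h1, h2⟩
    exact Nat.ModEq.eq_of_lt_of_lt h3 ha.1 hb.1
  · rintro ⟨x, y⟩ hxy
    simp only [Finset.mem_product, Finset.mem_filter, Finset.mem_range] at hxy
    obtain ⟨⟨hx1, hx2⟩, hy1, hy2⟩ := hxy
    have hlt := Nat.chineseRemainder_lt_mul hmn x y hm.ne' hn.ne'
    have hz := (Nat.chineseRemainder hmn x y).2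
    refine ⟨(Nat.chineseRemainder hmn x y : ℕ), ?_, ?_⟩
    · simp only [Finset.mem_filter, Finset.mem_range]
      refine ⟨hlt, ?_⟩
      have e1 := (sqrtAux_congr D hz.1).2 hx2
      have e2 := (sqrtAux_congr D hz.2).2 hy2
      push_cast
      exact IsCoprime.mul_dvd (Nat.isCoprime_iff_coprime.2 hmn) e1 e2
    · have e1 : (Nat.chineseRemainder hmn x y : ℕ) % m = x := by
        have := hz.1
        rw [Nat.ModEq, Nat.mod_eq_of_lt hx1] at this
        exact this
      have e2 : (Nat.chineseRemainder hmn x y : ℕ) % n = y := by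
        have := hz.2
        rw [Nat.ModEq, Nat.mod_eq_of_lt hy1] at this
        exact this
      rw [e1, e2]

private lemma sqrtAux_p_dvd (D : ℤ) (p : ℕ) (hp : p.Prime) (k : ℕ) (hk : 1 ≤ k) (r : ℕ)
    (hr : ((p ^ k : ℕ) : ℤ) ∣ (r : ℤ) ^ 2 - D) : (p : ℤ) ∣ (r : ℤ) ^ 2 - D := by
  refine dvd_trans ?_ hr
  push_cast
  exact dvd_pow_self _ (by omega)

/-- The case `p ∣ D`. -/
private lemma sqrtAux_dvd (D : ℤ) (hD : Squarefree D) (p : ℕ) (hp : p.Prime) (k : ℕ)
    (hk : 1 ≤ k) (hpD : (p : ℤ) ∣ D) : nsqrt D (p ^ k) ≤ 1 := by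
  unfold nsqrt
  rw [Finset.card_le_one]
  have key : ∀ a : ℕ, a < p ^ k → ((p ^ k : ℕ) : ℤ) ∣ (a : ℤ) ^ 2 - D → a = 0 := by
    intro a ha h
    have hpI : Prime (p : ℤ) := Nat.prime_iff_prime_int.1 hp
    have h1 := sqrtAux_p_dvd D p hp k hk a h
    have h2 : (p : ℤ) ∣ (a : ℤ) ^ 2 := by
      have := dvd_add h1 hpD
      simpa using this
    have h3 : (p : ℤ) ∣ (a : ℤ) := hpI.dvd_of_dvd_pow h2
    rcases Nat.lt_or_ge k 2 with hk2 | hk2
    · have hk1 : k = 1 := by omega
      subst hk1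
      rw [pow_one] at ha
      have h4 : p ∣ a := by exact_mod_cast h3
      exact Nat.eq_zero_of_dvd_of_lt h4 ha
    · exfalso
      have h4 : (p : ℤ) * p ∣ (a : ℤ) ^ 2 := by
        rw [pow_two]; exact mul_dvd_mul h3 h3
      have h5 : (p : ℤ) * p ∣ (a : ℤ) ^ 2 - D := by
        refine dvd_trans ?_ h
        push_cast
        rw [← pow_two]
        exact pow_dvd_pow _ hk2
      have h6 : (p : ℤ) * p ∣ D := by
        have := dvd_sub h4 h5
        simpa using this
      exact hpI.not_isUnit (hD _ h6)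
  intro a ha b hb
  simp only [Finset.mem_filter, Finset.mem_range] at ha hb
  rw [key a ha.1 ha.2, key b hb.1 hb.2]

private lemma sqrtAux_eq_of_dvd_sub {m a b : ℕ} (ha : a < m) (hb : b < m)
    (h : (m : ℤ) ∣ (a : ℤ) - b) : a = b := by
  have h1 : (b : ℤ) ≡ a [ZMOD m] := (Int.modEq_iff_dvd).2 h
  have h2 : b ≡ a [MOD m] := Int.natCast_modEq_iff.1 h1
  exact (Nat.ModEq.eq_of_lt_of_lt h2 hb ha).symm

/-- Odd prime powers: if `p ∤ D` two roots `r, r'` satisfy `p^k ∣ (r - r') (r + r')` and `p` divides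
only one factor, so `r' ≡ ± r`. If `p ∣ D` then `p ∣ r`, so `k = 1` (one root), since
`p^2 ∤ D`. -/
theorem nsqrt_odd (D : ℤ) (hD : Squarefree D) (p : ℕ) (hp : p.Prime) (hp2 : p ≠ 2) (k : ℕ)
    (hk : 1 ≤ k) : nsqrt D (p ^ k) ≤ 2 := by
  classical
  have hpI : Prime (p : ℤ) := Nat.prime_iff_prime_int.1 hp
  by_cases hpD : (p : ℤ) ∣ D
  · exact (sqrtAux_dvd D hD p hp k hk hpD).trans (by norm_num)
  unfold nsqrt
  rcases Finset.eq_empty_or_nonempty
    ((Finset.range (p ^ k)).filter (fun r : ℕ => ((p ^ k : ℕ) : ℤ) ∣ (r : ℤ) ^ 2 - D)) with he | ⟨s, hs⟩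
  · rw [he]; simp
  simp only [Finset.mem_filter, Finset.mem_range] at hs
  have hsub : ((Finset.range (p ^ k)).filter
      (fun r : ℕ => ((p ^ k : ℕ) : ℤ) ∣ (r : ℤ) ^ 2 - D)) ⊆ {s, p ^ k - s} := by
    intro r hr
    simp only [Finset.mem_filter, Finset.mem_range] at hr
    simp only [Finset.mem_insert, Finset.mem_singleton]
    have hprod : ((p ^ k : ℕ) : ℤ) ∣ ((r : ℤ) - s) * ((r : ℤ) + s) := by
      have := dvd_sub hr.2 hs.2
      have e : ((r : ℤ) ^ 2 - D) - ((s : ℤ) ^ 2 - D) = ((r : ℤ) - s) * ((r : ℤ) + s) := by ring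
      rwa [e] at this
    by_cases h1 : (p : ℤ) ∣ (r : ℤ) - s
    · have h2 : ¬ (p : ℤ) ∣ (r : ℤ) + s := by
        intro h2
        have h3 : (p : ℤ) ∣ 2 * (r : ℤ) := by
          have := dvd_add h1 h2
          have e : ((r : ℤ) - s) + ((r : ℤ) + s) = 2 * (r : ℤ) := by ring
          rwa [e] at this
        rcases hpI.dvd_or_dvd h3 with h4 | h4
        · have h5 : p ∣ 2 := by exact_mod_cast h4
          rcases (Nat.dvd_prime Nat.prime_two).1 h5 with h6 | h6
          · exact hp.one_lt.ne' h6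
          · exact hp2 h6
        · apply hpD
          have h5 := sqrtAux_p_dvd D p hp k hk r hr.2
          have h6 : (p : ℤ) ∣ (r : ℤ) ^ 2 := dvd_pow h4 (by norm_num)
          have := dvd_sub h6 h5
          simpa using this
      have h3 : IsCoprime (((p ^ k : ℕ) : ℤ)) ((r : ℤ) + s) := by
        push_cast
        exact IsCoprime.pow_left ((Prime.coprime_iff_not_dvd hpI).2 h2)
      left
      exact sqrtAux_eq_of_dvd_sub hr.1 hs.1 (h3.dvd_of_dvd_mul_right hprod)
    · have h3 : IsCoprime (((p ^ k : ℕ) : ℤ)) ((r : ℤ) - s) := by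
        push_cast
        exact IsCoprime.pow_left ((Prime.coprime_iff_not_dvd hpI).2 h1)
      have h4 : ((p ^ k : ℕ) : ℤ) ∣ (r : ℤ) + s := h3.dvd_of_dvd_mul_left hprod
      have h5 : p ^ k ∣ r + s := by exact_mod_cast h4
      obtain ⟨c, hc⟩ := h5
      have hlt : r + s < 2 * p ^ k := by omega
      have hc2 : c < 2 := by
        by_contra hcon
        have : p ^ k * 2 ≤ p ^ k * c := Nat.mul_le_mul_left _ (by omega)
        omega
      interval_cases c
      · left; omega
      · right; omega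
  refine (Finset.card_le_card hsub).trans ?_
  exact (Finset.card_insert_le _ _).trans (by simp)

/-- Powers of two: at most 4 roots (for `D` even: `k = 1`; for `D` odd and `k ≥ 3`,
`2^k ∣ (r - r') (r + r')`, both factors are even and one is `2` modulo `4`, so
`r' ≡ ± r` modulo `2^(k-1)`). -/
theorem nsqrt_two (D : ℤ) (hD : Squarefree D) (k : ℕ) (hk : 1 ≤ k) : nsqrt D (2 ^ k) ≤ 4 := by
  classical
  by_cases hpD : ((2 : ℕ) : ℤ) ∣ D
  · exact (sqrtAux_dvd D hD 2 Nat.prime_two k hk hpD).trans (by norm_num)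
  rcases Nat.lt_or_ge k 3 with hk3 | hk3
  · unfold nsqrt
    refine (Finset.card_filter_le _ _).trans ?_
    rw [Finset.card_range]
    calc 2 ^ k ≤ 2 ^ 2 := Nat.pow_le_pow_right (by norm_num) (by omega)
      _ = 4 := by norm_num
  obtain ⟨j, rfl⟩ : ∃ j, k = j + 2 := ⟨k - 2, by omega⟩
  unfold nsqrt
  rcases Finset.eq_empty_or_nonempty
    ((Finset.range (2 ^ (j + 2))).filter (fun r : ℕ => ((2 ^ (j + 2) : ℕ) : ℤ) ∣ (r : ℤ) ^ 2 - D)) with he | ⟨s, hs⟩
  · rw [he]; simp
  simp only [Finset.mem_filter, Finset.mem_range] at hs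
  have hodd : ∀ r : ℕ, ((2 ^ (j + 2) : ℕ) : ℤ) ∣ (r : ℤ) ^ 2 - D → Odd (r : ℤ) := by
    intro r hr
    have h5 := sqrtAux_p_dvd D 2 Nat.prime_two (j + 2) (by omega) r hr
    rw [← Int.not_even_iff_odd]
    intro hev
    apply hpD
    have h6 : ((2 : ℕ) : ℤ) ∣ (r : ℤ) ^ 2 := dvd_pow (by exact_mod_cast hev.two_dvd) (by norm_num)
    have := dvd_sub h6 h5
    simpa using this
  set h := 2 ^ (j + 1) with hh
  have hpos : 0 < h := by positivity
  have h2h : 2 ^ (j + 2) = 2 * h := by rw [hh]; ring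
  have hsub : ((Finset.range (2 ^ (j + 2))).filter
      (fun r : ℕ => ((2 ^ (j + 2) : ℕ) : ℤ) ∣ (r : ℤ) ^ 2 - D)) ⊆
      {s % h, s % h + h, h - s % h, h - s % h + h} := by
    intro r hr
    simp only [Finset.mem_filter, Finset.mem_range] at hr
    simp only [Finset.mem_insert, Finset.mem_singleton]
    have hprod : ((2 ^ (j + 2) : ℕ) : ℤ) ∣ ((r : ℤ) - s) * ((r : ℤ) + s) := by
      have := dvd_sub hr.2 hs.2
      have e : ((r : ℤ) ^ 2 - D) - ((s : ℤ) ^ 2 - D) = ((r : ℤ) - s) * ((r : ℤ) + s) := by ring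
      rwa [e] at this
    have ho1 := hodd r hr.2
    have ho2 := hodd s hs.2
    obtain ⟨a, ha⟩ := (ho1.sub_odd ho2).two_dvd
    obtain ⟨b, hb⟩ := (ho1.add_odd ho2).two_dvd
    have hab : a + b = r := by omega
    have hab2 : (2 : ℤ) ^ j ∣ a * b := by
      rw [ha, hb] at hprod
      push_cast at hprod
      have e : (2 * a) * (2 * b) = 4 * (a * b) := by ring
      have e2 : (2 : ℤ) ^ (j + 2) = 4 * 2 ^ j := by ring
      rw [e, e2] at hprod
      exact (mul_dvd_mul_iff_left (by norm_num : (4 : ℤ) ≠ 0)).1 hprod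
    have hcase : (2 : ℤ) ^ j ∣ a ∨ (2 : ℤ) ^ j ∣ b := by
      have hor : Odd a ∨ Odd b := by
        by_contra hcon
        push Not at hcon
        rw [Int.not_odd_iff_even, Int.not_odd_iff_even] at hcon
        have := hcon.1.add hcon.2
        rw [hab] at this
        exact (Int.not_even_iff_odd.2 ho1) this
      rcases hor with h1 | h1
      · right
        have : IsCoprime ((2 : ℤ) ^ j) a := IsCoprime.pow_left (Int.isCoprime_two_left.2 h1)
        exact this.dvd_of_dvd_mul_left hab2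
      · left
        have : IsCoprime ((2 : ℤ) ^ j) b := IsCoprime.pow_left (Int.isCoprime_two_left.2 h1)
        exact this.dvd_of_dvd_mul_right hab2
    have hrlt : r < 2 * h := by rw [← h2h]; exact hr.1
    have hrdiv : r = r % h ∨ r = r % h + h := by
      have h1 := Nat.div_add_mod r h
      have h2 : r / h < 2 := by
        rw [Nat.div_lt_iff_lt_mul hpos]; exact hrlt
      interval_cases hq : r / h
      · left; omega
      · right; omega
    have hslt := Nat.mod_lt s hpos
    have hrm := Nat.mod_lt r hpos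
    rcases hcase with h1 | h1
    · have h2 : (h : ℤ) ∣ (r : ℤ) - s := by
        rw [ha, hh]
        push_cast
        have e2 : (2 : ℤ) ^ (j + 1) = 2 * 2 ^ j := by ring
        rw [e2]
        exact mul_dvd_mul_left 2 h1
      have h3 : (s : ℤ) ≡ r [ZMOD h] := (Int.modEq_iff_dvd).2 h2
      have h4 : s ≡ r [MOD h] := Int.natCast_modEq_iff.1 h3
      have h5 : s % h = r % h := h4
      rw [h5]
      rcases hrdiv with h6 | h6
      · left; exact h6
      · right; left; exact h6
    · have h2 : (h : ℤ) ∣ (r : ℤ) + s := by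
        rw [hb, hh]
        push_cast
        have e2 : (2 : ℤ) ^ (j + 1) = 2 * 2 ^ j := by ring
        rw [e2]
        exact mul_dvd_mul_left 2 h1
      have h3 : h ∣ r + s := by exact_mod_cast h2
      have h4 : h ∣ r % h + s % h := by
        rw [Nat.dvd_iff_mod_eq_zero] at h3 ⊢
        rw [← Nat.add_mod]; exact h3
      obtain ⟨c, hc⟩ := h4
      have hc2 : c < 2 := by
        by_contra hcon
        have : h * 2 ≤ h * c := Nat.mul_le_mul_left _ (by omega)
        omega
      interval_cases c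
      · have h5 : r % h = 0 := by omega
        have h6 : s % h = 0 := by omega
        rw [h6]
        rcases hrdiv with h7 | h7
        · left; omega
        · right; left; omega
      · have h5 : r % h = h - s % h := by omega
        rcases hrdiv with h7 | h7
        · right; right; left; omega
        · right; right; right; omega
  refine (Finset.card_le_card hsub).trans ?_
  refine (Finset.card_insert_le _ _).trans ?_
  have := (Finset.card_insert_le (s % h + h) {h - s % h, h - s % h + h})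
  have h2 := (Finset.card_insert_le (h - s % h) {h - s % h + h})
  have h3 : ({h - s % h + h} : Finset ℕ).card = 1 := Finset.card_singleton _
  omega

private lemma sqrtAux_tau_pow (p k : ℕ) (hp : p.Prime) : tau (p ^ k) = k + 1 := by
  unfold tau
  rw [Nat.divisors_prime_pow hp, Finset.card_map, Finset.card_range]

private lemma sqrtAux_tau_mul {m n : ℕ} (h : m.Coprime n) : tau (m * n) = tau m * tau n := by
  unfold tau
  exact Nat.Coprime.card_divisors_mul h

private lemma sqrtAux_main (D : ℤ) (hD : Squarefree D) (m : ℕ) :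
    m ≠ 0 → nsqrt D m ≤ (if 2 ∣ m then 2 else 1) * tau m := by
  induction m using Nat.recOnPosPrimePosCoprime with
  | zero => intro h; exact absurd rfl h
  | one =>
    intro _
    unfold nsqrt tau
    simp
  | prime_pow p n hp hn =>
    intro _
    rw [sqrtAux_tau_pow p n hp]
    by_cases h2 : p = 2
    · subst h2
      have h3 := nsqrt_two D hD n hn
      have h4 : 2 ∣ 2 ^ n := dvd_pow_self _ (by omega)
      rw [if_pos h4]
      omega
    · have h3 := nsqrt_odd D hD p hp h2 n hn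
      have h4 : ¬ 2 ∣ p ^ n := by
        intro h
        have := Nat.prime_two.dvd_of_dvd_pow h
        rcases (Nat.dvd_prime hp).1 this with h6 | h6
        · norm_num at h6
        · exact h2 h6.symm
      rw [if_neg h4]
      omega
  | coprime a b ha hb hab iha ihb =>
    intro _
    rw [nsqrt_mul D hab, sqrtAux_tau_mul hab]
    have iha' := iha (by omega)
    have ihb' := ihb (by omega)
    have hmul := Nat.mul_le_mul iha' ihb'
    have hnot : ¬ (2 ∣ a ∧ 2 ∣ b) := by
      rintro ⟨h1, h2⟩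
      have := Nat.dvd_gcd h1 h2
      rw [hab] at this
      norm_num at this
    have hc : (if 2 ∣ a then 2 else 1) * (if 2 ∣ b then 2 else 1) = (if 2 ∣ a * b then 2 else 1) := by
      by_cases h1 : 2 ∣ a
      · have h2 : ¬ 2 ∣ b := fun h => hnot ⟨h1, h⟩
        rw [if_pos h1, if_neg h2, if_pos (Dvd.dvd.mul_right h1 b)]
      · by_cases h2 : 2 ∣ b
        · rw [if_neg h1, if_pos h2, if_pos (Dvd.dvd.mul_left h2 a)]
        · have h3 : ¬ 2 ∣ a * b := by
            intro h
            rcases (Nat.Prime.dvd_mul Nat.prime_two).1 h with h4 | h4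
            · exact h1 h4
            · exact h2 h4
          rw [if_neg h1, if_neg h2, if_neg h3]
    calc nsqrt D a * nsqrt D b
        ≤ ((if 2 ∣ a then 2 else 1) * tau a) * ((if 2 ∣ b then 2 else 1) * tau b) := hmul
      _ = ((if 2 ∣ a then 2 else 1) * (if 2 ∣ b then 2 else 1)) * (tau a * tau b) := by ring
      _ = (if 2 ∣ a * b then 2 else 1) * (tau a * tau b) := by rw [hc]

/-- `nsqrt D m ≤ 2 · 2^ω(m) ≤ 2 τ(m)`. -/
theorem nsqrt_le (D : ℤ) (hD : Squarefree D) (m : ℕ) (hm : m ≠ 0) : nsqrt D m ≤ 2 * tau m := by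
  refine (sqrtAux_main D hD m hm).trans ?_
  apply Nat.mul_le_mul_right
  split_ifs <;> norm_num

end Pool.MP_aab329_nt.SerreQ
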