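import Mathlib

/-!
The divisor function: elementary bounds and the logarithmic mean of its powers.
-/

set_option autoImplicit false

namespace Pool.MP_aab329_nt.SerreQ

open Finset Real

/-- The number of divisors. -/
def tau (n : ℕ) : ℕ := n.divisors.card

theorem tau_pos {n : ℕ} (hn : n ≠ 0) : 1 ≤ tau n := by
  unfold tau
  exact Finset.card_pos.2 ⟨1, Nat.one_mem_divisors.2 hn⟩

theorem tau_le_of_dvd {m n : ℕ} (h : m ∣ n) (hn : n ≠ 0) : tau m ≤ tau n :=
  Finset.card_le_card (Nat.divisors_subset_of_dvd hn h)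

/-- Submultiplicativity (each divisor of `m n` is a product of a divisor of `m` and one of `n`). -/
theorem tau_mul_le (m n : ℕ) : tau (m * n) ≤ tau m * tau n := by
  unfold tau
  rw [Nat.divisors_mul]
  exact Finset.card_mul_le

theorem tau_pow_le (m k : ℕ) : tau (m ^ k) ≤ tau m ^ k := by
  induction k with
  | zero => simp [tau]
  | succ k ih =>
    rw [pow_succ, pow_succ]
    exact (tau_mul_le _ _).trans (Nat.mul_le_mul_right _ ih)

theorem two_pow_omega_le {n : ℕ} (hn : n ≠ 0) : 2 ^ n.primeFactors.card ≤ tau n := by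
  unfold tau
  rw [Nat.card_divisors hn, ← Finset.prod_const]
  apply Finset.prod_le_prod'
  intro p hp
  have h1 : 0 < n.factorization p :=
    (Nat.prime_of_mem_primeFactors hp).factorization_pos_of_dvd hn (Nat.dvd_of_mem_primeFactors hp)
  omega

/-- Induction on `A`: `∑ τ(r)^(A+1) / r ≤ ∑ τ(r)^A ∑_{u v = r} 1 / (u v) ≤ (∑ τ(u)^A / u)^2`. -/
theorem sum_tau_pow (A N : ℕ) (hN : 1 ≤ N) :
    ∑ r ∈ Icc 1 N, (tau r : ℝ) ^ A / r ≤ (1 + log N) ^ (2 ^ A) := by
  induction A with
  | zero =>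
    simp only [pow_zero, pow_one]
    have h1 := harmonic_le_one_add_log N
    have h2 : ((harmonic N : ℚ) : ℝ) = ∑ r ∈ Icc 1 N, (1 : ℝ) / r := by
      rw [harmonic_eq_sum_Icc]
      push_cast
      exact Finset.sum_congr rfl fun i _ => by rw [one_div]
    rw [← h2]
    exact h1
  | succ A ih =>
    set G : ℕ → ℝ := fun u => (tau u : ℝ) ^ A / u with hG
    have hG0 : ∀ u, 0 ≤ G u := fun u => by rw [hG]; positivity
    have h1 : ∀ r ∈ Icc 1 N, (tau r : ℝ) ^ (A + 1) / r ≤
        ∑ x ∈ (Icc 1 N ×ˢ Icc 1 N).filter (fun x : ℕ × ℕ => x.1 * x.2 = r), G x.1 * G x.2 := by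
      intro r hr
      rw [Finset.mem_Icc] at hr
      have hr0 : r ≠ 0 := by omega
      have hcard : ((Icc 1 N ×ˢ Icc 1 N).filter (fun x : ℕ × ℕ => x.1 * x.2 = r)).card = tau r := by
        unfold tau
        have e1 : (Icc 1 N ×ˢ Icc 1 N).filter (fun x : ℕ × ℕ => x.1 * x.2 = r) =
            r.divisorsAntidiagonal := by
          ext ⟨a, b⟩
          rw [Nat.mem_divisorsAntidiagonal, Finset.mem_filter, Finset.mem_product, Finset.mem_Icc,
            Finset.mem_Icc]
          constructor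
          · rintro ⟨_, h⟩
            exact ⟨h, hr0⟩
          · rintro ⟨h, _⟩
            have ha : a ∣ r := ⟨b, h.symm⟩
            have hb : b ∣ r := ⟨a, by rw [← h]; ring⟩
            have ha1 := Nat.le_of_dvd (by omega) ha
            have hb1 := Nat.le_of_dvd (by omega) hb
            have ha2 : 1 ≤ a := Nat.pos_of_dvd_of_pos ha (by omega)
            have hb2 : 1 ≤ b := Nat.pos_of_dvd_of_pos hb (by omega)
            exact ⟨⟨⟨ha2, by simp only; omega⟩, ⟨hb2, by simp only; omega⟩⟩, h⟩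
        rw [e1, ← Nat.map_div_right_divisors, Finset.card_map]
      have hsum : (tau r : ℝ) ^ (A + 1) / r =
          ∑ x ∈ (Icc 1 N ×ˢ Icc 1 N).filter (fun x : ℕ × ℕ => x.1 * x.2 = r),
            (tau r : ℝ) ^ A / r := by
        rw [Finset.sum_const, hcard, nsmul_eq_mul, pow_succ]
        ring
      rw [hsum]
      apply Finset.sum_le_sum
      rintro ⟨a, b⟩ hx
      rw [Finset.mem_filter, Finset.mem_product, Finset.mem_Icc, Finset.mem_Icc] at hx
      obtain ⟨⟨⟨ha1, _⟩, ⟨hb1, _⟩⟩, hab⟩ := hx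
      simp only at hab ha1 hb1
      have ht : (tau r : ℝ) ≤ tau a * tau b := by
        rw [← hab]
        exact_mod_cast tau_mul_le a b
      have hrr : (r : ℝ) = a * b := by rw [← hab]; push_cast; ring
      have ha0 : (0 : ℝ) < a := by exact_mod_cast ha1
      have hb0 : (0 : ℝ) < b := by exact_mod_cast hb1
      simp only [hG]
      rw [div_mul_div_comm, ← mul_pow, ← hrr]
      apply div_le_div_of_nonneg_right _ (by positivity)
      exact pow_le_pow_left₀ (by positivity) ht A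
    calc ∑ r ∈ Icc 1 N, (tau r : ℝ) ^ (A + 1) / r
        ≤ ∑ r ∈ Icc 1 N, ∑ x ∈ (Icc 1 N ×ˢ Icc 1 N).filter (fun x : ℕ × ℕ => x.1 * x.2 = r),
            G x.1 * G x.2 := Finset.sum_le_sum h1
      _ = ∑ x ∈ (Icc 1 N ×ˢ Icc 1 N).filter (fun x : ℕ × ℕ => x.1 * x.2 ∈ Icc 1 N),
            G x.1 * G x.2 := Finset.sum_fiberwise_eq_sum_filter _ _ _ _
      _ ≤ ∑ x ∈ Icc 1 N ×ˢ Icc 1 N, G x.1 * G x.2 := by
          apply Finset.sum_le_sum_of_subset_of_nonneg (Finset.filter_subset _ _)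
          intro x _ _
          exact mul_nonneg (hG0 _) (hG0 _)
      _ = (∑ u ∈ Icc 1 N, G u) ^ 2 := by
          rw [sq, Finset.sum_mul_sum, Finset.sum_product]
      _ ≤ ((1 + log N) ^ (2 ^ A)) ^ 2 :=
          pow_le_pow_left₀ (Finset.sum_nonneg fun u _ => hG0 u) ih 2
      _ = (1 + log N) ^ (2 ^ (A + 1)) := by
          rw [← pow_mul, pow_succ 2 A]

end Pool.MP_aab329_nt.SerreQ
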